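import Pool.Agent.Q45.TG.Surf

/-!
# The curve `Y ^ 2 = (w - G(t)) F(t, w)`: the model of odd degree
-/

set_option autoImplicit false
set_option linter.all false

open Polynomial IsDedekindDomain

namespace Pool.Agent.Q45.NE

open Pool.Agent.Q45.TG (ds coeff_ds)

section der

variable {k : Type} [Field k]

theorem ds_add (f g : k[X][X]) : ds (f + g) = ds f + ds g := by
  refine Polynomial.ext fun n => ?_
  rw [coeff_add, coeff_ds, coeff_ds, coeff_ds, coeff_add, derivative_add]

theorem ds_mul (f g : k[X][X]) : ds (f * g) = ds f * g + f * ds g := by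
  refine Polynomial.ext fun n => ?_
  rw [coeff_add, coeff_ds, coeff_mul, coeff_mul, coeff_mul, derivative_sum, ← Finset.sum_add_distrib]
  refine Finset.sum_congr rfl fun x _ => ?_
  rw [coeff_ds, coeff_ds, derivative_mul]

theorem ds_C (c : k[X]) : ds (C c) = C (derivative c) := by
  refine Polynomial.ext fun n => ?_
  rw [coeff_ds, coeff_C, coeff_C]
  split_ifs
  · rfl
  · rw [derivative_zero]

theorem ds_X : ds (X : k[X][X]) = 0 := by
  refine Polynomial.ext fun n => ?_
  rw [coeff_ds, coeff_X, coeff_zero]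
  split_ifs
  · rw [derivative_one]
  · rw [derivative_zero]

theorem ds_pow (f : k[X][X]) (n : ℕ) : ds (f ^ n) = (n : k[X][X]) * f ^ (n - 1) * ds f := by
  induction n with
  | zero =>
    rw [pow_zero, ← C_1, ds_C, derivative_one, Nat.cast_zero, C_0]
    ring
  | succ n ih =>
    rw [pow_succ, ds_mul, ih, Nat.add_sub_cancel]
    rcases Nat.eq_zero_or_pos n with rfl | hn
    · rw [pow_zero, Nat.cast_zero, Nat.cast_add, Nat.cast_zero, Nat.cast_one]
      ring
    · obtain ⟨m, rfl⟩ : ∃ m, n = m + 1 := ⟨n - 1, by omega⟩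
      rw [Nat.add_sub_cancel, pow_succ]
      push_cast
      ring

theorem ds_sum {ι : Type} (s : Finset ι) (f : ι → k[X][X]) : ds (∑ i ∈ s, f i) = ∑ i ∈ s, ds (f i) := by
  classical
  induction s using Finset.induction_on with
  | empty =>
    rw [Finset.sum_empty, Finset.sum_empty, ← C_0, ds_C, derivative_zero]
  | insert a s ha ih => rw [Finset.sum_insert ha, Finset.sum_insert ha, ds_add, ih]

/-- The chain rule. -/
theorem ds_taylor (G : k[X]) (F : k[X][X]) :
    ds (taylor G F) = taylor G (ds F) + C (derivative G) * taylor G (derivative F) := by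
  induction F using Polynomial.induction_on' with
  | add p q hp hq =>
    rw [map_add, ds_add, hp, hq, ds_add, map_add, derivative_add, map_add]
    ring
  | monomial n c =>
    have h1 : (X + C G : k[X][X]) = taylor G X := (taylor_X G).symm
    rw [taylor_monomial, ds_mul, ds_C, ds_pow, ds_add, ds_X, ds_C, zero_add,
      ← C_mul_X_pow_eq_monomial, ds_mul, ds_C, ds_pow, ds_X, mul_zero, mul_zero, add_zero,
      derivative_C_mul_X_pow, taylor_mul, taylor_C, taylor_X_pow, taylor_mul, taylor_C, taylor_X_pow,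
      C_mul, C_eq_natCast]
    ring

end der

section model

variable {A : Type} [CommRing A] (F : A[X]) (G : A)

/-- The coefficients of the polynomial `F(G + T)` in `T`. -/
noncomputable def cG (j : ℕ) : A := (taylor G F).coeff j

/-- The element `e = F(G)`. -/
noncomputable def eG : A := F.eval G

/-- The polynomial `P(x)`. -/
noncomputable def model : A[X] :=
  X ^ F.natDegree + ∑ i ∈ Finset.range F.natDegree,
    C (cG F G (i + 1) * eG F G ^ i) * X ^ (F.natDegree - 1 - i)

theorem cG_zero : cG F G 0 = eG F G := taylor_coeff_zero _ _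

variable {F} {G}

theorem deg_sum (F : A[X]) (G : A) (hn : 0 < F.natDegree) :
    (∑ i ∈ Finset.range F.natDegree,
      C (cG F G (i + 1) * eG F G ^ i) * X ^ (F.natDegree - 1 - i) : A[X]).degree <
        (F.natDegree : WithBot ℕ) := by
  refine lt_of_le_of_lt (degree_sum_le _ _) ?_
  rw [Finset.sup_lt_iff (WithBot.bot_lt_coe _)]
  intro i hi
  refine lt_of_le_of_lt (degree_C_mul_X_pow_le _ _) ?_
  have h1 : F.natDegree - 1 - i < F.natDegree := by omega
  exact_mod_cast h1

theorem model_monic (F : A[X]) (G : A) (hn : 0 < F.natDegree) : (model F G).Monic := by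
  nontriviality A
  refine (monic_X_pow _).add_of_left ?_
  rw [degree_X_pow]
  exact deg_sum F G hn

theorem model_natDegree [Nontrivial A] (F : A[X]) (G : A) (hn : 0 < F.natDegree) :
    (model F G).natDegree = F.natDegree := by
  have h1 : (model F G).degree = F.natDegree := by
    rw [model, degree_add_eq_left_of_degree_lt, degree_X_pow]
    rw [degree_X_pow]
    exact deg_sum F G hn
  exact natDegree_eq_of_degree_eq_some h1

theorem model_eval_zero (hm : F.Monic) (hn : 1 < F.natDegree) :
    (model F G).eval 0 = eG F G ^ (F.natDegree - 1) := by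
  obtain ⟨n, hn'⟩ : ∃ n, F.natDegree = n + 2 := ⟨F.natDegree - 2, by omega⟩
  rw [model, eval_add, eval_pow, eval_X, eval_finset_sum, zero_pow (by omega), zero_add, hn',
    Finset.sum_range_succ, Finset.sum_eq_zero]
  · have h1 : cG F G (n + 1 + 1) = 1 := by
      have h2 := coeff_taylor_natDegree G F
      rw [hn', hm.leadingCoeff] at h2
      exact h2
    rw [h1, one_mul, zero_add]
    simp
  · intro i hi
    rw [Finset.mem_range] at hi
    rw [eval_mul, eval_pow, eval_X, zero_pow (by omega), mul_zero]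

theorem model_map {B : Type} [CommRing B] [Nontrivial B] (φ : A →+* B) (hF : F.Monic) :
    (model F G).map φ = model (F.map φ) (φ G) := by
  have h1 : (F.map φ).natDegree = F.natDegree := hF.natDegree_map φ
  have h2 : taylor (φ G) (F.map φ) = (taylor G F).map φ := by
    rw [taylor_apply, taylor_apply, Polynomial.map_comp, Polynomial.map_add, map_X, map_C]
  have h3 : ∀ j, cG (F.map φ) (φ G) j = φ (cG F G j) := by
    intro j
    unfold cG
    rw [h2, coeff_map]
  have h4 : eG (F.map φ) (φ G) = φ (eG F G) := by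
    unfold eG
    rw [eval_map, eval₂_at_apply]
  rw [model, model, h1, Polynomial.map_add, Polynomial.map_pow, map_X, Polynomial.map_sum]
  congr 1
  refine Finset.sum_congr rfl fun i _ => ?_
  rw [Polynomial.map_mul, map_C, Polynomial.map_pow, map_X, h3, h4, map_mul, map_pow]

section eval

variable {κ : Type} [Field κ] (φ : A →+* κ)

/-- The evaluation of `F(G + T)`. -/
theorem eval_taylor (s : κ) (F : A[X]) :
    eval₂ φ (φ G + s) F = ∑ j ∈ Finset.range (F.natDegree + 1), φ ((taylor G F).coeff j) * s ^ j := by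
  have h1 : eval₂ φ (φ G + s) F = eval₂ φ s (taylor G F) := by
    rw [taylor_apply, eval₂_comp, eval₂_add, eval₂_X, eval₂_C, add_comm]
  rw [h1, eval₂_eq_sum_range, natDegree_taylor]

theorem pow_split {x : κ} (hx : x ≠ 0) (E : κ) {n j : ℕ} (hj : j ≤ n) :
    x ^ n * (E / x) ^ j = E ^ j * x ^ (n - j) := by
  have h1 : x ^ n = x ^ j * x ^ (n - j) := by rw [← pow_add, Nat.add_sub_cancel' hj]
  rw [h1, div_pow]
  field_simp

/-- `e P(x) = x ^ n F(w)` for `w = G + e / x`. -/
theorem eval_model {x : κ} (hx : x ≠ 0) :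
    φ (eG F G) * eval₂ φ x (model F G) = x ^ F.natDegree * eval₂ φ (φ G + φ (eG F G) / x) F := by
  rw [eval_taylor, Finset.sum_range_succ', model, eval₂_add, eval₂_X_pow, eval₂_finset_sum, mul_add,
    mul_add, Finset.mul_sum, Finset.mul_sum, add_comm, pow_zero, mul_one]
  congr 1
  · refine Finset.sum_congr rfl fun i hi => ?_
    rw [Finset.mem_range] at hi
    have h1 := pow_split hx (φ (eG F G)) (n := F.natDegree) (j := i + 1) (by omega)
    rw [eval₂_mul, eval₂_C, eval₂_X_pow, map_mul, map_pow, mul_left_comm (x ^ F.natDegree), h1,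
      show F.natDegree - (i + 1) = F.natDegree - 1 - i by omega, cG]
    ring
  · have h1 : φ ((taylor G F).coeff 0) = φ (eG F G) := congrArg φ (cG_zero F G)
    rw [h1]
    ring

/-- `x ^ (n - 1) F_w(w) = n P(x) - x P_x(x)`. -/
theorem eval_der {x : κ} (hx : x ≠ 0) (hn : 0 < F.natDegree) :
    x ^ (F.natDegree - 1) * eval₂ φ (φ G + φ (eG F G) / x) (derivative F) =
      ∑ i ∈ Finset.range F.natDegree, φ (cG F G (i + 1)) * (i + 1) * φ (eG F G) ^ i *
        x ^ (F.natDegree - 1 - i) := by
  have h1 : eval₂ φ (φ G + φ (eG F G) / x) (derivative F) =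
      eval₂ φ (φ (eG F G) / x) (derivative (taylor G F)) := by
    have h2 : derivative (taylor G F) = taylor G (derivative F) := by
      rw [taylor_apply, derivative_comp, derivative_add, derivative_X, derivative_C, add_zero, one_mul,
        taylor_apply]
    rw [h2, taylor_apply, eval₂_comp, eval₂_add, eval₂_X, eval₂_C, add_comm]
  have h3 : (derivative (taylor G F)).natDegree < F.natDegree := by
    refine lt_of_le_of_lt (natDegree_derivative_le _) ?_
    rw [natDegree_taylor]
    omega
  rw [h1, eval₂_eq_sum_range' φ h3, Finset.mul_sum]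
  refine Finset.sum_congr rfl fun i hi => ?_
  rw [Finset.mem_range] at hi
  have h4 := pow_split hx (φ (eG F G)) (n := F.natDegree - 1) (j := i) (by omega)
  rw [coeff_derivative, map_mul, map_add, map_natCast, map_one, mul_left_comm (x ^ (F.natDegree - 1)),
    h4, cG]
  ring

theorem eval_der' {x : κ} (hx : x ≠ 0) (hn : 0 < F.natDegree) :
    x ^ (F.natDegree - 1) * eval₂ φ (φ G + φ (eG F G) / x) (derivative F) =
      F.natDegree * eval₂ φ x (model F G) - x * eval₂ φ x (derivative (model F G)) := by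
  rw [eval_der φ hx hn, model, derivative_add, derivative_X_pow, derivative_sum, eval₂_add, eval₂_add,
    eval₂_finset_sum, eval₂_finset_sum, eval₂_mul, eval₂_C, map_natCast, eval₂_X_pow, eval₂_X_pow,
    mul_add, mul_add, Finset.mul_sum, Finset.mul_sum]
  have h1 : x * (↑F.natDegree * x ^ (F.natDegree - 1)) = F.natDegree * x ^ F.natDegree := by
    have h2 : x ^ F.natDegree = x ^ (F.natDegree - 1) * x := by
      rw [← pow_succ, Nat.sub_add_cancel hn]
    rw [h2]
    ring
  rw [h1, add_sub_add_left_eq_sub, ← Finset.sum_sub_distrib]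
  refine Finset.sum_congr rfl fun i hi => ?_
  rw [Finset.mem_range] at hi
  rw [derivative_C_mul_X_pow, eval₂_mul, eval₂_C, eval₂_X_pow, eval₂_mul, eval₂_C, eval₂_X_pow, map_mul,
    map_mul, map_mul, map_pow, map_natCast]
  rcases Nat.eq_zero_or_pos (F.natDegree - 1 - i) with h0 | h0
  · rw [h0, Nat.cast_zero, mul_zero, zero_mul, mul_zero, sub_zero, pow_zero]
    have h2 : F.natDegree = i + 1 := by omega
    have h3 : (F.natDegree : κ) = i + 1 := by rw [h2]; push_cast; ring
    rw [h3]
    ring
  · have h2 : x ^ (F.natDegree - 1 - i) = x ^ (F.natDegree - 1 - i - 1) * x := by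
      rw [← pow_succ, Nat.sub_add_cancel h0]
    have h3 : (F.natDegree : κ) = ((F.natDegree - 1 - i : ℕ) : κ) + i + 1 := by
      have h4 : F.natDegree = (F.natDegree - 1 - i) + i + 1 := by omega
      conv_lhs => rw [h4]
      push_cast
      ring
    rw [h2]
    generalize ((F.natDegree - 1 - i : ℕ) : κ) = d at h3 ⊢
    rw [h3]
    ring

end eval

/-- The root of the model. -/
theorem root_model {B : Type} [CommRing B] [IsDomain B] (φ : A →+* B) {w c : B}
    (hw : eval₂ φ w F = 0) (hc : c * (φ G - w) = φ (eG F G)) (he : φ (eG F G) ≠ 0) :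
    eval₂ φ (-c) (model F G) = 0 := by
  have hc0 : c ≠ 0 := by
    rintro rfl
    rw [zero_mul] at hc
    exact he hc.symm
  let ι := algebraMap B (FractionRing B)
  have hι : Function.Injective ι := IsFractionRing.injective B (FractionRing B)
  have hc' : ι (-c) ≠ 0 := fun h => hc0 (neg_eq_zero.1 (hι (by rw [h, map_zero])))
  have h1 := eval_model (ι.comp φ) (F := F) (G := G) hc'
  have h2 : (ι.comp φ) G + (ι.comp φ) (eG F G) / ι (-c) = ι w := by
    have h3 : (ι.comp φ) (eG F G) = ι c * (ι (φ G) - ι w) := by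
      rw [RingHom.comp_apply, ← hc, map_mul, map_sub]
    rw [h3, map_neg]
    have h4 : ι c ≠ 0 := by
      rw [map_neg] at hc'
      exact neg_ne_zero.1 hc'
    rw [RingHom.comp_apply]
    field_simp
    ring
  have h5 : eval₂ (ι.comp φ) (ι w) F = 0 := by rw [← hom_eval₂, hw, map_zero]
  rw [h2, h5, mul_zero, ← hom_eval₂] at h1
  have h3 : (ι.comp φ) (eG F G) ≠ 0 := fun h => he (hι (by rw [map_zero]; exact h))
  exact hι (by rw [(mul_eq_zero.1 h1).resolve_left h3, map_zero])

end model

section eval

variable {k : Type} [Field k] {F : k[X][X]} {G : k[X]} {κ : Type} [Field κ] (φ : k[X] →+* κ)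

/-- The derivative with respect to `t`. -/
theorem eval_ds {x : κ} (hx : x ≠ 0) (hn : 0 < F.natDegree) :
    φ (eG F G) * eval₂ φ x (ds (model F G)) =
      x ^ F.natDegree * (eval₂ φ (φ G + φ (eG F G) / x) (ds F) +
        φ (derivative G) * eval₂ φ (φ G + φ (eG F G) / x) (derivative F)) +
      φ (derivative (eG F G)) * (x ^ (F.natDegree - 1) *
        eval₂ φ (φ G + φ (eG F G) / x) (derivative F)) -
      φ (derivative (eG F G)) * eval₂ φ x (model F G) := by
  have h1 : eval₂ φ (φ G + φ (eG F G) / x) (ds F) +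
      φ (derivative G) * eval₂ φ (φ G + φ (eG F G) / x) (derivative F) =
      ∑ j ∈ Finset.range (F.natDegree + 1), φ (derivative (cG F G j)) * (φ (eG F G) / x) ^ j := by
    have h2 : ∀ f : k[X][X], eval₂ φ (φ G + φ (eG F G) / x) f =
        eval₂ φ (φ (eG F G) / x) (taylor G f) := by
      intro f
      rw [taylor_apply, eval₂_comp, eval₂_add, eval₂_X, eval₂_C, add_comm]
    have h3 : (ds (taylor G F)).natDegree < F.natDegree + 1 := by
      rw [Nat.lt_succ_iff, natDegree_le_iff_coeff_eq_zero]
      intro N hN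
      rw [coeff_ds, coeff_eq_zero_of_natDegree_lt (by rwa [natDegree_taylor]), derivative_zero]
    rw [h2, h2, ← eval₂_C φ (φ (eG F G) / x) (a := derivative G), ← eval₂_mul, ← eval₂_add,
      ← ds_taylor, eval₂_eq_sum_range' φ h3]
    refine Finset.sum_congr rfl fun j _ => ?_
    rw [coeff_ds, cG]
  have h2 : x ^ F.natDegree * ∑ j ∈ Finset.range (F.natDegree + 1),
      φ (derivative (cG F G j)) * (φ (eG F G) / x) ^ j =
      ∑ i ∈ Finset.range F.natDegree, φ (derivative (cG F G (i + 1))) * φ (eG F G) ^ (i + 1) *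
        x ^ (F.natDegree - 1 - i) + φ (derivative (eG F G)) * x ^ F.natDegree := by
    rw [Finset.sum_range_succ', mul_add, Finset.mul_sum, pow_zero, mul_one, cG_zero]
    congr 1
    · refine Finset.sum_congr rfl fun i hi => ?_
      rw [Finset.mem_range] at hi
      have h3 := pow_split hx (φ (eG F G)) (n := F.natDegree) (j := i + 1) (by omega)
      rw [mul_left_comm, h3, show F.natDegree - (i + 1) = F.natDegree - 1 - i by omega]
      ring
    · ring
  rw [h1, h2, eval_der φ hx hn, model, ds_add, ds_pow, ds_X, mul_zero, zero_add, ds_sum, eval₂_add,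
    eval₂_X_pow, eval₂_finset_sum, eval₂_finset_sum, Finset.mul_sum]
  have h3 : ∀ i ∈ Finset.range F.natDegree,
      φ (eG F G) * eval₂ φ x (ds (C (cG F G (i + 1) * eG F G ^ i) * X ^ (F.natDegree - 1 - i))) =
      φ (derivative (cG F G (i + 1))) * φ (eG F G) ^ (i + 1) * x ^ (F.natDegree - 1 - i) +
      φ (derivative (eG F G)) * (φ (cG F G (i + 1)) * i * φ (eG F G) ^ i *
        x ^ (F.natDegree - 1 - i)) := by
    intro i _
    rw [ds_mul, ds_C, ds_pow, ds_X, mul_zero, mul_zero, add_zero, eval₂_mul, eval₂_C, eval₂_X_pow,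
      derivative_mul, derivative_pow, map_add, map_mul, map_mul, map_mul, map_mul, map_pow, map_pow,
      map_natCast]
    rcases Nat.eq_zero_or_pos i with rfl | hi
    · simp
      ring
    · obtain ⟨j, rfl⟩ : ∃ j, i = j + 1 := ⟨i - 1, by omega⟩
      rw [Nat.add_sub_cancel]
      push_cast
      rw [map_add, map_natCast, map_one]
      ring
  rw [Finset.sum_congr rfl h3, Finset.sum_add_distrib, ← Finset.mul_sum]
  have h4 : ∀ i ∈ Finset.range F.natDegree,
      eval₂ φ x (C (cG F G (i + 1) * eG F G ^ i) * X ^ (F.natDegree - 1 - i)) =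
      φ (cG F G (i + 1)) * (i + 1) * φ (eG F G) ^ i * x ^ (F.natDegree - 1 - i) -
      φ (cG F G (i + 1)) * i * φ (eG F G) ^ i * x ^ (F.natDegree - 1 - i) := by
    intro i _
    rw [eval₂_mul, eval₂_C, eval₂_X_pow, map_mul, map_pow]
    ring
  rw [Finset.sum_congr rfl h4, Finset.sum_sub_distrib]
  ring

/-- **Regularity.** -/
theorem reg_pt (hsm : ∃ a₁ a₂ a₃ : k[X][X], a₁ * F + a₂ * derivative F + a₃ * ds F = 1)
    (hn : 0 < F.natDegree) {x : κ} (h1 : eval₂ φ x (model F G) = 0)
    (h2 : eval₂ φ x (derivative (model F G)) = 0) (h3 : eval₂ φ x (ds (model F G)) = 0) : x = 0 := by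
  by_contra hx
  have e1 := eval_model φ (F := F) (G := G) hx
  have e2 := eval_der' φ (F := F) (G := G) hx hn
  have e3 := eval_ds φ (F := F) (G := G) hx hn
  rw [h1, mul_zero] at e1
  rw [h1, h2, mul_zero, mul_zero, sub_zero] at e2
  have f2 := (mul_eq_zero.1 e2).resolve_left (pow_ne_zero _ hx)
  rw [h1, h3, f2, mul_zero, mul_zero, mul_zero, mul_zero, add_zero, add_zero, sub_zero] at e3
  have f1 := (mul_eq_zero.1 e1.symm).resolve_left (pow_ne_zero _ hx)
  have f3 := (mul_eq_zero.1 e3.symm).resolve_left (pow_ne_zero _ hx)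
  obtain ⟨a₁, a₂, a₃, h⟩ := hsm
  have h4 := congrArg (eval₂ φ (φ G + φ (eG F G) / x)) h
  rw [eval₂_add, eval₂_add, eval₂_mul, eval₂_mul, eval₂_mul, f1, f2, f3, eval₂_one] at h4
  simp at h4

end eval

end Pool.Agent.Q45.NE
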