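import Pool.Agent.Q45.NE.Gal
import Pool.Agent.Q45.HI.Irr

/-!
# Hilbert's irreducibility theorem for doubly transitive polynomials
-/

set_option autoImplicit false
set_option linter.all false

open Polynomial
open scoped Classical nonZeroDivisors

namespace Pool.Agent.Q45.NE

open Pool.Agent.Q45.HI (spc)
open Pool.Agent.W275.UB (UD)

section prim

attribute [local instance] FractionRing.liftAlgebra in
/-- An element of a finite extension of domains whose minimal polynomial has the full degree. -/
theorem exists_b {A B : Type} [CommRing A] [IsDomain A] [IsIntegrallyClosed A] [CharZero A]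
    [CommRing B] [IsDomain B] [Algebra A B] [Module.Finite A B] [FaithfulSMul A B]
    (hpos : 0 < Module.finrank A B) : ∃ b : B, (minpoly A b).natDegree = Module.finrank A B := by
  let L := FractionRing A
  let K := FractionRing B
  haveI : Algebra.IsIntegral A B := Algebra.IsIntegral.of_finite A B
  haveI : Algebra.IsAlgebraic A B := inferInstance
  have hr : Module.finrank L K = Module.finrank A B := IsFractionRing.finrank_eq A L B K
  haveI : FiniteDimensional L K := Module.finite_of_finrank_pos (by rw [hr]; exact hpos)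
  haveI : CharZero L := charZero_of_injective_algebraMap (IsFractionRing.injective A L)
  obtain ⟨α, hα⟩ := Field.exists_primitive_element L K
  obtain ⟨⟨b, ⟨t, s, hs, ht⟩⟩, hb⟩ := IsLocalization.surj (Algebra.algebraMapSubmonoid B A⁰) α
  refine ⟨b, ?_⟩
  have hs0 : s ≠ 0 := nonZeroDivisors.ne_zero hs
  have ht' : algebraMap B K t = algebraMap L K (algebraMap A L s) := by
    rw [← ht, ← IsScalarTower.algebraMap_apply A B K, ← IsScalarTower.algebraMap_apply A L K]
  have hb' : α * algebraMap L K (algebraMap A L s) = algebraMap B K b := by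
    rw [← ht']
    exact hb
  have hs1 : algebraMap L K (algebraMap A L s) ≠ 0 := by
    rw [map_ne_zero_iff _ (algebraMap L K).injective]
    exact (map_ne_zero_iff _ (IsFractionRing.injective A L)).2 hs0
  have htop : IntermediateField.adjoin L {algebraMap B K b} = ⊤ := by
    rw [eq_top_iff, ← hα, IntermediateField.adjoin_simple_le_iff]
    have h1 : α = algebraMap B K b / algebraMap L K (algebraMap A L s) := by
      rw [← hb', mul_div_cancel_right₀ _ hs1]
    rw [h1]
    exact div_mem (IntermediateField.mem_adjoin_simple_self L _) (IntermediateField.algebraMap_mem _ _)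
  rw [Field.primitive_element_iff_minpoly_natDegree_eq,
    minpoly.isIntegrallyClosed_eq_field_fractions L K (Algebra.IsIntegral.isIntegral (R := A) b),
    (minpoly.monic (Algebra.IsIntegral.isIntegral (R := A) b)).natDegree_map] at htop
  rw [htop, hr]

/-- A finite algebra with an element whose minimal polynomial has the full degree. -/
theorem domain_of_irr {k B : Type} [Field k] [CommRing B] [Algebra k B] [FiniteDimensional k B]
    [Nontrivial B] {Ψ : k[X]} (hΨ : Irreducible Ψ) {b : B} (hb : aeval b Ψ = 0)
    (hd : Ψ.natDegree = Module.finrank k B) : IsDomain B := by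
  haveI : Fact (Irreducible Ψ) := ⟨hΨ⟩
  let φ : AdjoinRoot Ψ →ₐ[k] B := AdjoinRoot.liftAlgHom Ψ (Algebra.ofId k B) b hb
  have hinj : Function.Injective φ := φ.toRingHom.injective
  haveI : FiniteDimensional k (AdjoinRoot Ψ) := (AdjoinRoot.powerBasis hΨ.ne_zero).finite
  have hfr : Module.finrank k (AdjoinRoot Ψ) = Module.finrank k B := by
    rw [(AdjoinRoot.powerBasis hΨ.ne_zero).finrank, AdjoinRoot.powerBasis_dim, hd]
  have hsur : Function.Surjective φ :=
    (LinearMap.injective_iff_surjective_of_finrank_eq_finrank (f := φ.toLinearMap) hfr).1 hinj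
  let e : AdjoinRoot Ψ ≃+* B := RingEquiv.ofBijective φ ⟨hinj, hsur⟩
  haveI : IsDomain (AdjoinRoot Ψ) := inferInstance
  exact MulEquiv.isDomain (AdjoinRoot Ψ) e.symm.toMulEquiv

end prim

section spec

variable {A k : Type} [CommRing A] [CommRing k] (s : A →+* k) (e : A[X])

/-- The specialization of the first root. -/
noncomputable def sp1 : AdjoinRoot e →+* AdjoinRoot (e.map s) :=
  AdjoinRoot.lift ((AdjoinRoot.of (e.map s)).comp s) (AdjoinRoot.root (e.map s)) (by
    rw [← eval₂_map, AdjoinRoot.eval₂_root])

theorem sp1_of (a : A) : sp1 s e (AdjoinRoot.of e a) = AdjoinRoot.of (e.map s) (s a) :=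
  AdjoinRoot.lift_of _

theorem sp1_root : sp1 s e (AdjoinRoot.root e) = AdjoinRoot.root (e.map s) :=
  AdjoinRoot.lift_root _

theorem quo_map : (quo e).map (sp1 s e) = quo (e.map s) := by
  have h1 := congrArg (Polynomial.map (sp1 s e)) (quo_mul e)
  have h2 : (sp1 s e).comp (AdjoinRoot.of e) = (AdjoinRoot.of (e.map s)).comp s :=
    RingHom.ext fun a => sp1_of s e a
  rw [Polynomial.map_mul, Polynomial.map_sub, map_X, map_C, sp1_root, Polynomial.map_map, h2,
    ← Polynomial.map_map, ← quo_mul (e.map s)] at h1
  exact (monic_X_sub_C _).isRegular.left h1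

/-- The specialization of both roots. -/
noncomputable def sp2 : AdjoinRoot (quo e) →+* AdjoinRoot (quo (e.map s)) :=
  AdjoinRoot.lift ((AdjoinRoot.of (quo (e.map s))).comp (sp1 s e)) (AdjoinRoot.root (quo (e.map s)))
    (by rw [← eval₂_map, quo_map, AdjoinRoot.eval₂_root])

theorem sp2_of (a : A) : sp2 s e (algebraMap A (AdjoinRoot (quo e)) a) =
    algebraMap k (AdjoinRoot (quo (e.map s))) (s a) := by
  show sp2 s e (AdjoinRoot.of (quo e) (AdjoinRoot.of e a)) =
    AdjoinRoot.of (quo (e.map s)) (AdjoinRoot.of (e.map s) (s a))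
  rw [sp2, AdjoinRoot.lift_of, RingHom.comp_apply, sp1_of]

end spec

section rank

theorem finrank_two {A : Type} [CommRing A] [IsDomain A] {e : A[X]} (he : e.Monic)
    (hn : 0 < e.natDegree) :
    Module.finrank A (AdjoinRoot (quo e)) = e.natDegree * (e.natDegree - 1) := by
  haveI : Nontrivial (AdjoinRoot e) := AdjoinRoot.nontrivial e (natDegree_pos_iff_degree_pos.1 hn).ne'
  haveI : Module.Free A (AdjoinRoot e) := Module.Free.of_basis (AdjoinRoot.powerBasis' he).basis
  haveI : Module.Finite A (AdjoinRoot e) := he.finite_adjoinRoot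
  have hq : (quo e).Monic := quo_monic he
  haveI : Module.Free (AdjoinRoot e) (AdjoinRoot (quo e)) :=
    Module.Free.of_basis (AdjoinRoot.powerBasis' hq).basis
  haveI : Module.Finite (AdjoinRoot e) (AdjoinRoot (quo e)) := hq.finite_adjoinRoot
  have h1 : (quo e).natDegree = e.natDegree - 1 := by
    unfold quo
    rw [natDegree_divByMonic _ (monic_X_sub_C _), natDegree_X_sub_C, he.natDegree_map]
  rw [← Module.finrank_mul_finrank A (AdjoinRoot e) (AdjoinRoot (quo e)),
    (AdjoinRoot.powerBasis' he).finrank, (AdjoinRoot.powerBasis' hq).finrank,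
    AdjoinRoot.powerBasis'_dim, AdjoinRoot.powerBasis'_dim, h1]

end rank

/-- **Hilbert's irreducibility theorem for doubly transitive polynomials.** -/
theorem ud_two {k : Type} [Field k] [NumberField k] {ι : Type} [Fintype ι]
    {e : (MvPolynomial ι k)[X]} (he : e.Monic) (hn : 1 < e.natDegree)
    (hdom : IsDomain (AdjoinRoot (quo e))) {ε : ℝ} (hε : 0 < ε) :
    UD ε {v : ι → ℤ | ¬ IsDomain (AdjoinRoot (quo (e.map (spc k v))))} := by
  haveI := hdom
  set A := MvPolynomial ι k with hA
  haveI : Nontrivial (AdjoinRoot e) := AdjoinRoot.nontrivial e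
    (natDegree_pos_iff_degree_pos.1 (by omega)).ne'
  haveI : Module.Finite A (AdjoinRoot e) := he.finite_adjoinRoot
  haveI : Module.Finite (AdjoinRoot e) (AdjoinRoot (quo e)) := (quo_monic he).finite_adjoinRoot
  haveI : Module.Finite A (AdjoinRoot (quo e)) := Module.Finite.trans (AdjoinRoot e) _
  have hfr := finrank_two he (by omega)
  have hpos : 0 < Module.finrank A (AdjoinRoot (quo e)) := by
    rw [hfr]
    exact Nat.mul_pos (by omega) (by omega)
  haveI : Module.Free A (AdjoinRoot e) := Module.Free.of_basis (AdjoinRoot.powerBasis' he).basis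
  haveI : Module.Free (AdjoinRoot e) (AdjoinRoot (quo e)) :=
    Module.Free.of_basis (AdjoinRoot.powerBasis' (quo_monic he)).basis
  haveI : Module.Free A (AdjoinRoot (quo e)) := Module.Free.trans (S := AdjoinRoot e)
  haveI : FaithfulSMul A (AdjoinRoot (quo e)) := inferInstance
  haveI : CharZero A := charZero_of_injective_algebraMap (MvPolynomial.C_injective ι k)
  obtain ⟨b, hb⟩ := exists_b (A := A) (B := AdjoinRoot (quo e)) hpos
  have hbi : IsIntegral A b := Algebra.IsIntegral.isIntegral (R := A) b
  have hΨm : (minpoly A b).Monic := minpoly.monic hbi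
  have hΨi : Irreducible (minpoly A b) := minpoly.irreducible hbi
  refine Pool.Agent.Y706.UD_mono ?_ (Pool.Agent.Q45.HI.ud_irr hΨm hΨi hε)
  intro v hv hcon
  apply hv
  have hev : (e.map (spc k v)).Monic := he.map _
  have hdv : (e.map (spc k v)).natDegree = e.natDegree := he.natDegree_map _
  haveI : Nontrivial (AdjoinRoot (e.map (spc k v))) := AdjoinRoot.nontrivial _
    (natDegree_pos_iff_degree_pos.1 (by omega)).ne'
  haveI : Module.Finite k (AdjoinRoot (e.map (spc k v))) := hev.finite_adjoinRoot
  haveI : Module.Finite (AdjoinRoot (e.map (spc k v))) (AdjoinRoot (quo (e.map (spc k v)))) :=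
    (quo_monic hev).finite_adjoinRoot
  haveI : Module.Finite k (AdjoinRoot (quo (e.map (spc k v)))) :=
    Module.Finite.trans (AdjoinRoot (e.map (spc k v))) _
  have hfv := finrank_two hev (by omega)
  haveI : Nontrivial (AdjoinRoot (quo (e.map (spc k v)))) := by
    refine Module.nontrivial_of_finrank_pos (R := k) ?_
    rw [hfv, hdv]
    exact Nat.mul_pos (by omega) (by omega)
  refine domain_of_irr hcon (b := sp2 (spc k v) e b) ?_ ?_
  · have h1 : aeval b (minpoly A b) = 0 := minpoly.aeval A b
    have h2 := congrArg (sp2 (spc k v) e) h1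
    rw [map_zero, aeval_def, hom_eval₂] at h2
    have h3 : (sp2 (spc k v) e).comp (algebraMap A (AdjoinRoot (quo e))) =
        (algebraMap k (AdjoinRoot (quo (e.map (spc k v))))).comp (spc k v) :=
      RingHom.ext fun a => sp2_of (spc k v) e a
    rw [h3, ← eval₂_map] at h2
    exact h2
  · rw [hΨm.natDegree_map, hb, hfr, hfv, hdv]

end Pool.Agent.Q45.NE
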