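import Pool.Agent.Q45.NE.Gal

/-!
# Double transitivity and the quotient polynomial
-/

set_option autoImplicit false
set_option linter.all false

open Polynomial
open scoped Classical

namespace Pool.Agent.Q45.NE

/-- The Galois group acts doubly transitively on the roots. -/
def DT {k : Type} [Field k] (e : k[X]) : Prop :=
  ∀ a b c d : SeparableClosure k, aeval a e = 0 → aeval b e = 0 → a ≠ b → aeval c e = 0 →
    aeval d e = 0 → c ≠ d → ∃ σ : SeparableClosure k ≃ₐ[k] SeparableClosure k, σ a = c ∧ σ b = d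

variable {k : Type} [Field k] {p : k[X]}

theorem dt_of_dom (hp : p.Monic) (hirr : Irreducible p) (hdom : IsDomain (AdjoinRoot (quo p))) :
    DT p := fun a b c d ha hb hab hc hd hcd =>
  two_trans hp hirr hdom ha hb hab hc hd hcd

/-- The quotient polynomial of a doubly transitive polynomial is prime. -/
theorem dom_of_dt (hp : p.Monic) (hirr : Irreducible p) (hsep : p.Separable) (hn : 1 < p.natDegree)
    (h : DT p) : IsDomain (AdjoinRoot (quo p)) := by
  haveI : Fact (Irreducible p) := ⟨hirr⟩
  let E := SeparableClosure k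
  let Q : (AdjoinRoot p)[X] := quo p
  have hQm : Q.Monic := quo_monic hp
  have hQd : Q.natDegree = p.natDegree - 1 := by
    show (quo p).natDegree = _
    unfold quo
    rw [natDegree_divByMonic _ (monic_X_sub_C _), natDegree_X_sub_C, hp.natDegree_map]
  -- a root in the separable closure
  have hspl : (p.map (algebraMap k E)).Splits := IsSepClosed.splits_codomain p hsep
  have hpE : p.map (algebraMap k E) ≠ 0 :=
    (Polynomial.map_ne_zero_iff (algebraMap k E).injective).2 hp.ne_zero
  obtain ⟨a, ha⟩ : ∃ a : E, aeval a p = 0 := by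
    obtain ⟨a, ha⟩ := hspl.exists_eval_eq_zero (by
      rw [degree_map]
      exact hirr.degree_pos.ne')
    rw [eval_map] at ha
    exact ⟨a, ha⟩
  let f1 : AdjoinRoot p →ₐ[k] E := AdjoinRoot.liftAlgHom p (Algebra.ofId k E) a ha
  have hf1 : f1 (AdjoinRoot.root p) = a := AdjoinRoot.liftAlgHom_root _ _ _ _
  have hof : (f1 : AdjoinRoot p →+* E).comp (AdjoinRoot.of p) = algebraMap k E :=
    RingHom.ext fun x => f1.commutes x
  have hfac : (X - C a) * Q.map (f1 : AdjoinRoot p →+* E) = p.map (algebraMap k E) := by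
    have h1 := congrArg (Polynomial.map (f1 : AdjoinRoot p →+* E)) (quo_mul p)
    rw [Polynomial.map_mul, Polynomial.map_sub, map_X, map_C, Polynomial.map_map, hof] at h1
    have h2 : (f1 : AdjoinRoot p →+* E) (AdjoinRoot.root p) = a := hf1
    rw [h2] at h1
    exact h1
  have hQE : Q.map (f1 : AdjoinRoot p →+* E) ≠ 0 := (hQm.map _).ne_zero
  have hsepE : (p.map (algebraMap k E)).Separable := hsep.map
  have hrootQ : ∀ x : E, (Q.map (f1 : AdjoinRoot p →+* E)).IsRoot x → aeval x p = 0 ∧ a ≠ x := by
    intro x hx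
    refine ⟨?_, ?_⟩
    · have h1 := congrArg (eval x) hfac
      rw [eval_mul, hx.eq_zero, mul_zero, eval_map] at h1
      exact h1.symm
    · rintro rfl
      have h1 : (X - C a) ∣ Q.map (f1 : AdjoinRoot p →+* E) := dvd_iff_isRoot.2 hx
      have h2 : IsUnit (X - C a : E[X]) := by
        refine hsepE.squarefree (X - C a) ?_
        rw [← hfac]
        exact mul_dvd_mul_left _ h1
      exact (irreducible_X_sub_C a).not_isUnit h2
  have hsplQ : (Q.map (f1 : AdjoinRoot p →+* E)).Splits := hspl.of_dvd hpE ⟨X - C a, by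
    rw [← hfac, mul_comm]⟩
  -- irreducibility
  have hQirr : Irreducible Q := by
    rw [hQm.irreducible_iff_natDegree']
    refine ⟨fun h1 => ?_, ?_⟩
    · rw [h1, natDegree_one] at hQd
      omega
    · intro g q hg hq hgq hmem
      rw [Finset.mem_Ioc] at hmem
      have hgq' : g.map (f1 : AdjoinRoot p →+* E) * q.map (f1 : AdjoinRoot p →+* E) =
          Q.map (f1 : AdjoinRoot p →+* E) := by rw [← Polynomial.map_mul, hgq]
      have hgd : g.natDegree + q.natDegree = Q.natDegree := by
        rw [← hgq, hg.natDegree_mul hq]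
      have hsq : (q.map (f1 : AdjoinRoot p →+* E)).Splits := hsplQ.of_dvd hQE
        ⟨g.map (f1 : AdjoinRoot p →+* E), by rw [← hgq', mul_comm]⟩
      have hsg : (g.map (f1 : AdjoinRoot p →+* E)).Splits := hsplQ.of_dvd hQE
        ⟨q.map (f1 : AdjoinRoot p →+* E), hgq'.symm⟩
      obtain ⟨b, hb⟩ := hsq.exists_eval_eq_zero (by
        rw [degree_map]
        exact (natDegree_pos_iff_degree_pos.1 hmem.1).ne')
      obtain ⟨c, hc⟩ := hsg.exists_eval_eq_zero (by
        rw [degree_map]
        exact (natDegree_pos_iff_degree_pos.1 (by omega)).ne')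
      have hbQ : (Q.map (f1 : AdjoinRoot p →+* E)).IsRoot b := by
        rw [IsRoot, ← hgq', eval_mul, hb, mul_zero]
      have hcQ : (Q.map (f1 : AdjoinRoot p →+* E)).IsRoot c := by
        rw [IsRoot, ← hgq', eval_mul, hc, zero_mul]
      obtain ⟨σ, hσ1, hσ2⟩ := h a b a c ha (hrootQ b hbQ).1 (hrootQ b hbQ).2 ha (hrootQ c hcQ).1
        (hrootQ c hcQ).2
      -- `σ` fixes the coefficients of `q`
      have hfix : (σ : E →+* E).comp (f1 : AdjoinRoot p →+* E) = (f1 : AdjoinRoot p →+* E) := by
        have h1 : ((σ : E →ₐ[k] E).comp f1) = f1 := by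
          refine AdjoinRoot.algHom_ext ?_
          show σ (f1 (AdjoinRoot.root p)) = f1 (AdjoinRoot.root p)
          rw [hf1, hσ1]
        exact congrArg (fun φ : AdjoinRoot p →ₐ[k] E => (φ : AdjoinRoot p →+* E)) h1
      have hc2 : (q.map (f1 : AdjoinRoot p →+* E)).eval c = 0 := by
        have h1 := congrArg σ hb
        rw [map_zero, eval_map] at h1
        have h2 := hom_eval₂ q (f1 : AdjoinRoot p →+* E) (σ : E →+* E) b
        rw [hfix] at h2
        have h3 : (σ : E →+* E) b = c := hσ2
        rw [h3] at h2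
        rw [eval_map, ← h2]
        exact h1
      -- `c` is a double root
      have h1 : (X - C c) ∣ q.map (f1 : AdjoinRoot p →+* E) := dvd_iff_isRoot.2 hc2
      have h2 : (X - C c) ∣ g.map (f1 : AdjoinRoot p →+* E) := dvd_iff_isRoot.2 hc
      have h3 : IsUnit (X - C c : E[X]) := by
        refine hsepE.squarefree (X - C c) ?_
        rw [← hfac, ← hgq']
        exact (mul_dvd_mul h2 h1).mul_left _
      exact (irreducible_X_sub_C c).not_isUnit h3
  have h5 : Prime Q := hQirr.prime
  exact Ideal.Quotient.isDomain_iff_prime _ |>.2 ((Ideal.span_singleton_prime h5.ne_zero).2 h5)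

end Pool.Agent.Q45.NE
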