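import Pool.Agent.Q45.NE.Crit
import Pool.Agent.Q45.GS.CritT

/-!
# The criterion for the Tate conjecture: the curve is regular where `x` is not zero
-/

set_option autoImplicit false
set_option linter.all false

open Polynomial IsDedekindDomain WithZero
open scoped nonZeroDivisors Classical

namespace Pool.Agent.Q45.NE

open Pool.Agent.Y160.SQ
open Pool.Agent.TH115.GD (incl rs ak Sep Comp rs_mul lift_fix Preserves exists_over val_unram
  normal_const)
open Pool.Agent.Y160.SE (IsPw)
open Pool.Agent.Y160.RK (ptCl)
open Pool.Agent.Q45.GP (tor2 TateOver tate_of_first sep_const preserves_const)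

section tate

variable (k : Type) {p m ℓ : ℕ} {k' K F A A' N R : Type} [Field k] [Field k'] [Algebra k k']
  [IsGalois k k']
  [Field K] [Algebra k K] [Field F] [Algebra k' F] [Algebra k F] [IsScalarTower k k' F]
  [Algebra K F] [IsScalarTower k K F]
  [CommRing A] [Algebra A K] [CommRing A'] [IsDedekindDomain A'] [Algebra A' F]
  [IsFractionRing A' F] [Algebra k' A'] [IsScalarTower k' A' F] [Algebra A A']
  [Algebra.IsIntegral A A'] [Field N] [Algebra K N] [CommRing R] [IsDedekindDomain R]
  [Algebra R N] [IsFractionRing R N] [Algebra A R] [Algebra.IsIntegral A R]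

include k

theorem tateN [Algebra N (Sep F)] [IsScalarTower K N (Sep F)] (hp : p.Prime) (hpm : ℓ = p ^ m)
    (H : Hyps) (hF : IntermediateField.adjoin K (Set.range (algebraMap k' F)) = ⊤)
    (hAF : ∀ a : A, algebraMap K F (algebraMap A K a) = algebraMap A' F (algebraMap A A' a))
    (hAN : ∀ a : A, algebraMap K N (algebraMap A K a) = algebraMap R N (algebraMap A R a))
    {f1 : K[X]} {fA : A'[X]} (hfA : fA.map (algebraMap A' F) = f1.map (algebraMap K F)) {ζ : K}
    (hg : Good ℓ ζ f1) (hfm : fA.Monic) (hS : RegX fA) (hirrK : Irreducible f1)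
    (hirr : Irreducible (f1.map (algebraMap K F))) {θ₀ : R} {θ : N}
    (hθ₀ : algebraMap R N θ₀ = θ) (hθ : aeval θ f1 = 0)
    (hNtop : IntermediateField.adjoin K {θ} = ⊤) (PP : Set (K[X] × K[X]))
    (hPP : ∀ P ∈ PP, Irreducible P.1 ∧ P.1.Monic ∧ ¬ P.1 ∣ f1 ∧ P.1 ∣ f1 - P.2 ^ ℓ)
    (hpts : ∀ z : N, z ≠ 0 →
      (∀ v : HeightOneSpectrum R, θ₀ ∉ v.asIdeal → IsPw ℓ (v.valuation N z)) →
      (∃ y : K, Algebra.norm K z = y ^ ℓ) →
      ∃ (u : K) (g : N) (S : Multiset (K[X] × K[X])), u ≠ 0 ∧ g ≠ 0 ∧ (∀ P ∈ S, P ∈ PP) ∧
        z = algebraMap K N u * g ^ ℓ * aeval θ (dvP S)) :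
    TateOver (F := F) p ℓ A' f1 := by
  haveI : Algebra.IsSeparable K F := sep_const k hF
  haveI : Algebra.IsSeparable F (Sep F) := IsSepClosure.separable
  haveI : Algebra.IsSeparable K (Sep F) := Algebra.IsSeparable.trans K F (Sep F)
  haveI : IsSepClosed (Sep F) := IsSepClosure.sep_closed F
  haveI : IsSepClosure K (Sep F) := ⟨inferInstance, inferInstance⟩
  haveI : IsGalois K (Sep F) := inferInstance
  have hpres : Preserves K F (Sep F) := preserves_const k (Sep F) hF
  set a : Sep F := algebraMap N (Sep F) θ with ha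
  have haR : Rt f1 a := by
    have h1 : aeval a f1 = 0 := by
      rw [ha, aeval_algebraMap_apply, hθ, map_zero]
    exact h1
  have hKN : ∀ x : K, algebraMap N (Sep F) (algebraMap K N x) =
      algebraMap F (Sep F) (algebraMap K F x) := fun x => by
    rw [← IsScalarTower.algebraMap_apply K N (Sep F), ← IsScalarTower.algebraMap_apply K F (Sep F)]
  -- the field `M`
  let S : IntermediateField F (Sep F) := IntermediateField.adjoin F {a}
  haveI : FiniteDimensional F S := IntermediateField.adjoin.finiteDimensional
    (Algebra.IsIntegral.isIntegral (R := F) a)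
  haveI : Algebra.IsSeparable F S := inferInstance
  have hmem : ∀ x : N, algebraMap N (Sep F) x ∈ S := by
    intro x
    have hx : x ∈ (⊤ : IntermediateField K N) := trivial
    rw [← hNtop] at hx
    refine IntermediateField.adjoin_induction K
      (p := fun x _ => algebraMap N (Sep F) x ∈ S) ?_ ?_ ?_ ?_ ?_ hx
    · intro y hy
      rw [Set.mem_singleton_iff] at hy
      subst hy
      exact IntermediateField.mem_adjoin_simple_self F a
    · intro y
      rw [hKN]
      exact S.algebraMap_mem _
    · intro x y _ _ hx hy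
      rw [map_add]; exact add_mem hx hy
    · intro x _ hx
      rw [map_inv₀]; exact inv_mem hx
    · intro x y _ _ hx hy
      rw [map_mul]; exact mul_mem hx hy
  let M : Type := S
  letI : Algebra N M := ((algebraMap N (Sep F)).codRestrict S hmem).toAlgebra
  haveI : IsScalarTower N M (Sep F) := IsScalarTower.of_algebraMap_eq fun x => rfl
  haveI : IsScalarTower K F M := IsScalarTower.of_algebraMap_eq fun x => Subtype.ext
    (IsScalarTower.algebraMap_apply K F (Sep F) x)
  letI : Algebra k N := ((algebraMap K N).comp (algebraMap k K)).toAlgebra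
  letI : Algebra k' M := ((algebraMap F M).comp (algebraMap k' F)).toAlgebra
  letI : Algebra k M := ((algebraMap k' M).comp (algebraMap k k')).toAlgebra
  haveI : IsScalarTower k k' M := IsScalarTower.of_algebraMap_eq fun x => rfl
  haveI : IsScalarTower k N M := IsScalarTower.of_algebraMap_eq fun x => by
    apply Subtype.ext
    show algebraMap F (Sep F) (algebraMap k' F (algebraMap k k' x)) =
      algebraMap N (Sep F) (algebraMap K N (algebraMap k K x))
    rw [hKN, ← IsScalarTower.algebraMap_apply k k' F, ← IsScalarTower.algebraMap_apply k K F]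
  letI : Algebra A' M := ((algebraMap F M).comp (algebraMap A' F)).toAlgebra
  haveI : IsScalarTower A' F M := IsScalarTower.of_algebraMap_eq fun x => rfl
  -- the ring `R`
  haveI : FiniteDimensional K N := by
    have hint : IsIntegral K θ := by
      have h1 : IsIntegral K a := Algebra.IsIntegral.isIntegral a
      exact (isIntegral_algebraMap_iff (algebraMap N (Sep F)).injective).1 h1
    haveI := IntermediateField.adjoin.finiteDimensional hint
    rw [hNtop] at this
    exact (IntermediateField.topEquiv (F := K) (E := N)).toLinearEquiv.finiteDimensional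
  haveI : Algebra.IsSeparable K N := Algebra.isSeparable_tower_bot_of_isSeparable K N (Sep F)
  haveI : IsDedekindDomain (integralClosure A' M) := integralClosure.isDedekindDomain A' F M
  haveI : IsFractionRing (integralClosure A' M) M :=
    integralClosure.isFractionRing_of_finite_extension F M
  letI : Algebra R M := ((algebraMap N M).comp (algebraMap R N)).toAlgebra
  haveI : IsScalarTower R N M := IsScalarTower.of_algebraMap_eq fun x => rfl
  have hANM : ∀ x : A, algebraMap N M (algebraMap R N (algebraMap A R x)) =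
      algebraMap A' M (algebraMap A A' x) := by
    intro x
    apply Subtype.ext
    show algebraMap N (Sep F) (algebraMap R N (algebraMap A R x)) =
      algebraMap F (Sep F) (algebraMap A' F (algebraMap A A' x))
    rw [← hAN, hKN, hAF]
  have hRB : ∀ r : R, algebraMap N M (algebraMap R N r) ∈ integralClosure A' M := by
    intro r
    have h1 : IsIntegral A r := Algebra.IsIntegral.isIntegral r
    exact IsIntegral.map_of_comp_eq (algebraMap A A') ((algebraMap N M).comp (algebraMap R N))
      (RingHom.ext fun x => (hANM x).symm) h1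
  letI : Algebra R (integralClosure A' M) :=
    (((algebraMap N M).comp (algebraMap R N)).codRestrict
      (integralClosure A' M) hRB).toAlgebra
  haveI : IsScalarTower R (integralClosure A' M) M :=
    IsScalarTower.of_algebraMap_eq fun x => rfl
  letI : Algebra k' (integralClosure A' M) :=
    ((algebraMap A' (integralClosure A' M)).comp (algebraMap k' A')).toAlgebra
  haveI : IsScalarTower k' (integralClosure A' M) M :=
    IsScalarTower.of_algebraMap_eq fun x => by
      apply Subtype.ext
      show algebraMap F (Sep F) (algebraMap k' F x) =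
        algebraMap F (Sep F) (algebraMap A' F (algebraMap k' A' x))
      rw [← IsScalarTower.algebraMap_apply k' A' F]
  haveI : Algebra.IsIntegral R (integralClosure A' M) := by
    have h1 : (algebraMap A A').IsIntegral := fun x => Algebra.IsIntegral.isIntegral (R := A) x
    have h3 : (algebraMap A' (integralClosure A' M)).IsIntegral := fun x =>
      Algebra.IsIntegral.isIntegral (R := A') x
    have h4 := RingHom.IsIntegral.trans _ _ h1 h3
    have h5 : (algebraMap A' (integralClosure A' M)).comp (algebraMap A A') =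
        (algebraMap R (integralClosure A' M)).comp (algebraMap A R) := by
      apply RingHom.ext
      intro x
      apply Subtype.ext
      exact (hANM x).symm
    rw [h5] at h4
    exact ⟨RingHom.IsIntegral.tower_top _ _ h4⟩
  haveI : Module.IsTorsionFree R (integralClosure A' M) := by
    rw [Module.isTorsionFree_iff_algebraMap_injective]
    intro x y h
    have h1 := congrArg (algebraMap (integralClosure A' M) M) h
    rw [← IsScalarTower.algebraMap_apply R (integralClosure A' M) M,
      ← IsScalarTower.algebraMap_apply R (integralClosure A' M) M] at h1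
    exact IsFractionRing.injective R N ((algebraMap N M).injective h1)
  haveI : Module.IsTorsionFree A' (integralClosure A' M) := by
    rw [Module.isTorsionFree_iff_algebraMap_injective]
    intro x y h
    have h1 := congrArg (algebraMap (integralClosure A' M) M) h
    apply IsFractionRing.injective A' F
    exact (algebraMap F M).injective h1
  -- `M` is generated by the constants
  have htop : IntermediateField.adjoin N (Set.range (algebraMap k' M)) = ⊤ := by
    set T : IntermediateField N M := IntermediateField.adjoin N (Set.range (algebraMap k' M)) with hT'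
    have hFT : ∀ x : F, algebraMap F M x ∈ T := by
      intro x
      have hx : x ∈ IntermediateField.adjoin K (Set.range (algebraMap k' F)) := by
        rw [hF]; trivial
      refine IntermediateField.adjoin_induction K
        (p := fun x _ => algebraMap F M x ∈ T) ?_ ?_ ?_ ?_ ?_ hx
      · rintro _ ⟨c, rfl⟩
        exact IntermediateField.subset_adjoin N _ ⟨c, rfl⟩
      · intro y
        have h1 : algebraMap F M (algebraMap K F y) = algebraMap N M (algebraMap K N y) :=
          Subtype.ext (hKN y).symm
        rw [h1]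
        exact T.algebraMap_mem _
      · intro x y _ _ hx hy
        rw [map_add]; exact add_mem hx hy
      · intro x _ hx
        rw [map_inv₀]; exact inv_mem hx
      · intro x y _ _ hx hy
        rw [map_mul]; exact mul_mem hx hy
    rw [eq_top_iff]
    rintro ⟨x, hx⟩ -
    refine IntermediateField.adjoin_induction F
      (p := fun x hx => (⟨x, hx⟩ : M) ∈ T) ?_ ?_ ?_ ?_ ?_ hx
    · intro y hy
      rw [Set.mem_singleton_iff] at hy
      subst hy
      exact T.algebraMap_mem θ
    · intro y
      exact hFT y
    · intro x y _ _ hx hy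
      exact add_mem hx hy
    · intro x _ hx
      exact inv_mem hx
    · intro x y _ _ hx hy
      exact mul_mem hx hy
  -- the descent
  refine tate_of_first (B := A') H hg hp hpm fun e he => ?_
  let d : (Sep F ≃ₐ[F] Sep F) → Jac ℓ f1 (Sep F) := fun σ => pe hg (Sep F) (uu ℓ) (e m σ)
  have hd : IsCoc ℓ _ d := (he.tc.coc m).pe hg _
  have hd2 : ∀ σ, Tor hg (d σ) := first_tor H hg hpm he.tc
  have hdl : ∀ v : HeightOneSpectrum A', LocTriv ℓ f1 (Comp A' F v) (Sep (Comp A' F v)) d :=
    fun v => (he.loc m v).pe hg _
  have hdi : InvOne hg d := first_inv H hg hp hpm hirr hpres he.tc he.inv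
  obtain ⟨g, hgl, hmul, hg2, hgF⟩ := ext_coc H hg hirr hpres hd hd2 hdi
  obtain ⟨t, z, ht, hz, hk⟩ := kummerN H hg haR rfl hNtop hgl hmul hg2
  have hz0 : z ≠ 0 := by
    rintro rfl
    rw [map_zero] at hz
    exact pow_ne_zero ℓ ht hz
  have hkF : ∀ σ : Sep F ≃ₐ[F] Sep F, σ a = a → σ t = chi hg a (d σ) * t := by
    intro σ hσ
    have h1 := hk (σ.restrictScalars K) hσ
    rw [hgF] at h1
    exact h1
  have hev : ∀ v : HeightOneSpectrum R, θ₀ ∉ v.asIdeal → IsPw ℓ (v.valuation N z) := by
    intro v hv
    obtain ⟨w, rfl⟩ := exists_over (B := integralClosure A' M) v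
    rw [← val_unram k (R := R) htop w]
    have hθM : algebraMap M (Sep F) (algebraMap N M θ) = a := by
      rw [← IsScalarTower.algebraMap_apply N M (Sep F)]
    exact Pool.Agent.Q45.ND.parP hp hpm H hfA hg hfm hθM haR hd hd2 hdl ht (by
      rw [← IsScalarTower.algebraMap_apply N M (Sep F), hz]) hkF
      (algebraMap R (integralClosure A' M) θ₀) (by
        rw [← IsScalarTower.algebraMap_apply R (integralClosure A' M) M,
          IsScalarTower.algebraMap_apply R N M, hθ₀]) w
      (fun h => hv (hS (integralClosure A' M) _ w.asIdeal w.isPrime h))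
  have hno := Pool.Agent.Y474.SH.stShaN ℓ K N (Sep F) f1 ζ hg H hirrK a θ haR rfl hNtop g hmul
    hg2 t z ht hz hk
  obtain ⟨u, g0, S0, hu, hg0, hSp, hze⟩ := hpts z hz0 hev hno
  obtain ⟨m', R0, R', hR0, hR', hRR⟩ := tor2 H hg hirrK haR rfl hNtop hmul hg2 ht hz hk hz0 hu hg0
    (fun P hP => hPP P (hSp P hP)) hze
  refine ⟨((m' • S0).map (ptCl ℓ f1)).sum, R0 + R', ?_, fun σ => ?_⟩
  · have h1 : pe hg (Sep F) (1 - X) R' = 0 := hR'
    rw [map_add, hR0, h1, add_zero]
  · have h1 := hRR (σ.restrictScalars K)
    rw [hgF] at h1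
    exact h1

/-- **The criterion** for the Tate conjecture. -/
theorem tateC (hp : p.Prime) (hpm : ℓ = p ^ m)
    (hF : IntermediateField.adjoin K (Set.range (algebraMap k' F)) = ⊤)
    (hAF : ∀ a : A, algebraMap K F (algebraMap A K a) = algebraMap A' F (algebraMap A A' a))
    (hAN : ∀ a : A, algebraMap K N (algebraMap A K a) = algebraMap R N (algebraMap A R a))
    {f1 : K[X]} {fA : A'[X]} (hfA : fA.map (algebraMap A' F) = f1.map (algebraMap K F)) {ζ : K}
    (hg : Good ℓ ζ f1) (hfm : fA.Monic) (hS : RegX fA) (hirrK : Irreducible f1)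
    (hirr : Irreducible (f1.map (algebraMap K F))) {θ₀ : R} {θ : N}
    (hθ₀ : algebraMap R N θ₀ = θ) (hθ : aeval θ f1 = 0)
    (hNtop : IntermediateField.adjoin K {θ} = ⊤) (PP : Set (K[X] × K[X]))
    (hPP : ∀ P ∈ PP, Irreducible P.1 ∧ P.1.Monic ∧ ¬ P.1 ∣ f1 ∧ P.1 ∣ f1 - P.2 ^ ℓ)
    (hpts : ∀ z : N, z ≠ 0 →
      (∀ v : HeightOneSpectrum R, θ₀ ∉ v.asIdeal → IsPw ℓ (v.valuation N z)) →
      (∃ y : K, Algebra.norm K z = y ^ ℓ) →
      ∃ (u : K) (g : N) (S : Multiset (K[X] × K[X])), u ≠ 0 ∧ g ≠ 0 ∧ (∀ P ∈ S, P ∈ PP) ∧
        z = algebraMap K N u * g ^ ℓ * aeval θ (dvP S)) :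
    TateOver (F := F) p ℓ A' f1 := by
  haveI : Algebra.IsSeparable K F := sep_const k hF
  haveI : Algebra.IsSeparable F (Sep F) := IsSepClosure.separable
  haveI : Algebra.IsSeparable K (Sep F) := Algebra.IsSeparable.trans K F (Sep F)
  haveI : IsSepClosed (Sep F) := IsSepClosure.sep_closed F
  have hs : IsSeparable K θ := hg.sep.of_dvd (minpoly.dvd K θ hθ)
  have f3 : Algebra.IsSeparable K (IntermediateField.adjoin K {θ}) :=
    (IntermediateField.isSeparable_adjoin_simple_iff_isSeparable K N).2 hs
  rw [hNtop] at f3
  haveI : Algebra.IsSeparable K N :=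
    Algebra.IsSeparable.of_algHom K (⊤ : IntermediateField K N)
      (IntermediateField.topEquiv (F := K) (E := N)).symm.toAlgHom
  let i : N →ₐ[K] Sep F := IsSepClosed.lift
  letI : Algebra N (Sep F) := i.toRingHom.toAlgebra
  haveI : IsScalarTower K N (Sep F) := IsScalarTower.of_algebraMap_eq fun x => (i.commutes x).symm
  exact tateN k (R := R) hp hpm hyps hF hAF hAN hfA hg hfm hS hirrK hirr hθ₀ hθ hNtop
    PP hPP hpts

end tate

end Pool.Agent.Q45.NE
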