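import Pool.Agent.Q45.NE.Iden
import Pool.Agent.Q45.NE.CritT

/-!
# The field of functions
-/

set_option autoImplicit false
set_option linter.all false

open Polynomial IsDedekindDomain WithZero
open scoped Classical

namespace Pool.Agent.Q45.NE

open Pool.Agent.Q45.TG (ds coeff_ds ds_map fF fF_monic fF_natDegree irr_base sep_fF IsBr even_cls upF)
open Pool.Agent.Y160.SE (IsPw)
open Pool.Agent.Y160.SQ

section fld

variable {k : Type} [Field k] {F : k[X][X]} {G : k[X]}

/-- The cofactor. -/
theorem exists_cof (F : k[X][X]) (G : k[X]) : ∃ c : AdjoinRoot F,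
    c * (AdjoinRoot.of F G - AdjoinRoot.root F) = AdjoinRoot.of F (eG F G) := by
  obtain ⟨c, hc⟩ := sub_dvd_eval_sub (AdjoinRoot.of F G) (AdjoinRoot.root F) (F.map (AdjoinRoot.of F))
  refine ⟨c, ?_⟩
  have h1 : (F.map (AdjoinRoot.of F)).eval (AdjoinRoot.of F G) = AdjoinRoot.of F (eG F G) := by
    rw [eval_map, eval₂_at_apply]
    rfl
  have h2 : (F.map (AdjoinRoot.of F)).eval (AdjoinRoot.root F) = 0 := by
    rw [eval_map, AdjoinRoot.eval₂_root]
  rw [h1, h2, sub_zero] at hc
  rw [hc, mul_comm]

variable {K : Type} [Field K] [Algebra k[X] K]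

/-- The point `x = e / (η - G)`. -/
theorem x_spec {N : Type} [Field N] [Algebra K N] (hinj : Function.Injective (algebraMap k[X] K))
    {η x : N} (hη : aeval η (fF F K) = 0)
    (hx : x * (η - algebraMap K N (algebraMap k[X] K G)) = algebraMap K N (algebraMap k[X] K (eG F G)))
    (he : eG F G ≠ 0) (htop : IntermediateField.adjoin K {η} = ⊤) :
    aeval x ((model F G).map (algebraMap k[X] K)) = 0 ∧ IntermediateField.adjoin K {x} = ⊤ ∧ x ≠ 0 := by
  have heN : algebraMap K N (algebraMap k[X] K (eG F G)) ≠ 0 := by
    rw [(map_ne_zero_iff _ (algebraMap K N).injective)]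
    exact (map_ne_zero_iff _ hinj).2 he
  have hx0 : x ≠ 0 := by
    rintro rfl
    rw [zero_mul] at hx
    exact heN hx.symm
  refine ⟨?_, ?_, hx0⟩
  · have h1 := root_model ((algebraMap K N).comp (algebraMap k[X] K)) (F := F) (G := G) (w := η)
      (c := -x) ?_ ?_ ?_
    · rw [neg_neg] at h1
      rw [aeval_def, eval₂_map]
      exact h1
    · rw [aeval_def, fF, eval₂_map] at hη
      exact hη
    · rw [RingHom.comp_apply, RingHom.comp_apply, ← hx]
      ring
    · exact heN
  · rw [eq_top_iff, ← htop, IntermediateField.adjoin_simple_le_iff]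
    have h1 : η = algebraMap K N (algebraMap k[X] K G) +
        algebraMap K N (algebraMap k[X] K (eG F G)) / x := by
      rw [← hx]
      field_simp
      ring
    rw [h1]
    exact add_mem (IntermediateField.algebraMap_mem _ _) (div_mem (IntermediateField.algebraMap_mem _ _)
      (IntermediateField.mem_adjoin_simple_self K x))

/-- The model is irreducible and separable. -/
theorem irr_model (hF : F.Monic) (hirr : Irreducible F) (hn : 0 < F.natDegree) (he : eG F G ≠ 0)
    (hK : IsFractionRing k[X] K) : Irreducible ((model F G).map (algebraMap k[X] K)) := by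
  have hinj : Function.Injective (algebraMap k[X] K) := IsFractionRing.injective k[X] K
  have hFK : Irreducible (fF F K) := irr_base hF hirr hK
  haveI : Fact (Irreducible (fF F K)) := ⟨hFK⟩
  let N := AdjoinRoot (fF F K)
  let η : N := AdjoinRoot.root (fF F K)
  have hη : aeval η (fF F K) = 0 := by
    rw [AdjoinRoot.aeval_eq, AdjoinRoot.mk_self]
  have htop : IntermediateField.adjoin K {η} = ⊤ := IntermediateField.adjoin_root_eq_top _
  have heN : algebraMap K N (algebraMap k[X] K (eG F G)) ≠ 0 := by
    rw [(map_ne_zero_iff _ (algebraMap K N).injective)]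
    exact (map_ne_zero_iff _ hinj).2 he
  have hηG : η - algebraMap K N (algebraMap k[X] K G) ≠ 0 := by
    intro h0
    rw [sub_eq_zero] at h0
    apply heN
    have h1 : eval₂ ((algebraMap K N).comp (algebraMap k[X] K)) η F = 0 := by
      have h6 : eval₂ (algebraMap K N) η (F.map (algebraMap k[X] K)) = 0 := hη
      rwa [eval₂_map] at h6
    rw [h0] at h1
    have h2 : eval₂ ((algebraMap K N).comp (algebraMap k[X] K))
        (((algebraMap K N).comp (algebraMap k[X] K)) G) F = 0 := h1
    rw [eval₂_at_apply] at h2
    exact h2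
  obtain ⟨h1, h2, -⟩ := x_spec (F := F) (G := G) (N := N) hinj hη
    (x := algebraMap K N (algebraMap k[X] K (eG F G)) / (η - algebraMap K N (algebraMap k[X] K G)))
    (div_mul_cancel₀ _ hηG) he htop
  set x := algebraMap K N (algebraMap k[X] K (eG F G)) / (η - algebraMap K N (algebraMap k[X] K G))
    with hx
  have hm : ((model F G).map (algebraMap k[X] K)).Monic := (model_monic F G hn).map _
  have hxi : IsIntegral K x := ⟨_, hm, h1⟩
  have h3 := IntermediateField.adjoin.finrank hxi
  rw [h2, IntermediateField.finrank_top'] at h3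
  have h4 : Module.finrank K N = F.natDegree := by
    rw [TW.finrank_of hFK (fF_monic hF _) hη htop, fF_natDegree hF]
  have h5 : minpoly K x = (model F G).map (algebraMap k[X] K) := by
    refine (eq_of_monic_of_dvd_of_natDegree_le (minpoly.monic hxi) hm (minpoly.dvd K x h1) ?_).symm
    rw [(model_monic F G hn).natDegree_map, model_natDegree F G hn, ← h4, h3]
  rw [← h5]
  exact minpoly.irreducible hxi

theorem sep_model (hF : F.Monic) (hirr : Irreducible F) (hn : 0 < F.natDegree) (he : eG F G ≠ 0)
    (hd : derivative F ≠ 0)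
    (hK : IsFractionRing k[X] K) : ((model F G).map (algebraMap k[X] K)).Separable := by
  have hinj : Function.Injective (algebraMap k[X] K) := IsFractionRing.injective k[X] K
  have hFK : Irreducible (fF F K) := irr_base hF hirr hK
  haveI : Fact (Irreducible (fF F K)) := ⟨hFK⟩
  let N := AdjoinRoot (fF F K)
  let η : N := AdjoinRoot.root (fF F K)
  have hη : aeval η (fF F K) = 0 := by
    rw [AdjoinRoot.aeval_eq, AdjoinRoot.mk_self]
  have htop : IntermediateField.adjoin K {η} = ⊤ := IntermediateField.adjoin_root_eq_top _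
  have heN : algebraMap K N (algebraMap k[X] K (eG F G)) ≠ 0 := by
    rw [(map_ne_zero_iff _ (algebraMap K N).injective)]
    exact (map_ne_zero_iff _ hinj).2 he
  have hηG : η - algebraMap K N (algebraMap k[X] K G) ≠ 0 := by
    intro h0
    rw [sub_eq_zero] at h0
    apply heN
    have h1 : eval₂ ((algebraMap K N).comp (algebraMap k[X] K)) η F = 0 := by
      have h6 : eval₂ (algebraMap K N) η (F.map (algebraMap k[X] K)) = 0 := hη
      rwa [eval₂_map] at h6
    rw [h0] at h1
    have h2 : eval₂ ((algebraMap K N).comp (algebraMap k[X] K))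
        (((algebraMap K N).comp (algebraMap k[X] K)) G) F = 0 := h1
    rw [eval₂_at_apply] at h2
    exact h2
  obtain ⟨h1, h2, -⟩ := x_spec (F := F) (G := G) (N := N) hinj hη
    (x := algebraMap K N (algebraMap k[X] K (eG F G)) / (η - algebraMap K N (algebraMap k[X] K G)))
    (div_mul_cancel₀ _ hηG) he htop
  set x := algebraMap K N (algebraMap k[X] K (eG F G)) / (η - algebraMap K N (algebraMap k[X] K G))
    with hx
  have hm : ((model F G).map (algebraMap k[X] K)).Monic := (model_monic F G hn).map _
  have hmi := irr_model hF hirr hn he hK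
  haveI : Algebra.IsSeparable K N := TW.sep_of (sep_fF hinj hFK hd) hη htop
  have h5 : minpoly K x = (model F G).map (algebraMap k[X] K) :=
    (minpoly.eq_of_irreducible_of_monic hmi h1 hm).symm
  rw [← h5]
  exact Algebra.IsSeparable.isSeparable K x

/-- The field of functions of the curve `F = 0`. -/
theorem exists_N (hF : F.Monic) (hn : 0 < F.natDegree) (hd : IsDedekindDomain (AdjoinRoot F))
    (hK : IsFractionRing k[X] K) :
    ∃ (N : Type) (_ : Field N) (_ : Algebra (AdjoinRoot F) N) (_ : Algebra K N)
      (_ : Algebra k[X] N), IsFractionRing (AdjoinRoot F) N ∧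
      IsScalarTower k[X] (AdjoinRoot F) N ∧ IsScalarTower k[X] K N := by
  haveI := hd.toIsDomain
  let R := AdjoinRoot F
  let N := FractionRing R
  have hinjR : Function.Injective (AdjoinRoot.of F) := by
    refine AdjoinRoot.of.injective_of_degree_ne_zero ?_
    intro h0
    have h1 : F.natDegree = 0 := natDegree_eq_of_degree_eq_some h0
    rw [h1] at hn
    exact lt_irrefl _ hn
  letI a1 : Algebra k[X] N := ((algebraMap R N).comp (AdjoinRoot.of F)).toAlgebra
  have hinjN : Function.Injective (algebraMap k[X] N) :=
    (IsFractionRing.injective R N).comp hinjR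
  letI a2 : Algebra K N := (IsFractionRing.lift (A := k[X]) (K := K) hinjN).toAlgebra
  refine ⟨N, inferInstance, inferInstance, a2, a1, inferInstance, ?_, ?_⟩
  · exact IsScalarTower.of_algebraMap_eq fun p => rfl
  · exact IsScalarTower.of_algebraMap_eq fun p => (IsFractionRing.lift_algebraMap hinjN p).symm

end fld

section cf

variable {k : Type} [Field k] {F : k[X][X]} {G : k[X]} {K : Type} [Field K] [Algebra k[X] K]
  {N : Type} [Field N] [Algebra (AdjoinRoot F) N] [Algebra K N] [Algebra k[X] N]
  [IsScalarTower k[X] (AdjoinRoot F) N] [IsScalarTower k[X] K N]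

theorem root_N : aeval (algebraMap (AdjoinRoot F) N (AdjoinRoot.root F)) (fF F K) = 0 := by
  rw [aeval_def, fF, eval₂_map]
  have h1 : (algebraMap K N).comp (algebraMap k[X] K) =
      (algebraMap (AdjoinRoot F) N).comp (AdjoinRoot.of F) := by
    rw [← IsScalarTower.algebraMap_eq k[X] K N, IsScalarTower.algebraMap_eq k[X] (AdjoinRoot F) N]
    rfl
  rw [h1, ← hom_eval₂, AdjoinRoot.eval₂_root, map_zero]

theorem top_N [IsDomain (AdjoinRoot F)] [IsFractionRing (AdjoinRoot F) N] :
    IntermediateField.adjoin K {algebraMap (AdjoinRoot F) N (AdjoinRoot.root F)} = ⊤ := by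
  rw [eq_top_iff]
  rintro x -
  set E := IntermediateField.adjoin K {algebraMap (AdjoinRoot F) N (AdjoinRoot.root F)} with hE
  have h1 : ∀ s : AdjoinRoot F, algebraMap (AdjoinRoot F) N s ∈ E := by
    intro s
    obtain ⟨p, rfl⟩ := AdjoinRoot.mk_surjective s
    induction p using Polynomial.induction_on' with
    | add p q hp hq => rw [map_add, map_add]; exact add_mem hp hq
    | monomial n c =>
      rw [← C_mul_X_pow_eq_monomial, map_mul, map_pow, map_mul, map_pow, AdjoinRoot.mk_X,
        AdjoinRoot.mk_C]
      refine mul_mem ?_ (pow_mem (IntermediateField.mem_adjoin_simple_self K _) n)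
      have h2 : algebraMap (AdjoinRoot F) N (AdjoinRoot.of F c) =
          algebraMap K N (algebraMap k[X] K c) := by
        rw [← IsScalarTower.algebraMap_apply k[X] K N,
          IsScalarTower.algebraMap_apply k[X] (AdjoinRoot F) N]
        rfl
      rw [h2]
      exact E.algebraMap_mem _
  obtain ⟨b, d, -, rfl⟩ := IsFractionRing.div_surjective (A := AdjoinRoot F) x
  exact div_mem (h1 b) (h1 d)

/-- The coordinate `x`. -/
theorem x_N {c : AdjoinRoot F} (hc : c * (AdjoinRoot.of F G - AdjoinRoot.root F) =
    AdjoinRoot.of F (eG F G)) :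
    algebraMap (AdjoinRoot F) N (-c) * (algebraMap (AdjoinRoot F) N (AdjoinRoot.root F) -
      algebraMap K N (algebraMap k[X] K G)) = algebraMap K N (algebraMap k[X] K (eG F G)) := by
  have h2 : ∀ p : k[X], algebraMap K N (algebraMap k[X] K p) =
      algebraMap (AdjoinRoot F) N (AdjoinRoot.of F p) := by
    intro p
    rw [← IsScalarTower.algebraMap_apply k[X] K N,
      IsScalarTower.algebraMap_apply k[X] (AdjoinRoot F) N]
    rfl
  rw [h2, h2, ← hc, map_neg, map_mul, map_sub]
  ring

end cf

end Pool.Agent.Q45.NE
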