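import Pool.Agent.Q45.NE.Fld
import Pool.Agent.Q45.TT.MFin
import Pool.Agent.Q45.TW.PicI

/-!
# Regularity of the model
-/

set_option autoImplicit false
set_option linter.all false

open Polynomial IsDedekindDomain WithZero
open scoped Classical

namespace Pool.Agent.Q45.NE

open Pool.Agent.Q45.TG (ds coeff_ds ds_map fF fF_monic fF_natDegree irr_base sep_fF IsBr even_cls upF)
open Pool.Agent.Y160.SE (IsPw)
open Pool.Agent.Q45.TW (IsGeom)
open Pool.Agent.Q45.GP (TateOver)
open Pool.Agent.Y160.SQ
open Pool.Agent.TH115.GD (Sep)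
open Pool.Agent.Y160.RK (ptCl spanD mem_spanD gen_iter rank_lin ptCl_spec)

section reg

variable {k : Type} [Field k] {F : k[X][X]} {G : k[X]}

/-- The model is regular where `x` is not zero. -/
theorem regX_model (hsm : ∃ a₁ a₂ a₃ : k[X][X], a₁ * F + a₂ * derivative F + a₃ * ds F = 1)
    (hn : 0 < F.natDegree) : RegX (model F G) := by
  intro B _ _ x I hI hmem
  haveI := hI
  set J : Ideal k[X][X] := I.comap (aeval (R := k[X]) x).toRingHom with hJ
  have hd0 : ∀ w ∈ J ^ 2, derivative w ∈ J ∧ ds w ∈ J ∧ w ∈ J := by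
    intro w hw
    refine ⟨?_, ?_, Ideal.pow_le_self two_ne_zero hw⟩
    · rw [pow_two] at hw
      refine Submodule.mul_induction_on hw ?_ ?_
      · intro m hm n hn
        rw [derivative_mul]
        exact J.add_mem (J.mul_mem_left _ hn) (J.mul_mem_right _ hm)
      · intro x y h1 h2
        rw [derivative_add]
        exact J.add_mem h1 h2
    · rw [pow_two] at hw
      refine Submodule.mul_induction_on hw ?_ ?_
      · intro m hm n hn
        rw [ds_mul]
        exact J.add_mem (J.mul_mem_left _ hn) (J.mul_mem_right _ hm)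
      · intro x y h1 h2
        rw [ds_add]
        exact J.add_mem h1 h2
  obtain ⟨h1, h2, h3⟩ := hd0 _ hmem
  let κ := FractionRing (B ⧸ I)
  let ρ : B →+* κ := (algebraMap (B ⧸ I) κ).comp (Ideal.Quotient.mk I)
  have hρ : ∀ b : B, ρ b = 0 ↔ b ∈ I := by
    intro b
    show algebraMap (B ⧸ I) κ (Ideal.Quotient.mk I b) = 0 ↔ _
    rw [map_eq_zero_iff _ (IsFractionRing.injective (B ⧸ I) κ), Ideal.Quotient.eq_zero_iff_mem]
  have key : ∀ f ∈ J, eval₂ (ρ.comp (algebraMap k[X] B)) (ρ x) f = 0 := by
    intro f hf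
    rw [← hom_eval₂]
    exact (hρ _).2 hf
  exact (hρ x).1 (reg_pt (ρ.comp (algebraMap k[X] B)) hsm hn (key _ h3) (key _ h1) (key _ h2))

/-- Regularity over an isomorphic ring. -/
theorem RegX.equiv {A A' : Type} [CommRing A] [CommRing A'] (e : A ≃+* A') {f : A[X]} (h : RegX f) :
    RegX (f.map (e : A →+* A')) := by
  intro B _ _ x I hI hmem
  letI : Algebra A B := ((algebraMap A' B).comp (e : A →+* A')).toAlgebra
  refine h B x I hI ?_
  have h1 := Ideal.mem_map_of_mem (mapRingHom (e.symm : A' →+* A)) hmem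
  rw [Ideal.map_pow] at h1
  have h2 : mapRingHom (e.symm : A' →+* A) (f.map (e : A →+* A')) = f := by
    rw [coe_mapRingHom, Polynomial.map_map]
    have h3 : (e.symm : A' →+* A).comp (e : A →+* A') = RingHom.id A :=
      RingHom.ext fun a => e.symm_apply_apply a
    rw [h3, Polynomial.map_id]
  rw [h2] at h1
  refine Ideal.pow_right_mono ?_ 2 h1
  rw [Ideal.map_le_iff_le_comap]
  intro g hg
  rw [Ideal.mem_comap, Ideal.mem_comap]
  have h4 : (aeval (R := A) x).toRingHom (mapRingHom (e.symm : A' →+* A) g) =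
      (aeval (R := A') x).toRingHom g := by
    show eval₂ (algebraMap A B) x (g.map (e.symm : A' →+* A)) = eval₂ (algebraMap A' B) x g
    rw [eval₂_map]
    congr 1
    refine RingHom.ext fun a => ?_
    show algebraMap A' B (e (e.symm a)) = _
    rw [e.apply_symm_apply]
  rw [h4]
  exact hg

end reg

section map

variable {k k' : Type} [Field k] [Field k'] [Algebra k k'] (F : k[X][X]) (G : k[X])

theorem eG_up : eG (upF k' F) (G.map (algebraMap k k')) = (eG F G).map (algebraMap k k') := by
  unfold eG upF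
  rw [eval_map]
  exact eval₂_at_apply (mapRingHom (algebraMap k k')) G

theorem model_up (hF : F.Monic) : model (upF k' F) (G.map (algebraMap k k')) = upF k' (model F G) :=
  (model_map (F := F) (G := G) (mapRingHom (algebraMap k k')) hF).symm

end map

end Pool.Agent.Q45.NE
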