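import Pool.Agent.Q45.NE.ParB

/-!
# The valuations of the Kummer generator at all points over one place: the Tate conjecture
-/

set_option autoImplicit false
set_option linter.all false

open Polynomial IsDedekindDomain WithZero
open scoped nonZeroDivisors Classical

namespace Pool.Agent.Q45.NE

open Pool.Agent.Y160.SQ
open Pool.Agent.TH115.GD (incl rs ak Sep Comp rs_mul exists_compl_map)
open Pool.Agent.Y160.SE (IsPw)

section parT

variable {A K F M B : Type} [CommRing A] [IsDedekindDomain A] [Field K] [Field F]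
  [Algebra A F] [IsFractionRing A F] [Algebra K F]
  [Field M] [Algebra F M] [Algebra K M] [IsScalarTower K F M] [Algebra M (Sep F)]
  [IsScalarTower F M (Sep F)]
  [CommRing B] [IsDedekindDomain B] [Algebra B M] [IsFractionRing B M] [Algebra A B]
  [Algebra.IsIntegral A B] [Algebra A M] [IsScalarTower A F M]
  [IsScalarTower A B M] [Module.IsTorsionFree A B]

/-- The valuation of the generator at the points over one place where `w - G` is a unit, over an
extension of the field of constants. -/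
theorem parBT (H : Hyps) {F₀ : A[X]} {G₀ : A} {f1 : K[X]}
    (hfA : (model F₀ G₀).map (algebraMap A F) = f1.map (algebraMap K F)) {ζ : K}
    (hF₀ : F₀.Monic) (hodd : Odd F₀.natDegree)
    (he : eG F₀ G₀ ≠ 0) (hg : Good 2 ζ f1)
    {a : Sep F} {θ z : M} (hθ : algebraMap M (Sep F) θ = a)
    (ha : Rt f1 a)
    {c : (Sep F ≃ₐ[F] Sep F) → Jac 2 f1 (Sep F)}
    (hc : IsCoc 2 _ c) (hc2 : ∀ σ, Tor hg (c σ)) (v : HeightOneSpectrum A)
    (hloc : LocTriv 2 f1 (Comp A F v) (Sep (Comp A F v)) c)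
    {t : Sep F} (ht : t ≠ 0)
    (hz : t ^ 2 = algebraMap M (Sep F) z) (hk : ∀ σ : Sep F ≃ₐ[F] Sep F, σ a = a →
      σ t = chi hg a (c σ) * t) {θ₀ W₀ : B} (hθ₀ : algebraMap B M θ₀ = θ)
    (hxW : θ₀ * W₀ = algebraMap A B (eG F₀ G₀)) (hroot : aeval (algebraMap A B G₀ + W₀) F₀ = 0)
    (hv : v.valuation F (algebraMap A F (eG F₀ G₀)) = exp (-1 : ℤ)) (hreg : RegW F₀ G₀) :
    ∃ i : ℕ, ∀ 𝔓 : HeightOneSpectrum B, 𝔓.under A = v → W₀ ∉ 𝔓.asIdeal →
      IsPw 2 (𝔓.valuation M (z * θ ^ i)) := by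
  let L := Comp A F v
  haveI : Algebra.IsSeparable F (Sep F) := IsSepClosure.separable
  haveI : IsGalois F (Sep F) := inferInstance
  obtain ⟨G, hG, hUni⟩ := locU (K := K) (F := F) (Ω := Sep F) (L := L)
    (Ω' := Sep L) (M := M) H hg ha hθ hc hc2 hloc ht hz hk
  have hfL : f1.map (algebraMap K L) = (model F₀ G₀).map (iL (K := F) v) := by
    rw [IsScalarTower.algebraMap_eq K F L, ← Polynomial.map_map, ← hfA, Polynomial.map_map]
    rfl
  have hG' : LP 2 ((model F₀ G₀).map (iL (K := F) v)) G := by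
    rw [← hfL]
    exact hG
  obtain ⟨lam, hlam, hLam⟩ := loc_Lam v hF₀ hodd he hG'
  let w0 : Valuation L (WithZero (Multiplicative ℤ)) :=
    (Valued.v : Valuation (v.adicCompletion F) (WithZero (Multiplicative ℤ)))
  obtain ⟨m, hm⟩ : ∃ m : ℤ, w0 lam = exp m :=
    ⟨log (w0 lam), (exp_log ((Valuation.ne_zero_iff w0).2 hlam)).symm⟩
  have hwe : w0 (iL (K := F) v (eG F₀ G₀)) = exp (-1 : ℤ) := by
    rw [← hv]
    exact HeightOneSpectrum.valuedAdicCompletion_eq_valuation' v _
  refine ⟨m.natAbs, fun 𝔓 hPv hW => ?_⟩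
  subst hPv
  haveI hlo : 𝔓.asIdeal.LiesOver (𝔓.under A).asIdeal := ⟨rfl⟩
  have hval : ∀ x : F, (𝔓.under A).valuation F x ^
      (𝔓.under A).asIdeal.ramificationIdx' 𝔓.asIdeal =
      𝔓.valuation M (algebraMap F M x) := fun x =>
    HeightOneSpectrum.valuation_liesOver (A := A) M (𝔓.under A) 𝔓 x
  have hram : (𝔓.under A).asIdeal.ramificationIdx' 𝔓.asIdeal ≠ 0 :=
    Ideal.IsDedekindDomain.ramificationIdx'_ne_zero_of_liesOver 𝔓.asIdeal (𝔓.under A).ne_bot
  obtain ⟨j, hj1, hj2, hj3⟩ := exists_compl_map (𝔓.under A) 𝔓 (algebraMap F M)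
    (fun x hx => by rw [← hval]; exact pow_le_one₀ zero_le hx)
    (fun x hx => by rw [← hval]; exact pow_lt_one₀ zero_le hx hram)
  let E := Comp B M 𝔓
  haveI : IsScalarTower K F E := IsScalarTower.of_algebraMap_eq fun x => by
    show algebraMap M E (algebraMap K M x) = algebraMap M E (algebraMap F M (algebraMap K F x))
    rw [← IsScalarTower.algebraMap_apply K F M]
  let j' : L →+* E := j
  have hj' : ∀ x : F, j' (algebraMap F L x) = algebraMap F E x := fun x => hj1 x
  obtain ⟨g0, y0, hg0, hy0, hzG⟩ := hUni E (Sep E) j' hj'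
  let wE : Valuation E (WithZero (Multiplicative ℤ)) :=
    (Valued.v : Valuation (𝔓.adicCompletion M) (WithZero (Multiplicative ℤ)))
  have wz : ∀ x : M, wE (algebraMap M E x) = 𝔓.valuation M x := fun x =>
    HeightOneSpectrum.valuedAdicCompletion_eq_valuation' 𝔓 x
  have hjA : ∀ x : A, j' (iL (K := F) (𝔓.under A) x) =
      algebraMap M E (algebraMap B M (algebraMap A B x)) := by
    intro x
    rw [← IsScalarTower.algebraMap_apply A B M, IsScalarTower.algebraMap_apply A F M]
    exact hj1 _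
  have hpt : IsPt (𝔓.under A) F₀ G₀ wE j' (algebraMap M E θ)
      (algebraMap M E (algebraMap B M W₀)) := by
    refine ⟨hj2, hj3, ?_, ?_, ?_, ?_⟩
    · refine Eq.trans ?_ (hjA (eG F₀ G₀)).symm
      rw [← hxW, map_mul, map_mul, hθ₀]
    · rw [wz, 𝔓.valuation_of_algebraMap, HeightOneSpectrum.intValuation_eq_one_iff]
      exact hW
    · have h1 : (j.comp (iL (K := F) (𝔓.under A)) : A →+* E) =
          ((algebraMap M E).comp (algebraMap B M)).comp (algebraMap A B) :=
        RingHom.ext hjA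
      have h3 : (algebraMap M E (algebraMap B M (algebraMap A B G₀)) +
          algebraMap M E (algebraMap B M W₀) : E) =
          ((algebraMap M E).comp (algebraMap B M)) (algebraMap A B G₀ + W₀) := by
        rw [map_add]
        rfl
      have h4 : eval₂ (algebraMap A B) (algebraMap A B G₀ + W₀) F₀ = 0 := hroot
      have h5 : eval₂ (((algebraMap M E).comp (algebraMap B M)).comp (algebraMap A B))
          (algebraMap M E (algebraMap B M (algebraMap A B G₀)) +
          algebraMap M E (algebraMap B M W₀)) F₀ = 0 := by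
        rw [h3, ← hom_eval₂, h4, map_zero]
      rw [← h1, ← hjA] at h5
      exact h5
    · intro a' _ _ haw
      exact Pool.Agent.Q45.ND.reg_pt (𝔓.under A) 𝔓 j (fun x => by
          rw [hj1, ← IsScalarTower.algebraMap_apply A F M, ← IsScalarTower.algebraMap_apply A B M])
          hj2 hj3 W₀ (X * taylor G₀ F₀) (fun h => hW (hreg B W₀ 𝔓.asIdeal 𝔓.isPrime h)) a' haw
  obtain ⟨δ, hδ'⟩ := hLam E wE j' _ _ hpt
  have hxe : wE (algebraMap M E θ) = wE (j' (iL (K := F) (𝔓.under A) (eG F₀ G₀))) := by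
    have h1 := congrArg wE hpt.mul
    rw [map_mul, hpt.unit, mul_one] at h1
    exact h1
  have hwl : wE (j' lam) = wE (algebraMap M E θ) ^ (-m) := by
    rw [hxe]
    exact val_lam w0 wE j' hj2 hm hwe
  have hx0 : wE (algebraMap M E θ) ≠ 0 := by
    rw [hxe, Valuation.ne_zero_iff]
    refine (_root_.map_ne_zero j').2 ?_
    intro h0
    rw [h0, map_zero] at hwe
    exact exp_ne_zero hwe.symm
  have hδ : wE ((G.map j').eval (algebraMap M E θ)) * wE (algebraMap M E θ) ^ (-m) = δ ^ 2 := by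
    rw [← hwl]
    exact hδ'
  obtain ⟨s, hs⟩ := hodd
  have hdeg : f1.natDegree = 2 * s + 1 := by
    have h1 := congrArg natDegree hfA
    rw [(model_monic F₀ G₀ (by omega)).natDegree_map, hg.monic.natDegree_map,
      model_natDegree F₀ G₀ (by omega), hs] at h1
    exact h1.symm
  have hmain : IsPw 2 (wE (algebraMap M E z) * wE (algebraMap M E θ) ^ (-m)) := by
    refine IsPw.of_mul (δ := wE (j' y0)) ?_ ?_
    · rw [Valuation.ne_zero_iff]
      exact (_root_.map_ne_zero j').2 hy0
    · set γ := wE ((G.map j').eval (algebraMap M E θ)) with hγ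
      have h1 : wE (algebraMap M E z) * wE (j' y0) ^ 2 = wE g0 ^ 2 * γ ^ (2 * s + 1) := by
        rw [← map_pow, ← map_mul]
        rcases hzG with h | h
        · rw [h, map_mul, map_pow, map_pow, hdeg]
        · rw [h, Valuation.map_neg, map_mul, map_pow, map_pow, hdeg]
      refine ⟨wE g0 * γ ^ s * δ, ?_⟩
      have h2 : wE (algebraMap M E z) * wE (algebraMap M E θ) ^ (-m) * wE (j' y0) ^ 2 =
          wE (algebraMap M E z) * wE (j' y0) ^ 2 * wE (algebraMap M E θ) ^ (-m) :=
        mul_right_comm _ _ _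
      rw [h2, h1, pow_succ γ (2 * s), mul_assoc, mul_assoc (γ ^ (2 * s)), hδ, mul_comm 2 s, pow_mul,
        mul_pow, mul_pow, mul_assoc]
  rw [map_mul, map_pow, ← wz, ← wz, ← zpow_natCast]
  refine par_zpow hx0 ?_ hmain
  rcases Int.natAbs_eq m with h | h
  · rw [h]
    simp only [Int.natAbs_natCast]
    exact ⟨(m.natAbs : ℤ), by ring⟩
  · refine ⟨0, ?_⟩
    omega

end parT

end Pool.Agent.Q45.NE
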