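import Pool.Agent.Q45.NE.MainB
import Pool.Agent.Q45.HI.Fac

/-!
# Number fields
-/

set_option autoImplicit false
set_option linter.all false

open Polynomial IsDedekindDomain WithZero Filter Topology
open scoped Classical

namespace Pool.Agent.Q45.NE

open Pool.Agent.Q45.TG (gs gs_monic gs_natDegree gs_irr gs_der gs_ds gs_smooth gs_isBr upF ds fF
  irr_base sep_fF)
open Pool.Agent.Q45.HI (spc)
open Pool.Agent.W275.UB (UD)

section sub

variable {k : Type} [Field k]

/-- The substitution `X ↦ v + h(w)`, `Y ↦ w`. -/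
noncomputable def sig (h : k[X]) : k[X][X] →+* (MvPolynomial Unit k)[X] :=
  eval₂RingHom (eval₂RingHom (C.comp MvPolynomial.C)
    (C (MvPolynomial.X ()) + h.map MvPolynomial.C)) X

/-- The inverse substitution. -/
noncomputable def tau (h : k[X]) : (MvPolynomial Unit k)[X] →+* k[X][X] :=
  eval₂RingHom (MvPolynomial.eval₂Hom (C.comp C) fun _ => C X - h.map C) X

theorem sig_map (h p : k[X]) : sig h (p.map C) = p.map MvPolynomial.C := by
  have h1 : (sig h).comp (mapRingHom C) = mapRingHom MvPolynomial.C := by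
    refine Polynomial.ringHom_ext (fun a => ?_) ?_
    · rw [RingHom.comp_apply, coe_mapRingHom, map_C, coe_mapRingHom, map_C]
      unfold sig
      rw [coe_eval₂RingHom, eval₂_C, coe_eval₂RingHom, eval₂_C]
      rfl
    · rw [RingHom.comp_apply, coe_mapRingHom, map_X, coe_mapRingHom, map_X]
      unfold sig
      rw [coe_eval₂RingHom, eval₂_X]
  exact congrArg (fun φ : k[X] →+* (MvPolynomial Unit k)[X] => φ p) h1

theorem tau_map (h p : k[X]) : tau h (p.map MvPolynomial.C) = p.map C := by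
  have h1 : (tau h).comp (mapRingHom MvPolynomial.C) = mapRingHom C := by
    refine Polynomial.ringHom_ext (fun a => ?_) ?_
    · rw [RingHom.comp_apply, coe_mapRingHom, map_C, coe_mapRingHom, map_C]
      unfold tau
      rw [coe_eval₂RingHom, eval₂_C, MvPolynomial.eval₂Hom_C]
      rfl
    · rw [RingHom.comp_apply, coe_mapRingHom, map_X, coe_mapRingHom, map_X]
      unfold tau
      rw [coe_eval₂RingHom, eval₂_X]
  exact congrArg (fun φ : k[X] →+* k[X][X] => φ p) h1

theorem tau_sig (h : k[X]) : (tau h).comp (sig h) = RingHom.id _ := by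
  refine Polynomial.ringHom_ext' (Polynomial.ringHom_ext (fun a => ?_) ?_) ?_
  · show tau h (sig h (C (C a))) = C (C a)
    unfold sig
    rw [coe_eval₂RingHom, eval₂_C, coe_eval₂RingHom, eval₂_C]
    unfold tau
    rw [RingHom.comp_apply, coe_eval₂RingHom, eval₂_C, MvPolynomial.eval₂Hom_C]
    rfl
  · show tau h (sig h (C X)) = C X
    unfold sig
    rw [coe_eval₂RingHom, eval₂_C, coe_eval₂RingHom, eval₂_X, map_add, tau_map]
    unfold tau
    rw [coe_eval₂RingHom, eval₂_C, MvPolynomial.eval₂Hom_X', sub_add_cancel]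
  · show tau h (sig h X) = X
    unfold sig
    rw [coe_eval₂RingHom, eval₂_X]
    unfold tau
    rw [coe_eval₂RingHom, eval₂_X]

theorem sig_tau (h : k[X]) : (sig h).comp (tau h) = RingHom.id _ := by
  refine Polynomial.ringHom_ext' (MvPolynomial.ringHom_ext (fun a => ?_) (fun i => ?_)) ?_
  · show sig h (tau h (C (MvPolynomial.C a))) = C (MvPolynomial.C a)
    unfold tau
    rw [coe_eval₂RingHom, eval₂_C, MvPolynomial.eval₂Hom_C]
    unfold sig
    rw [RingHom.comp_apply, coe_eval₂RingHom, eval₂_C, coe_eval₂RingHom, eval₂_C]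
    rfl
  · show sig h (tau h (C (MvPolynomial.X i))) = C (MvPolynomial.X i)
    unfold tau
    rw [coe_eval₂RingHom, eval₂_C, MvPolynomial.eval₂Hom_X', map_sub, sig_map]
    unfold sig
    rw [coe_eval₂RingHom, eval₂_C, coe_eval₂RingHom, eval₂_X, add_sub_cancel_right]
  · show sig h (tau h X) = X
    unfold tau
    rw [coe_eval₂RingHom, eval₂_X]
    unfold sig
    rw [coe_eval₂RingHom, eval₂_X]

theorem irr_sig {q : k[X][X]} (hq : Irreducible q) (h : k[X]) : Irreducible (sig h q) := by
  let e : k[X][X] ≃+* (MvPolynomial Unit k)[X] := RingEquiv.ofRingHom (sig h) (tau h)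
    (sig_tau h) (tau_sig h)
  exact (MulEquiv.irreducible_iff (e : k[X][X] ≃* (MvPolynomial Unit k)[X])).2 hq

/-- The polynomial `F(t, v + G(t))`. -/
noncomputable def Phi (F : k[X][X]) (G : k[X]) : (MvPolynomial Unit k)[X] :=
  F.eval₂ (mapRingHom MvPolynomial.C) (C (MvPolynomial.X ()) + G.map MvPolynomial.C)

theorem phi_eq (F : k[X][X]) (G : k[X]) : Phi F G = sig G (Bivariate.swap F) := by
  have h1 : eval₂RingHom (mapRingHom (MvPolynomial.C : k →+* MvPolynomial Unit k))
      (C (MvPolynomial.X ()) + G.map MvPolynomial.C) =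
      (sig G).comp ((Bivariate.swap (R := k)).toAlgHom.toRingHom) := by
    refine Polynomial.ringHom_ext' (Polynomial.ringHom_ext (fun a => ?_) ?_) ?_
    · show eval₂ _ _ (C (C a)) = sig G (Bivariate.swap (C (C a)))
      rw [eval₂_C, coe_mapRingHom, map_C, Bivariate.swap_C_C]
      unfold sig
      rw [coe_eval₂RingHom, eval₂_C, coe_eval₂RingHom, eval₂_C]
      rfl
    · show eval₂ _ _ (C X) = sig G (Bivariate.swap (C X))
      rw [eval₂_C, coe_mapRingHom, map_X, Bivariate.swap_X]
      unfold sig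
      rw [coe_eval₂RingHom, eval₂_X]
    · show eval₂ _ _ X = sig G (Bivariate.swap X)
      rw [eval₂_X, Bivariate.swap_Y]
      unfold sig
      rw [coe_eval₂RingHom, eval₂_C, coe_eval₂RingHom, eval₂_X]
  exact congrArg (fun φ : k[X][X] →+* (MvPolynomial Unit k)[X] => φ F) h1

theorem phi_irr {F : k[X][X]} (hF : Irreducible F) (G : k[X]) : Irreducible (Phi F G) := by
  rw [phi_eq]
  refine irr_sig ?_ G
  exact (MulEquiv.irreducible_iff ((Bivariate.swap (R := k)).toRingEquiv : k[X][X] ≃* k[X][X])).2 hF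

theorem phi_spc (F : k[X][X]) (G : k[X]) (v : Unit → ℤ) :
    (Phi F G).map (spc k v) = eG F (G + C ((v () : ℤ) : k)) := by
  have h1 : (mapRingHom (spc k v)).comp (mapRingHom (MvPolynomial.C : k →+* MvPolynomial Unit k)) =
      RingHom.id k[X] := by
    rw [Polynomial.mapRingHom_comp]
    have h3 : (spc k v).comp MvPolynomial.C = RingHom.id k :=
      RingHom.ext fun a => MvPolynomial.eval_C _
    rw [h3, mapRingHom_id]
  have h2 : (Phi F G).map (spc k v) = mapRingHom (spc k v) (Phi F G) := rfl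
  rw [h2, Phi, hom_eval₂, h1]
  have h3 : mapRingHom (spc k v) (C (MvPolynomial.X ()) + G.map MvPolynomial.C) =
      G + C ((v () : ℤ) : k) := by
    rw [map_add, coe_mapRingHom, map_C, Polynomial.map_map, add_comm]
    have h4 : (spc k v).comp MvPolynomial.C = RingHom.id k :=
      RingHom.ext fun a => MvPolynomial.eval_C _
    rw [h4, Polynomial.map_id]
    congr 2
    exact MvPolynomial.eval_X _
  rw [h3]
  rfl

/-- The leading coefficient. -/
theorem phi_lead {F : k[X][X]} (hF : F.Monic) (hn : 0 < F.natDegree) {G : k[X]}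
    (hdeg : ∀ i < F.natDegree, (F.coeff i).natDegree < (F.natDegree - i) * G.natDegree) :
    (Phi F G).leadingCoeff = MvPolynomial.C (G.leadingCoeff ^ F.natDegree) := by
  have hd0 : 0 < G.natDegree := by
    have h1 := hdeg 0 hn
    by_contra h0
    have h2 : G.natDegree = 0 := by omega
    rw [h2, mul_zero] at h1
    omega
  set x : (MvPolynomial Unit k)[X] := C (MvPolynomial.X ()) + G.map MvPolynomial.C with hx
  have hCi : Function.Injective (MvPolynomial.C : k →+* MvPolynomial Unit k) :=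
    MvPolynomial.C_injective Unit k
  have hd : (G.map (MvPolynomial.C : k →+* MvPolynomial Unit k)).natDegree = G.natDegree :=
    natDegree_map_eq_of_injective hCi G
  have hxd : x.natDegree = G.natDegree := by
    rw [hx, natDegree_C_add, hd]
  have hxl : x.leadingCoeff = MvPolynomial.C G.leadingCoeff := by
    rw [hx, leadingCoeff_add_of_degree_lt, leadingCoeff_map_of_injective hCi]
    refine lt_of_le_of_lt degree_C_le ?_
    rw [← natDegree_pos_iff_degree_pos, hd]
    exact hd0
  have hx0 : x ≠ 0 := by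
    intro h0
    rw [h0, natDegree_zero] at hxd
    omega
  have h1 : Phi F G = ∑ i ∈ Finset.range F.natDegree,
      (F.coeff i).map MvPolynomial.C * x ^ i + x ^ F.natDegree := by
    rw [Phi, eval₂_eq_sum_range, Finset.sum_range_succ, ← hx, hF.coeff_natDegree, map_one, one_mul]
    rfl
  rw [h1, leadingCoeff_add_of_degree_lt, leadingCoeff_pow, hxl, map_pow]
  have h2 : (x ^ F.natDegree).degree = ((F.natDegree * G.natDegree : ℕ) : WithBot ℕ) := by
    rw [degree_eq_natDegree (pow_ne_zero _ hx0), natDegree_pow, hxd]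
  rw [h2]
  refine (degree_sum_le _ _).trans_lt ?_
  rw [Finset.sup_lt_iff (WithBot.bot_lt_coe _)]
  intro i hi
  rw [Finset.mem_range] at hi
  refine lt_of_le_of_lt degree_le_natDegree ?_
  have h3 : ((F.coeff i).map MvPolynomial.C * x ^ i).natDegree ≤ (F.coeff i).natDegree +
      i * G.natDegree := by
    refine natDegree_mul_le.trans ?_
    rw [natDegree_map_eq_of_injective hCi, natDegree_pow, hxd]
  have h4 := hdeg i hi
  have h5 : (F.natDegree - i) * G.natDegree + i * G.natDegree = F.natDegree * G.natDegree := by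
    rw [← add_mul, Nat.sub_add_cancel hi.le]
  exact_mod_cast lt_of_le_of_lt h3 (by omega)

end sub

section fin

variable {k : Type} [Field k]

/-- Only finitely many `v` give a divisor of a given polynomial. -/
theorem fin_dvd [CharZero k] {F : k[X][X]} (hF : F.Monic) (hn : 0 < F.natDegree) {D : k[X]}
    (hD : D ≠ 0) (G : k[X]) :
    {v : ℤ | eG F (G + C ((v : ℤ) : k)) ∣ D ∧ 0 < (eG F (G + C ((v : ℤ) : k))).natDegree}.Finite := by
  let Om := AlgebraicClosure k
  haveI : CharZero Om := charZero_of_injective_algebraMap (algebraMap k Om).injective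
  let ev : Om → (k[X] →+* Om) := fun τ => eval₂RingHom (algebraMap k Om) τ
  let r : Om → Om[X] := fun τ => (F.map (ev τ)).comp (X + C (ev τ G))
  have hr : ∀ τ, r τ ≠ 0 := by
    intro τ
    have h1 : (F.map (ev τ)).Monic := hF.map _
    exact (h1.comp_X_add_C _).ne_zero
  have hfin : (⋃ τ ∈ (D.map (algebraMap k Om)).roots.toFinset,
      {v : ℤ | (r τ).IsRoot ((v : ℤ) : Om)}).Finite := by
    refine Set.Finite.biUnion (Finset.finite_toSet _) fun τ _ => ?_
    have h1 : {v : ℤ | (r τ).IsRoot ((v : ℤ) : Om)} = (fun v : ℤ => (v : Om)) ⁻¹' {x | (r τ).IsRoot x} := rfl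
    rw [h1]
    exact (Polynomial.finite_setOf_isRoot (hr τ)).preimage (Int.cast_injective.injOn)
  refine hfin.subset ?_
  rintro v ⟨hdvd, hpos⟩
  set e := eG F (G + C ((v : ℤ) : k)) with he
  obtain ⟨τ, hτ⟩ := IsAlgClosed.exists_aeval_eq_zero Om e (natDegree_pos_iff_degree_pos.1 hpos).ne'
  have hτD : τ ∈ (D.map (algebraMap k Om)).roots.toFinset := by
    rw [Multiset.mem_toFinset, mem_roots ((Polynomial.map_ne_zero_iff (algebraMap k Om).injective).2 hD),
      IsRoot, eval_map]
    obtain ⟨q, hq⟩ := hdvd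
    rw [hq, eval₂_mul]
    have h1 : eval₂ (algebraMap k Om) τ e = 0 := hτ
    rw [h1, zero_mul]
  refine Set.mem_biUnion hτD ?_
  show (r τ).IsRoot _
  have h1 : ev τ e = 0 := hτ
  rw [he, eG, ← coe_evalRingHom, coe_evalRingHom, ← eval₂_at_apply (ev τ), ← eval_map] at h1
  rw [IsRoot, eval_comp, eval_add, eval_X, eval_C, add_comm]
  rw [map_add] at h1
  have h2 : ev τ (C ((v : ℤ) : k)) = ((v : ℤ) : Om) := by
    show eval₂ (algebraMap k Om) τ (C ((v : ℤ) : k)) = _
    rw [eval₂_C, map_intCast]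
  rw [h2] at h1
  exact h1

theorem ud_union_fin {ι : Type} [Fintype ι] [Nonempty ι] {S T : Set (ι → ℤ)}
    (h : ∀ ε : ℝ, 0 < ε → UD ε S) (hT : T.Finite) {ε : ℝ} (hε : 0 < ε) : UD ε (S ∪ T) := by
  obtain ⟨H₀, hH₀⟩ := h (ε / 2) (by positivity)
  obtain ⟨N, hN⟩ := exists_nat_gt ((T.ncard : ℝ) / (ε / 2))
  refine ⟨max H₀ N, fun H hH => ?_⟩
  have h1 := hH₀ H ((le_max_left _ _).trans hH)
  have h2 : (({v | v ∈ S ∪ T ∧ ∀ i, |v i| ≤ (H : ℤ)} : Set (ι → ℤ)).ncard : ℝ) ≤
      (({v | v ∈ S ∧ ∀ i, |v i| ≤ (H : ℤ)} : Set (ι → ℤ)).ncard : ℝ) + (T.ncard : ℝ) := by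
    have h3 : ({v | v ∈ S ∪ T ∧ ∀ i, |v i| ≤ (H : ℤ)} : Set (ι → ℤ)) ⊆
        {v | v ∈ S ∧ ∀ i, |v i| ≤ (H : ℤ)} ∪ T := by
      rintro v ⟨hv | hv, hv2⟩
      · exact Or.inl ⟨hv, hv2⟩
      · exact Or.inr hv
    have hfin : ({v | v ∈ S ∧ ∀ i, |v i| ≤ (H : ℤ)} : Set (ι → ℤ)).Finite := by
      refine (Set.Finite.pi' (t := fun _ : ι => Set.Icc (-(H : ℤ)) H) fun _ => Set.finite_Icc _ _).subset ?_
      rintro v ⟨-, hv⟩ i
      exact ⟨(abs_le.1 (hv i)).1, (abs_le.1 (hv i)).2⟩
    have h4 := Set.ncard_le_ncard h3 (hfin.union hT)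
    have h5 := Set.ncard_union_le ({v | v ∈ S ∧ ∀ i, |v i| ≤ (H : ℤ)} : Set (ι → ℤ)) T
    exact_mod_cast h4.trans h5
  have h6 : (T.ncard : ℝ) ≤ (ε / 2) * (2 * H + 1 : ℝ) ^ Fintype.card ι := by
    have h7 : (T.ncard : ℝ) ≤ (ε / 2) * N := by
      rw [div_lt_iff₀ (by positivity)] at hN
      linarith
    have h8 : (N : ℝ) ≤ H := by exact_mod_cast (le_max_right _ _).trans hH
    have h9 : (2 * H + 1 : ℝ) ≤ (2 * H + 1 : ℝ) ^ Fintype.card ι := by
      have h10 : (1 : ℝ) ≤ 2 * H + 1 := by
        have : (0 : ℝ) ≤ H := Nat.cast_nonneg H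
        linarith
      exact le_self_pow₀ h10 Fintype.card_pos.ne'
    have h11 : (0 : ℝ) ≤ H := Nat.cast_nonneg H
    calc (T.ncard : ℝ) ≤ (ε / 2) * N := h7
      _ ≤ (ε / 2) * (2 * H + 1 : ℝ) ^ Fintype.card ι := by
        refine mul_le_mul_of_nonneg_left ?_ (by positivity)
        linarith
  calc _ ≤ _ := h2
    _ ≤ (ε / 2) * (2 * H + 1 : ℝ) ^ Fintype.card ι + (ε / 2) * (2 * H + 1 : ℝ) ^ Fintype.card ι :=
        add_le_add h1 h6
    _ = _ := by ring

end fin

section disc

variable {k : Type} [Field k] {F : k[X][X]} {G : k[X]}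

/-- The place is unramified. -/
theorem unr_of_discr (hF : F.Monic) (hn : 0 < F.natDegree) {e : k[X]} (he : Irreducible e)
    (hd : ¬ e ∣ F.discr) : IsCoprime (AdjoinRoot.of F e) (AdjoinRoot.mk F (derivative F)) := by
  obtain ⟨p, q, -, -, hpq⟩ := exists_mul_add_mul_eq_C_resultant F (derivative F)
    (m := F.natDegree) (n := F.natDegree - 1) le_rfl (natDegree_derivative_le F) (Or.inl hn.ne')
  rw [resultant_deriv (natDegree_pos_iff_degree_pos.1 hn), hF.leadingCoeff, mul_one] at hpq
  have h1 : IsCoprime e F.discr := (he.coprime_iff_not_dvd).2 hd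
  obtain ⟨a, b, hab⟩ := h1
  have h2 := congrArg (AdjoinRoot.of F) hab
  rw [map_add, map_mul, map_mul, map_one] at h2
  have h3 := congrArg (AdjoinRoot.mk F) hpq
  rw [map_add, map_mul, map_mul, AdjoinRoot.mk_self, zero_mul, zero_add, AdjoinRoot.mk_C, map_mul] at h3
  set s : k[X] := (-1) ^ (F.natDegree * (F.natDegree - 1) / 2) with hs
  have hss : s * s = 1 := by
    rw [hs, ← pow_add, ← two_mul, pow_mul, neg_one_sq, one_pow]
  have hss' := congrArg (AdjoinRoot.of F) hss
  rw [map_mul, map_one] at hss'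
  refine ⟨AdjoinRoot.of F a, AdjoinRoot.of F b * AdjoinRoot.of F s * AdjoinRoot.mk F q, ?_⟩
  linear_combination h2 + (AdjoinRoot.of F b * AdjoinRoot.of F s) * h3 +
    (AdjoinRoot.of F b * AdjoinRoot.of F F.discr) * hss'

/-- The discriminant is not zero. -/
theorem discr_ne [CharZero k] (hF : F.Monic) (hirr : Irreducible F) (hn : 0 < F.natDegree) :
    F.discr ≠ 0 := by
  intro h0
  let K := FractionRing k[X]
  have hder : derivative F ≠ 0 := by
    intro h1
    have h2 := natDegree_eq_zero_of_derivative_eq_zero h1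
    omega
  have hsep : (fF F K).Separable := sep_fF (IsFractionRing.injective k[X] K)
    (irr_base hF hirr inferInstance) hder
  have h1 : resultant F (derivative F) F.natDegree (F.natDegree - 1) = 0 := by
    rw [resultant_deriv (natDegree_pos_iff_degree_pos.1 hn), h0, mul_zero]
  have h2 : resultant (fF F K) (derivative (fF F K)) F.natDegree (F.natDegree - 1) = 0 := by
    unfold fF
    rw [derivative_map, resultant_map_map, h1, map_zero]
  have hm : (fF F K).Monic := hF.map _
  have hd1 : (fF F K).natDegree = F.natDegree := hF.natDegree_map _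
  haveI : CharZero K := charZero_of_injective_algebraMap (algebraMap k[X] K |>.comp C).injective
  have hd2 : (derivative (fF F K)).natDegree = F.natDegree - 1 := by
    rw [natDegree_derivative, hd1]
  have h3 := (isUnit_resultant_iff_isCoprime hm).2 hsep
  rw [hd1, hd2, h2] at h3
  exact not_isUnit_zero h3

end disc

section ud

variable {k : Type} [Field k] [NumberField k] {F : k[X][X]}

/-- The value of `F` at the section has the degree of the section times the degree of `F`. -/
theorem eG_deg (hF : F.Monic) (hn : 0 < F.natDegree) {G : k[X]}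
    (hdeg : ∀ i < F.natDegree, (F.coeff i).natDegree < (F.natDegree - i) * G.natDegree) (v : Unit → ℤ) :
    0 < (eG F (G + C ((v () : ℤ) : k))).natDegree := by
  have hd0 : 0 < G.natDegree := by
    have h1 := hdeg 0 hn
    by_contra h0
    have h2 : G.natDegree = 0 := by omega
    rw [h2, mul_zero] at h1
    omega
  set x := G + C ((v () : ℤ) : k) with hx
  have hxd : x.natDegree = G.natDegree := natDegree_add_C
  have hx0 : x ≠ 0 := by
    intro h0
    rw [h0, natDegree_zero] at hxd
    omega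
  have h1 : eG F x = ∑ i ∈ Finset.range F.natDegree, F.coeff i * x ^ i + x ^ F.natDegree := by
    rw [eG, eval_eq_sum_range, Finset.sum_range_succ, hF.coeff_natDegree, one_mul]
  have h2 : (∑ i ∈ Finset.range F.natDegree, F.coeff i * x ^ i).degree < (x ^ F.natDegree).degree := by
    have h2 : (x ^ F.natDegree).degree = ((F.natDegree * G.natDegree : ℕ) : WithBot ℕ) := by
      rw [degree_eq_natDegree (pow_ne_zero _ hx0), natDegree_pow, hxd]
    rw [h2]
    refine (degree_sum_le _ _).trans_lt ?_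
    rw [Finset.sup_lt_iff (WithBot.bot_lt_coe _)]
    intro i hi
    rw [Finset.mem_range] at hi
    refine lt_of_le_of_lt degree_le_natDegree ?_
    have h3 : (F.coeff i * x ^ i).natDegree ≤ (F.coeff i).natDegree + i * G.natDegree := by
      refine natDegree_mul_le.trans ?_
      rw [natDegree_pow, hxd]
    have h4 := hdeg i hi
    have h5 : (F.natDegree - i) * G.natDegree + i * G.natDegree = F.natDegree * G.natDegree := by
      rw [← add_mul, Nat.sub_add_cancel hi.le]
    exact_mod_cast lt_of_le_of_lt h3 (by omega)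
  rw [h1, natDegree_add_eq_right_of_degree_lt h2, natDegree_pow, hxd]
  exact Nat.mul_pos hn hd0

/-- The conditions hold for almost all `v`. -/
theorem ud_good (hF : F.Monic) (hirr : Irreducible F) (hn : 0 < F.natDegree) {G : k[X]}
    (hdeg : ∀ i < F.natDegree, (F.coeff i).natDegree < (F.natDegree - i) * G.natDegree)
    {ε : ℝ} (hε : 0 < ε) :
    UD ε {v : Unit → ℤ | ¬ (Irreducible (eG F (G + C ((v () : ℤ) : k))) ∧
      ¬ eG F (G + C ((v () : ℤ) : k)) ∣ F.discr)} := by
  have hd0 : 0 < G.natDegree := by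
    have h1 := hdeg 0 hn
    by_contra h0
    have h2 : G.natDegree = 0 := by omega
    rw [h2, mul_zero] at h1
    omega
  have hl0 : G.leadingCoeff ≠ 0 := by
    intro h0
    rw [leadingCoeff_eq_zero] at h0
    rw [h0, natDegree_zero] at hd0
    exact lt_irrefl _ hd0
  set u : k := (G.leadingCoeff ^ F.natDegree)⁻¹ with hu
  have hu0 : u ≠ 0 := inv_ne_zero (pow_ne_zero _ hl0)
  set Φ : (MvPolynomial Unit k)[X] := C (MvPolynomial.C u) * Phi F G with hΦ
  have hΦm : Φ.Monic := by
    unfold Monic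
    rw [hΦ, leadingCoeff_mul, leadingCoeff_C, phi_lead hF hn hdeg, ← map_mul, hu,
      inv_mul_cancel₀ (pow_ne_zero _ hl0), map_one]
  have hun : IsUnit (C (MvPolynomial.C u) : (MvPolynomial Unit k)[X]) :=
    ((isUnit_iff_ne_zero.2 hu0).map MvPolynomial.C).map C
  have hΦi : Irreducible Φ := (irreducible_isUnit_mul hun).2 (phi_irr hirr G)
  have hfin : {v : Unit → ℤ | eG F (G + C ((v () : ℤ) : k)) ∣ F.discr ∧
      0 < (eG F (G + C ((v () : ℤ) : k))).natDegree}.Finite := by
    have h1 := (fin_dvd hF hn (discr_ne hF hirr hn) G).preimage (f := fun v : Unit → ℤ => v ())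
      (fun a _ b _ h => funext fun _ => h)
    exact h1
  refine Pool.Agent.Y706.UD_mono ?_ (ud_union_fin (S := {v : Unit → ℤ |
    ¬ Irreducible (Φ.map (spc k v))}) (fun ε hε => Pool.Agent.Q45.HI.ud_irr hΦm hΦi hε) hfin hε)
  intro v hv
  by_contra hcon
  rw [Set.mem_union, not_or] at hcon
  obtain ⟨h1, h2⟩ := hcon
  apply hv
  have h3 : Irreducible (Φ.map (spc k v)) := not_not.1 h1
  have hun2 : IsUnit (C (spc k v (MvPolynomial.C u)) : k[X]) := by
    refine IsUnit.map C ?_
    have h3 : spc k v (MvPolynomial.C u) = u := MvPolynomial.eval_C _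
    rw [h3]
    exact isUnit_iff_ne_zero.2 hu0
  rw [hΦ, Polynomial.map_mul, map_C, phi_spc, irreducible_isUnit_mul hun2] at h3
  exact ⟨h3, fun h4 => h2 ⟨h4, eG_deg hF hn hdeg v⟩⟩

end ud

end Pool.Agent.Q45.NE
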