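import Mathlib

/-!
# Primes over two given primes
-/

set_option autoImplicit false
set_option linter.all false

open Polynomial
open scoped Classical

namespace Pool.Agent.Q45.NE

/-- A common extension of two residue fields. -/
theorem exists_common {A R A' : Type} [CommRing A] [CommRing R] [CommRing A'] (f : A →+* R)
    (g : A →+* A') (hf : f.IsIntegral) (P : Ideal R) (hP : P.IsMaximal) (q : Ideal A')
    (hq : q.IsMaximal) (hPq : P.comap f = q.comap g) (hm : (P.comap f).IsMaximal) :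
    ∃ (Ω : Type) (_ : Field Ω) (φ : R →+* Ω) (ψ : A' →+* Ω), RingHom.ker φ = P ∧
      RingHom.ker ψ = q ∧ φ.comp f = ψ.comp g := by
  haveI := hP
  haveI := hq
  haveI := hm
  letI : Field (R ⧸ P) := Ideal.Quotient.field P
  letI : Field (A' ⧸ q) := Ideal.Quotient.field q
  letI : Field (A ⧸ P.comap f) := Ideal.Quotient.field (P.comap f)
  let Ω := AlgebraicClosure (A' ⧸ q)
  let f0 : A ⧸ P.comap f →+* R ⧸ P := Ideal.quotientMap P f le_rfl
  let g0 : A ⧸ P.comap f →+* A' ⧸ q := Ideal.quotientMap q g hPq.le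
  letI : Algebra (A ⧸ P.comap f) (R ⧸ P) := f0.toAlgebra
  letI : Algebra (A ⧸ P.comap f) Ω := ((algebraMap (A' ⧸ q) Ω).comp g0).toAlgebra
  haveI : Algebra.IsIntegral (A ⧸ P.comap f) (R ⧸ P) := by
    have h1 : f0.IsIntegral := by
      refine RingHom.IsIntegral.tower_top (Ideal.Quotient.mk (P.comap f)) f0 ?_
      have h2 : f0.comp (Ideal.Quotient.mk (P.comap f)) = (Ideal.Quotient.mk P).comp f := by
        apply RingHom.ext
        intro x
        rfl
      rw [h2]
      exact RingHom.IsIntegral.trans _ _ hf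
        (RingHom.isIntegral_of_surjective _ Ideal.Quotient.mk_surjective)
    exact ⟨h1⟩
  haveI : Algebra.IsAlgebraic (A ⧸ P.comap f) (R ⧸ P) := inferInstance
  let i : (R ⧸ P) →ₐ[A ⧸ P.comap f] Ω := IsAlgClosed.lift
  refine ⟨Ω, inferInstance, i.toRingHom.comp (Ideal.Quotient.mk P),
    (algebraMap (A' ⧸ q) Ω).comp (Ideal.Quotient.mk q), ?_, ?_, ?_⟩
  · ext x
    rw [RingHom.mem_ker, RingHom.comp_apply, ← Ideal.Quotient.eq_zero_iff_mem]
    exact map_eq_zero_iff i.toRingHom i.toRingHom.injective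
  · ext x
    rw [RingHom.mem_ker, RingHom.comp_apply, ← Ideal.Quotient.eq_zero_iff_mem]
    exact map_eq_zero_iff _ (algebraMap (A' ⧸ q) Ω).injective
  · ext x
    exact i.commutes (Ideal.Quotient.mk (P.comap f) x)

/-- A prime over two given primes. -/
theorem exists_both {A A' B : Type} [CommRing A] [CommRing A'] [CommRing B] [Algebra A A']
    [Algebra A' B] [IsDomain B] (F : A[X]) (hF : F.Monic) (ρ : AdjoinRoot F →+* B)
    (hcomp : ∀ a : A, ρ (AdjoinRoot.of F a) = algebraMap A' B (algebraMap A A' a))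
    (hinj : ∀ p : A'[X], aeval (ρ (AdjoinRoot.root F)) p = 0 → F.map (algebraMap A A') ∣ p)
    [Algebra.IsIntegral A' B] (P : Ideal (AdjoinRoot F)) (hP : P.IsMaximal) (q : Ideal A')
    (hq : q.IsMaximal) (hPq : P.comap (AdjoinRoot.of F) = q.comap (algebraMap A A'))
    (hm : (P.comap (AdjoinRoot.of F)).IsMaximal) :
    ∃ Q : Ideal B, Q.IsPrime ∧ Q.comap ρ = P ∧ Q.comap (algebraMap A' B) = q := by
  have hint : (AdjoinRoot.of F).IsIntegral := by
    haveI : Module.Finite A (AdjoinRoot F) := hF.finite_adjoinRoot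
    intro x
    exact (Algebra.IsIntegral.of_finite A (AdjoinRoot F)).isIntegral x
  obtain ⟨Ω, _, φ, ψ, hφ, hψ, hcom⟩ := exists_common (AdjoinRoot.of F) (algebraMap A A') hint P hP q hq
    hPq hm
  set F' := F.map (algebraMap A A') with hF'
  have e1 : F'.eval₂ (algebraMap A' B) (ρ (AdjoinRoot.root F)) = 0 := by
    rw [hF', eval₂_map]
    have h1 : (algebraMap A' B).comp (algebraMap A A') = ρ.comp (AdjoinRoot.of F) :=
      RingHom.ext fun a => (hcomp a).symm
    rw [h1, ← hom_eval₂, AdjoinRoot.eval₂_root, map_zero]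
  have e2 : F'.eval₂ ψ (φ (AdjoinRoot.root F)) = 0 := by
    rw [hF', eval₂_map, ← hcom, ← hom_eval₂, AdjoinRoot.eval₂_root, map_zero]
  let b : AdjoinRoot F' →+* B := AdjoinRoot.lift (algebraMap A' B) (ρ (AdjoinRoot.root F)) e1
  let o : AdjoinRoot F' →+* Ω := AdjoinRoot.lift ψ (φ (AdjoinRoot.root F)) e2
  letI : Algebra (AdjoinRoot F') B := b.toAlgebra
  have hbi : Function.Injective (algebraMap (AdjoinRoot F') B) := by
    rw [injective_iff_map_eq_zero]
    intro x hx
    obtain ⟨p, rfl⟩ := AdjoinRoot.mk_surjective x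
    rw [AdjoinRoot.mk_eq_zero]
    refine hinj p ?_
    have h1 : b (AdjoinRoot.mk F' p) = 0 := hx
    rw [AdjoinRoot.lift_mk] at h1
    exact h1
  haveI : Algebra.IsIntegral (AdjoinRoot F') B := by
    have h1 : (b.comp (AdjoinRoot.of F')).IsIntegral := by
      have h2 : b.comp (AdjoinRoot.of F') = algebraMap A' B := by
        ext x
        exact AdjoinRoot.lift_of e1
      rw [h2]
      exact fun x => Algebra.IsIntegral.isIntegral (R := A') x
    exact ⟨RingHom.IsIntegral.tower_top _ _ h1⟩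
  haveI : (RingHom.ker o).IsPrime := RingHom.ker_isPrime o
  obtain ⟨Q, -, hQ, hQo⟩ := Ideal.exists_ideal_over_prime_of_isIntegral (RingHom.ker o)
    (⊥ : Ideal B) (by
      rw [← RingHom.ker_eq_comap_bot, (RingHom.injective_iff_ker_eq_bot _).1 hbi]
      exact bot_le)
  have hmem : ∀ x : AdjoinRoot F', b x ∈ Q ↔ o x = 0 := by
    intro x
    have h1 : x ∈ Q.comap (algebraMap (AdjoinRoot F') B) ↔ x ∈ RingHom.ker o := by rw [hQo]
    exact h1
  have e3 : F.eval₂ ((AdjoinRoot.of F').comp (algebraMap A A')) (AdjoinRoot.root F') = 0 := by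
    rw [← eval₂_map, ← hF', AdjoinRoot.eval₂_root]
  let τ : AdjoinRoot F →+* AdjoinRoot F' :=
    AdjoinRoot.lift ((AdjoinRoot.of F').comp (algebraMap A A')) (AdjoinRoot.root F') e3
  have hbτ : ∀ x, b (τ x) = ρ x := by
    intro x
    have h1 : b.comp τ = ρ := by
      refine AdjoinRoot.ringHom_ext ?_ ?_
      · ext a
        show b (τ (AdjoinRoot.of F a)) = ρ (AdjoinRoot.of F a)
        rw [AdjoinRoot.lift_of, hcomp]
        exact AdjoinRoot.lift_of e1
      · show b (τ (AdjoinRoot.root F)) = ρ (AdjoinRoot.root F)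
        rw [AdjoinRoot.lift_root]
        exact AdjoinRoot.lift_root e1
    rw [← h1]
    rfl
  have hoτ : ∀ x, o (τ x) = φ x := by
    intro x
    have h1 : o.comp τ = φ := by
      refine AdjoinRoot.ringHom_ext ?_ ?_
      · ext a
        show o (τ (AdjoinRoot.of F a)) = φ (AdjoinRoot.of F a)
        rw [AdjoinRoot.lift_of]
        have h2 : φ (AdjoinRoot.of F a) = ψ (algebraMap A A' a) := RingHom.congr_fun hcom a
        rw [h2]
        exact AdjoinRoot.lift_of e2
      · show o (τ (AdjoinRoot.root F)) = φ (AdjoinRoot.root F)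
        rw [AdjoinRoot.lift_root]
        exact AdjoinRoot.lift_root e2
    rw [← h1]
    rfl
  refine ⟨Q, hQ, ?_, ?_⟩
  · ext x
    rw [Ideal.mem_comap, ← hbτ, hmem, hoτ, ← RingHom.mem_ker, hφ]
  · ext x
    have h1 : b (AdjoinRoot.of F' x) = algebraMap A' B x := AdjoinRoot.lift_of e1
    have h2 : o (AdjoinRoot.of F' x) = ψ x := AdjoinRoot.lift_of e2
    rw [Ideal.mem_comap, ← h1, hmem, h2, ← RingHom.mem_ker, hψ]

end Pool.Agent.Q45.NE
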