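import Pool.Agent.Q45.NE.ParA
import Pool.Agent.Q45.GS.Crit

/-!
# The descent for the Jacobian of `y ^ ℓ = f(x)`: the curve `f = 0` is regular where `x` is not zero
-/

set_option autoImplicit false
set_option linter.all false

open Polynomial IsDedekindDomain WithZero
open scoped nonZeroDivisors Classical

namespace Pool.Agent.Q45.NE

open Pool.Agent.Y160 (FT.inj_all)
open Pool.Agent.Q45.GP (tor2 exists_emb)
open Pool.Agent.Y160.SQ
open Pool.Agent.TH115.GD (incl rs ak Sep Comp rs_mul lift_fix)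
open Pool.Agent.Y160.SE (IsPw)
open Pool.Agent.Y160.RK (ptCl dvI_cl jm_fix StInj jm_inj)
open Pool.Agent.Y160.SH (sha_of_tor ShaTriv)

/-- The polynomial `f` does not lie in the square of the ideal of a point with `x` different from zero. -/
def RegX {A : Type} [CommRing A] (f : A[X]) : Prop :=
  ∀ (B : Type) [CommRing B] [Algebra A B] (x : B) (I : Ideal B), I.IsPrime →
    f ∈ (I.comap (aeval (R := A) x).toRingHom) ^ 2 → x ∈ I

section crit

variable {p m ℓ : ℕ} {A K N R : Type} [CommRing A] [IsDedekindDomain A] [Field K] [Algebra A K]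
  [IsFractionRing A K] [Field N] [Algebra K N]
  [CommRing R] [IsDedekindDomain R] [Algebra R N] [IsFractionRing R N] [Algebra A R]
  [Algebra.IsIntegral A R] [Algebra A N] [IsScalarTower A K N]
  [IsScalarTower A R N] [Module.IsTorsionFree A R]

/-- The Kummer generator of a locally trivial class killed by `1 - σ`. -/
theorem gen_val [Algebra N (Sep K)] [IsScalarTower K N (Sep K)] (hp : p.Prime) (hpm : ℓ = p ^ m)
    (H : Hyps) {f : A[X]} {ζ : K}
    (hg : Good ℓ ζ (f.map (algebraMap A K))) (hfm : f.Monic) (hS : RegX f)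
    (hirrK : Irreducible (f.map (algebraMap A K)))
    {θ₀ : R} {θ : N} (hθ₀ : algebraMap R N θ₀ = θ) (hθ : aeval θ (f.map (algebraMap A K)) = 0)
    (hNtop : IntermediateField.adjoin K {θ} = ⊤)
    (c : (Sep K ≃ₐ[K] Sep K) → Jac ℓ (f.map (algebraMap A K)) (Sep K)) (hc : IsCoc ℓ _ c)
    (hct : ∀ σ, Tor hg (c σ))
    (hcv : ∀ v : HeightOneSpectrum A, LocTriv ℓ (f.map (algebraMap A K)) (Comp A K v)
      (Sep (Comp A K v)) c) :
    ∃ (t : Sep K) (z : N), t ≠ 0 ∧ z ≠ 0 ∧ t ^ ℓ = algebraMap N (Sep K) z ∧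
      (∀ τ : Sep K ≃ₐ[K] Sep K, τ (algebraMap N (Sep K) θ) = algebraMap N (Sep K) θ →
        τ t = chi hg (algebraMap N (Sep K) θ) (c τ) * t) ∧
      (∀ v : HeightOneSpectrum R, θ₀ ∉ v.asIdeal → IsPw ℓ (v.valuation N z)) ∧
      ∃ y : K, Algebra.norm K z = y ^ ℓ := by
  haveI : Algebra.IsSeparable K (Sep K) := IsSepClosure.separable
  haveI : IsGalois K (Sep K) := inferInstance
  have haR : Rt (f.map (algebraMap A K)) (algebraMap N (Sep K) θ) := by
    have h1 : aeval (algebraMap N (Sep K) θ) (f.map (algebraMap A K)) = 0 := by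
      rw [aeval_algebraMap_apply, hθ, map_zero]
    exact h1
  obtain ⟨t, z, ht, hz, hk⟩ := kummerN H hg haR rfl hNtop hc.lc hc.mul hct
  have hz0 : z ≠ 0 := by
    rintro rfl
    rw [map_zero] at hz
    exact pow_ne_zero ℓ ht hz
  refine ⟨t, z, ht, hz0, hz, hk, fun v hv => ?_, ?_⟩
  · exact parA hp hpm H hg hfm rfl haR hc hct hcv ht hz hk θ₀ hθ₀ v
      (fun h => hv (hS R θ₀ v.asIdeal v.isPrime h))
  exact Pool.Agent.Y474.SH.stShaN ℓ K N (Sep K) _ ζ hg H hirrK _ θ haR rfl hNtop c hc.mul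
    hct t z ht hz hk

/-- The criterion with a fixed embedding of `N` in the separable closure. -/
theorem shaN [Algebra N (Sep K)] [IsScalarTower K N (Sep K)] (hp : p.Prime) (hpm : ℓ = p ^ m)
    (H : Hyps) {f : A[X]} {ζ : K}
    (hg : Good ℓ ζ (f.map (algebraMap A K))) (hfm : f.Monic) (hS : RegX f)
    (hirrK : Irreducible (f.map (algebraMap A K)))
    {θ₀ : R} {θ : N} (hθ₀ : algebraMap R N θ₀ = θ) (hθ : aeval θ (f.map (algebraMap A K)) = 0)
    (hNtop : IntermediateField.adjoin K {θ} = ⊤) (PP : Set (K[X] × K[X]))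
    (hPP : ∀ P ∈ PP, Irreducible P.1 ∧ P.1.Monic ∧ ¬ P.1 ∣ f.map (algebraMap A K) ∧
      P.1 ∣ f.map (algebraMap A K) - P.2 ^ ℓ)
    (hpts : ∀ z : N, z ≠ 0 →
      (∀ v : HeightOneSpectrum R, θ₀ ∉ v.asIdeal → IsPw ℓ (v.valuation N z)) →
      (∃ y : K, Algebra.norm K z = y ^ ℓ) →
      ∃ (u : K) (g : N) (S : Multiset (K[X] × K[X])), u ≠ 0 ∧ g ≠ 0 ∧ (∀ P ∈ S, P ∈ PP) ∧
        z = algebraMap K N u * g ^ ℓ * aeval θ (dvP S)) :
    ShaTriv p ℓ A (f.map (algebraMap A K)) := by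
  haveI : Algebra.IsSeparable K (Sep K) := IsSepClosure.separable
  haveI : IsGalois K (Sep K) := inferInstance
  refine sha_of_tor H hg hp hpm fun c hc hct hcv => ?_
  obtain ⟨t, z, ht, hz0, hz, hk, hev, hno⟩ := gen_val (R := R) hp hpm H hg hfm hS hirrK hθ₀ hθ hNtop c hc
    hct hcv
  obtain ⟨u, g0, S, hu, hg0, hSp, hze⟩ := hpts z hz0 hev hno
  have haR : Rt (f.map (algebraMap A K)) (algebraMap N (Sep K) θ) := by
    have h1 : aeval (algebraMap N (Sep K) θ) (f.map (algebraMap A K)) = 0 := by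
      rw [aeval_algebraMap_apply, hθ, map_zero]
    exact h1
  obtain ⟨m', R0, R', -, -, h⟩ := tor2 H hg hirrK haR rfl hNtop hc.mul hct ht hz hk hz0
    hu hg0 (fun P hP => hPP P (hSp P hP)) hze
  exact ⟨R0 + R', h⟩

/-- The generation of `J(K)` with a fixed embedding of `N` in the separable closure. -/
theorem genN [Algebra N (Sep K)] [IsScalarTower K N (Sep K)] (hp : p.Prime) (hpm : ℓ = p ^ m)
    (H : Hyps) (hInj : StInj) {f : A[X]} {ζ : K}
    (hg : Good ℓ ζ (f.map (algebraMap A K))) (hfm : f.Monic) (hS : RegX f)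
    (hirrK : Irreducible (f.map (algebraMap A K)))
    {θ₀ : R} {θ : N} (hθ₀ : algebraMap R N θ₀ = θ) (hθ : aeval θ (f.map (algebraMap A K)) = 0)
    (hNtop : IntermediateField.adjoin K {θ} = ⊤) (PP : Set (K[X] × K[X]))
    (hPP : ∀ P ∈ PP, Irreducible P.1 ∧ P.1.Monic ∧ ¬ P.1 ∣ f.map (algebraMap A K) ∧
      P.1 ∣ f.map (algebraMap A K) - P.2 ^ ℓ)
    (hpts : ∀ z : N, z ≠ 0 →
      (∀ v : HeightOneSpectrum R, θ₀ ∉ v.asIdeal → IsPw ℓ (v.valuation N z)) →
      (∃ y : K, Algebra.norm K z = y ^ ℓ) →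
      ∃ (u : K) (g : N) (S : Multiset (K[X] × K[X])), u ≠ 0 ∧ g ≠ 0 ∧ (∀ P ∈ S, P ∈ PP) ∧
        z = algebraMap K N u * g ^ ℓ * aeval θ (dvP S))
    (x : Jac ℓ (f.map (algebraMap A K)) K) :
    ∃ (T : Multiset (K[X] × K[X])) (y : Jac ℓ (f.map (algebraMap A K)) K), (∀ P ∈ T, P ∈ PP) ∧
      x = (T.map (ptCl ℓ (f.map (algebraMap A K)))).sum + pe hg K (1 - X) y := by
  haveI : Algebra.IsSeparable K (Sep K) := IsSepClosure.separable
  haveI : IsGalois K (Sep K) := inferInstance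
  obtain ⟨r, hr⟩ := lam_surj H hg (jm ℓ (f.map (algebraMap A K)) (incl K K (Sep K)) x)
  have hct : ∀ σ : Sep K ≃ₐ[K] Sep K, Tor hg (jm ℓ (f.map (algebraMap A K)) (rs K σ) r - r) := by
    intro σ
    unfold Tor
    rw [map_sub, ← jm_pe, hr, jm_fix H hg, sub_self]
  have hcv : ∀ v : HeightOneSpectrum A, LocTriv ℓ (f.map (algebraMap A K)) (Comp A K v)
      (Sep (Comp A K v)) (fun σ : Sep K ≃ₐ[K] Sep K =>
        jm ℓ (f.map (algebraMap A K)) (rs K σ) r - r) := by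
    intro v
    let ι : Sep K →ₐ[K] Sep (Comp A K v) := IsSepClosed.lift
    refine ⟨ι, jm ℓ _ (ι.restrictScalars K) r, fun τ σ hτσ => ?_⟩
    have h5 : (ι.restrictScalars K).comp (rs K σ) = (rs K τ).comp (ι.restrictScalars K) :=
      AlgHom.ext fun x => (hτσ x).symm
    rw [map_sub, jm_jm, h5, ← jm_jm]
  obtain ⟨t, z, ht, hz0, hz, hk, hev, hno⟩ := gen_val (R := R) hp hpm H hg hfm hS hirrK hθ₀ hθ hNtop _
    (cob_isCoc H hg r) hct hcv
  obtain ⟨u, g0, S, hu, hg0, hSp0, hze0⟩ := hpts z hz0 hev hno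
  have haR : Rt (f.map (algebraMap A K)) (algebraMap N (Sep K) θ) := by
    have h1 : aeval (algebraMap N (Sep K) θ) (f.map (algebraMap A K)) = 0 := by
      rw [aeval_algebraMap_apply, hθ, map_zero]
    exact h1
  obtain ⟨m', R0, R', hR0, hR', hP⟩ := tor2 H hg hirrK haR rfl hNtop
    (cob_isCoc (F := K) H hg r).mul hct ht hz hk hz0 hu hg0
    (fun P hP => hPP P (hSp0 P hP)) hze0
  -- the fixed class
  obtain ⟨y, hy⟩ := fixed_class (K := K) (E := K) (Ω := Sep K) H hg (r - (R0 + R')) (fun τ => by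
      have h1 := hP τ
      have e2 : jm ℓ (f.map (algebraMap A K)) (ak τ) (R0 + R') =
        jm ℓ (f.map (algebraMap A K)) (rs K τ) (R0 + R') := rfl
      rw [e2] at h1
      rw [map_sub, sub_eq_sub_iff_sub_eq_sub]
      exact h1)
  refine ⟨m' • S, y, fun P hP => hSp0 P (Multiset.mem_of_mem_nsmul hP), ?_⟩
  rw [← sub_eq_zero]
  refine jm_inj H hg hInj (Sep K) ?_
  have h1 := congrArg (pe hg (Sep K) (1 - X)) hy
  have h2 : pe hg (Sep K) (1 - X) R' = 0 := hR'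
  rw [map_sub (pe hg (Sep K) (1 - X)), map_add (pe hg (Sep K) (1 - X)), h2, add_zero, hR0, ← jm_pe,
    hr] at h1
  rw [map_sub, map_add, h1]
  abel

/-- **The criterion for the Tate-Shafarevich group and the Mordell-Weil group.** -/
theorem main (hp : p.Prime) (hpm : ℓ = p ^ m) {f : A[X]} {ζ : K}
    (hg : Good ℓ ζ (f.map (algebraMap A K))) (hfm : f.Monic) (hS : RegX f)
    (hirrK : Irreducible (f.map (algebraMap A K)))
    {θ₀ : R} {θ : N} (hθ₀ : algebraMap R N θ₀ = θ) (hθ : aeval θ (f.map (algebraMap A K)) = 0)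
    (hNtop : IntermediateField.adjoin K {θ} = ⊤) (PP : Set (K[X] × K[X]))
    (hPP : ∀ P ∈ PP, Irreducible P.1 ∧ P.1.Monic ∧ ¬ P.1 ∣ f.map (algebraMap A K) ∧
      P.1 ∣ f.map (algebraMap A K) - P.2 ^ ℓ)
    (hpts : ∀ z : N, z ≠ 0 →
      (∀ v : HeightOneSpectrum R, θ₀ ∉ v.asIdeal → IsPw ℓ (v.valuation N z)) →
      (∃ y : K, Algebra.norm K z = y ^ ℓ) →
      ∃ (u : K) (g : N) (S : Multiset (K[X] × K[X])), u ≠ 0 ∧ g ≠ 0 ∧ (∀ P ∈ S, P ∈ PP) ∧
        z = algebraMap K N u * g ^ ℓ * aeval θ (dvP S)) :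
    ShaTriv p ℓ A (f.map (algebraMap A K)) ∧
    ∀ x : Jac ℓ (f.map (algebraMap A K)) K,
      ∃ (T : Multiset (K[X] × K[X])) (y : Jac ℓ (f.map (algebraMap A K)) K), (∀ P ∈ T, P ∈ PP) ∧
        x = (T.map (ptCl ℓ (f.map (algebraMap A K)))).sum + pe hg K (1 - X) y := by
  obtain ⟨i⟩ := exists_emb hg hθ hNtop
  letI : Algebra N (Sep K) := i.toRingHom.toAlgebra
  haveI : IsScalarTower K N (Sep K) := IsScalarTower.of_algebraMap_eq fun x => (i.commutes x).symm
  exact ⟨shaN (R := R) hp hpm hyps hg hfm hS hirrK hθ₀ hθ hNtop PP hPP hpts,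
    genN (R := R) hp hpm hyps Pool.Agent.Y160.FT.inj_all hg hfm hS hirrK hθ₀ hθ hNtop PP hPP hpts⟩

end crit

end Pool.Agent.Q45.NE
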