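import Pool.Agent.Q45.NE.ParB
import Pool.Agent.Q45.NE.Crit

/-!
# The descent with one condition at the points where `x` is zero
-/

set_option autoImplicit false
set_option linter.all false

open Polynomial IsDedekindDomain WithZero
open scoped nonZeroDivisors Classical

namespace Pool.Agent.Q45.NE

open Pool.Agent.Y160 (FT.inj_all)
open Pool.Agent.Q45.GP (tor2 exists_emb)
open Pool.Agent.Y160.SQ
open Pool.Agent.TH115.GD (incl rs ak Sep Comp rs_mul lift_fix)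
open Pool.Agent.Y160.SE (IsPw)
open Pool.Agent.Y160.RK (ptCl dvI_cl jm_fix StInj jm_inj)
open Pool.Agent.Y160.SH (sha_of_tor ShaTriv)

/-- The condition on the valuations. -/
def Ev {R N : Type} [CommRing R] [IsDedekindDomain R] [Field N] [Algebra R N] [IsFractionRing R N]
    (θ₀ : R) (z : N) : Prop :=
  (∀ v : HeightOneSpectrum R, θ₀ ∉ v.asIdeal → IsPw 2 (v.valuation N z)) ∧
    ∃ i : ℕ, ∀ v : HeightOneSpectrum R, θ₀ ∈ v.asIdeal →
      IsPw 2 (v.valuation N (z * algebraMap R N θ₀ ^ i))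

theorem under_eq {A R : Type} [CommRing A] [IsDedekindDomain A] [CommRing R] [IsDedekindDomain R]
    [Algebra A R] [Algebra.IsIntegral A R] [Module.IsTorsionFree A R] {e : A} {θ₀ W₀ : R}
    (hmul : θ₀ * W₀ = algebraMap A R e) {v : HeightOneSpectrum A} (hv : v.asIdeal = Ideal.span {e})
    (P : HeightOneSpectrum R) (hP : θ₀ ∈ P.asIdeal) : P.under A = v := by
  apply HeightOneSpectrum.ext
  have h1 : v.asIdeal ≤ (P.under A).asIdeal := by
    rw [hv, Ideal.span_singleton_le_iff_mem]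
    show algebraMap A R e ∈ P.asIdeal
    rw [← hmul]
    exact P.asIdeal.mul_mem_right _ hP
  exact (v.isMaximal.eq_of_le (P.under A).isPrime.ne_top h1).symm

theorem not_mem_cop {R : Type} [CommRing R] {θ₀ W₀ : R} (h : IsCoprime θ₀ W₀) {P : Ideal R}
    (hP : P.IsPrime) (hθ : θ₀ ∈ P) : W₀ ∉ P := by
  intro hW
  obtain ⟨a, b, hab⟩ := h
  refine hP.ne_top ((Ideal.eq_top_iff_one P).2 ?_)
  rw [← hab]
  exact P.add_mem (P.mul_mem_left _ hθ) (P.mul_mem_left _ hW)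

section crit

variable {A K N R : Type} [CommRing A] [IsDedekindDomain A] [Field K] [Algebra A K]
  [IsFractionRing A K] [Field N] [Algebra K N]
  [CommRing R] [IsDedekindDomain R] [Algebra R N] [IsFractionRing R N] [Algebra A R]
  [Algebra.IsIntegral A R] [Algebra A N] [IsScalarTower A K N]
  [IsScalarTower A R N] [Module.IsTorsionFree A R]

/-- The Kummer generator of a locally trivial class killed by `2`. -/
theorem gen_valB [Algebra N (Sep K)] [IsScalarTower K N (Sep K)]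
    (H : Hyps) {F₀ : A[X]} {G₀ : A} {ζ : K} (hF₀ : F₀.Monic) (hodd : Odd F₀.natDegree)
    (he : eG F₀ G₀ ≠ 0)
    (hg : Good 2 ζ ((model F₀ G₀).map (algebraMap A K))) (hS : RegX (model F₀ G₀))
    (hreg : RegW F₀ G₀)
    (hirrK : Irreducible ((model F₀ G₀).map (algebraMap A K)))
    {θ₀ W₀ : R} {θ : N} (hθ₀ : algebraMap R N θ₀ = θ)
    (hθ : aeval θ ((model F₀ G₀).map (algebraMap A K)) = 0)
    (hNtop : IntermediateField.adjoin K {θ} = ⊤)
    (hxW : θ₀ * W₀ = algebraMap A R (eG F₀ G₀)) (hroot : aeval (algebraMap A R G₀ + W₀) F₀ = 0)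
    (v0 : HeightOneSpectrum A) (hsp : v0.asIdeal = Ideal.span {eG F₀ G₀})
    (hv : v0.valuation K (algebraMap A K (eG F₀ G₀)) = exp (-1 : ℤ)) (hcop : IsCoprime θ₀ W₀)
    (c : (Sep K ≃ₐ[K] Sep K) → Jac 2 ((model F₀ G₀).map (algebraMap A K)) (Sep K))
    (hc : IsCoc 2 _ c)
    (hct : ∀ σ, Tor hg (c σ))
    (hcv : ∀ v : HeightOneSpectrum A, LocTriv 2 ((model F₀ G₀).map (algebraMap A K)) (Comp A K v)
      (Sep (Comp A K v)) c) :
    ∃ (t : Sep K) (z : N), t ≠ 0 ∧ z ≠ 0 ∧ t ^ 2 = algebraMap N (Sep K) z ∧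
      (∀ τ : Sep K ≃ₐ[K] Sep K, τ (algebraMap N (Sep K) θ) = algebraMap N (Sep K) θ →
        τ t = chi hg (algebraMap N (Sep K) θ) (c τ) * t) ∧
      Ev θ₀ z ∧
      ∃ y : K, Algebra.norm K z = y ^ 2 := by
  haveI : Algebra.IsSeparable K (Sep K) := IsSepClosure.separable
  haveI : IsGalois K (Sep K) := inferInstance
  have haR : Rt ((model F₀ G₀).map (algebraMap A K)) (algebraMap N (Sep K) θ) := by
    have h1 : aeval (algebraMap N (Sep K) θ) ((model F₀ G₀).map (algebraMap A K)) = 0 := by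
      rw [aeval_algebraMap_apply, hθ, map_zero]
    exact h1
  obtain ⟨t, z, ht, hz, hk⟩ := kummerN H hg haR rfl hNtop hc.lc hc.mul hct
  have hz0 : z ≠ 0 := by
    rintro rfl
    rw [map_zero] at hz
    exact pow_ne_zero 2 ht hz
  have hn : 0 < F₀.natDegree := hodd.pos
  refine ⟨t, z, ht, hz0, hz, hk, ⟨fun v hv => ?_, ?_⟩, ?_⟩
  · exact parA (p := 2) (m := 1) Nat.prime_two (by norm_num) H hg (model_monic F₀ G₀ hn) rfl haR hc
      hct hcv ht hz hk θ₀ hθ₀ v (fun h => hv (hS R θ₀ v.asIdeal v.isPrime h))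
  · obtain ⟨i, hi⟩ := parB (R := R) H hF₀ hodd he hg rfl haR hc hct v0 (hcv v0) ht hz hk hθ₀ hxW
      hroot hv hreg
    refine ⟨i, fun v hv => ?_⟩
    rw [hθ₀]
    exact hi v (under_eq hxW hsp v hv) (not_mem_cop hcop v.isPrime hv)
  exact Pool.Agent.Y474.SH.stShaN 2 K N (Sep K) _ ζ hg H hirrK _ θ haR rfl hNtop c hc.mul
    hct t z ht hz hk

/-- The criterion with a fixed embedding of `N` in the separable closure. -/
theorem shaB [Algebra N (Sep K)] [IsScalarTower K N (Sep K)]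
    (H : Hyps) {F₀ : A[X]} {G₀ : A} {ζ : K} (hF₀ : F₀.Monic) (hodd : Odd F₀.natDegree)
    (he : eG F₀ G₀ ≠ 0)
    (hg : Good 2 ζ ((model F₀ G₀).map (algebraMap A K))) (hS : RegX (model F₀ G₀))
    (hreg : RegW F₀ G₀)
    (hirrK : Irreducible ((model F₀ G₀).map (algebraMap A K)))
    {θ₀ W₀ : R} {θ : N} (hθ₀ : algebraMap R N θ₀ = θ)
    (hθ : aeval θ ((model F₀ G₀).map (algebraMap A K)) = 0)
    (hNtop : IntermediateField.adjoin K {θ} = ⊤)
    (hxW : θ₀ * W₀ = algebraMap A R (eG F₀ G₀)) (hroot : aeval (algebraMap A R G₀ + W₀) F₀ = 0)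
    (v0 : HeightOneSpectrum A) (hsp : v0.asIdeal = Ideal.span {eG F₀ G₀})
    (hv : v0.valuation K (algebraMap A K (eG F₀ G₀)) = exp (-1 : ℤ)) (hcop : IsCoprime θ₀ W₀)
    (PP : Set (K[X] × K[X]))
    (hPP : ∀ P ∈ PP, Irreducible P.1 ∧ P.1.Monic ∧ ¬ P.1 ∣ (model F₀ G₀).map (algebraMap A K) ∧
      P.1 ∣ (model F₀ G₀).map (algebraMap A K) - P.2 ^ 2)
    (hpts : ∀ z : N, z ≠ 0 → Ev θ₀ z → (∃ y : K, Algebra.norm K z = y ^ 2) →
      ∃ (u : K) (g : N) (S : Multiset (K[X] × K[X])), u ≠ 0 ∧ g ≠ 0 ∧ (∀ P ∈ S, P ∈ PP) ∧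
        z = algebraMap K N u * g ^ 2 * aeval θ (dvP S)) :
    ShaTriv 2 2 A ((model F₀ G₀).map (algebraMap A K)) := by
  haveI : Algebra.IsSeparable K (Sep K) := IsSepClosure.separable
  haveI : IsGalois K (Sep K) := inferInstance
  refine sha_of_tor (p := 2) (m := 1) H hg Nat.prime_two (by norm_num) fun c hc hct hcv => ?_
  obtain ⟨t, z, ht, hz0, hz, hk, hev, hno⟩ := gen_valB (R := R) H hF₀ hodd he hg hS hreg hirrK hθ₀
    hθ hNtop hxW hroot v0 hsp hv hcop c hc hct hcv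
  obtain ⟨u, g0, S, hu, hg0, hSp, hze⟩ := hpts z hz0 hev hno
  have haR : Rt ((model F₀ G₀).map (algebraMap A K)) (algebraMap N (Sep K) θ) := by
    have h1 : aeval (algebraMap N (Sep K) θ) ((model F₀ G₀).map (algebraMap A K)) = 0 := by
      rw [aeval_algebraMap_apply, hθ, map_zero]
    exact h1
  obtain ⟨m', R0, R', -, -, h⟩ := tor2 H hg hirrK haR rfl hNtop hc.mul hct ht hz hk hz0
    hu hg0 (fun P hP => hPP P (hSp P hP)) hze
  exact ⟨R0 + R', h⟩

/-- The generation of `J(K)` with a fixed embedding of `N` in the separable closure. -/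
theorem genB [Algebra N (Sep K)] [IsScalarTower K N (Sep K)]
    (H : Hyps) (hInj : StInj) {F₀ : A[X]} {G₀ : A} {ζ : K} (hF₀ : F₀.Monic)
    (hodd : Odd F₀.natDegree) (he : eG F₀ G₀ ≠ 0)
    (hg : Good 2 ζ ((model F₀ G₀).map (algebraMap A K))) (hS : RegX (model F₀ G₀))
    (hreg : RegW F₀ G₀)
    (hirrK : Irreducible ((model F₀ G₀).map (algebraMap A K)))
    {θ₀ W₀ : R} {θ : N} (hθ₀ : algebraMap R N θ₀ = θ)
    (hθ : aeval θ ((model F₀ G₀).map (algebraMap A K)) = 0)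
    (hNtop : IntermediateField.adjoin K {θ} = ⊤)
    (hxW : θ₀ * W₀ = algebraMap A R (eG F₀ G₀)) (hroot : aeval (algebraMap A R G₀ + W₀) F₀ = 0)
    (v0 : HeightOneSpectrum A) (hsp : v0.asIdeal = Ideal.span {eG F₀ G₀})
    (hv : v0.valuation K (algebraMap A K (eG F₀ G₀)) = exp (-1 : ℤ)) (hcop : IsCoprime θ₀ W₀)
    (PP : Set (K[X] × K[X]))
    (hPP : ∀ P ∈ PP, Irreducible P.1 ∧ P.1.Monic ∧ ¬ P.1 ∣ (model F₀ G₀).map (algebraMap A K) ∧
      P.1 ∣ (model F₀ G₀).map (algebraMap A K) - P.2 ^ 2)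
    (hpts : ∀ z : N, z ≠ 0 → Ev θ₀ z → (∃ y : K, Algebra.norm K z = y ^ 2) →
      ∃ (u : K) (g : N) (S : Multiset (K[X] × K[X])), u ≠ 0 ∧ g ≠ 0 ∧ (∀ P ∈ S, P ∈ PP) ∧
        z = algebraMap K N u * g ^ 2 * aeval θ (dvP S))
    (x : Jac 2 ((model F₀ G₀).map (algebraMap A K)) K) :
    ∃ (T : Multiset (K[X] × K[X])) (y : Jac 2 ((model F₀ G₀).map (algebraMap A K)) K),
      (∀ P ∈ T, P ∈ PP) ∧
      x = (T.map (ptCl 2 ((model F₀ G₀).map (algebraMap A K)))).sum + pe hg K (1 - X) y := by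
  haveI : Algebra.IsSeparable K (Sep K) := IsSepClosure.separable
  haveI : IsGalois K (Sep K) := inferInstance
  obtain ⟨r, hr⟩ := lam_surj H hg (jm 2 ((model F₀ G₀).map (algebraMap A K)) (incl K K (Sep K)) x)
  have hct : ∀ σ : Sep K ≃ₐ[K] Sep K, Tor hg (jm 2 ((model F₀ G₀).map (algebraMap A K)) (rs K σ) r - r) := by
    intro σ
    unfold Tor
    rw [map_sub, ← jm_pe, hr, jm_fix H hg, sub_self]
  have hcv : ∀ v : HeightOneSpectrum A, LocTriv 2 ((model F₀ G₀).map (algebraMap A K)) (Comp A K v)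
      (Sep (Comp A K v)) (fun σ : Sep K ≃ₐ[K] Sep K =>
        jm 2 ((model F₀ G₀).map (algebraMap A K)) (rs K σ) r - r) := by
    intro v
    let ι : Sep K →ₐ[K] Sep (Comp A K v) := IsSepClosed.lift
    refine ⟨ι, jm 2 _ (ι.restrictScalars K) r, fun τ σ hτσ => ?_⟩
    have h5 : (ι.restrictScalars K).comp (rs K σ) = (rs K τ).comp (ι.restrictScalars K) :=
      AlgHom.ext fun x => (hτσ x).symm
    rw [map_sub, jm_jm, h5, ← jm_jm]
  obtain ⟨t, z, ht, hz0, hz, hk, hev, hno⟩ := gen_valB (R := R) H hF₀ hodd he hg hS hreg hirrK hθ₀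
    hθ hNtop hxW hroot v0 hsp hv hcop _ (cob_isCoc H hg r) hct hcv
  obtain ⟨u, g0, S, hu, hg0, hSp0, hze0⟩ := hpts z hz0 hev hno
  have haR : Rt ((model F₀ G₀).map (algebraMap A K)) (algebraMap N (Sep K) θ) := by
    have h1 : aeval (algebraMap N (Sep K) θ) ((model F₀ G₀).map (algebraMap A K)) = 0 := by
      rw [aeval_algebraMap_apply, hθ, map_zero]
    exact h1
  obtain ⟨m', R0, R', hR0, hR', hP⟩ := tor2 H hg hirrK haR rfl hNtop
    (cob_isCoc (F := K) H hg r).mul hct ht hz hk hz0 hu hg0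
    (fun P hP => hPP P (hSp0 P hP)) hze0
  -- the fixed class
  obtain ⟨y, hy⟩ := fixed_class (K := K) (E := K) (Ω := Sep K) H hg (r - (R0 + R')) (fun τ => by
      have h1 := hP τ
      have e2 : jm 2 ((model F₀ G₀).map (algebraMap A K)) (ak τ) (R0 + R') = jm 2 ((model F₀ G₀).map (algebraMap A K)) (rs K τ) (R0 + R') := rfl
      rw [e2] at h1
      rw [map_sub, sub_eq_sub_iff_sub_eq_sub]
      exact h1)
  refine ⟨m' • S, y, fun P hP => hSp0 P (Multiset.mem_of_mem_nsmul hP), ?_⟩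
  rw [← sub_eq_zero]
  refine jm_inj H hg hInj (Sep K) ?_
  have h1 := congrArg (pe hg (Sep K) (1 - X)) hy
  have h2 : pe hg (Sep K) (1 - X) R' = 0 := hR'
  rw [map_sub (pe hg (Sep K) (1 - X)), map_add (pe hg (Sep K) (1 - X)), h2, add_zero, hR0, ← jm_pe,
    hr] at h1
  rw [map_sub, map_add, h1]
  abel

/-- **The criterion for the Tate-Shafarevich group and the Mordell-Weil group.** -/
theorem mainB {F₀ : A[X]} {G₀ : A} {ζ : K} (hF₀ : F₀.Monic) (hodd : Odd F₀.natDegree)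
    (he : eG F₀ G₀ ≠ 0)
    (hg : Good 2 ζ ((model F₀ G₀).map (algebraMap A K))) (hS : RegX (model F₀ G₀))
    (hreg : RegW F₀ G₀)
    (hirrK : Irreducible ((model F₀ G₀).map (algebraMap A K)))
    {θ₀ W₀ : R} {θ : N} (hθ₀ : algebraMap R N θ₀ = θ)
    (hθ : aeval θ ((model F₀ G₀).map (algebraMap A K)) = 0)
    (hNtop : IntermediateField.adjoin K {θ} = ⊤)
    (hxW : θ₀ * W₀ = algebraMap A R (eG F₀ G₀)) (hroot : aeval (algebraMap A R G₀ + W₀) F₀ = 0)
    (v0 : HeightOneSpectrum A) (hsp : v0.asIdeal = Ideal.span {eG F₀ G₀})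
    (hv : v0.valuation K (algebraMap A K (eG F₀ G₀)) = exp (-1 : ℤ)) (hcop : IsCoprime θ₀ W₀)
    (PP : Set (K[X] × K[X]))
    (hPP : ∀ P ∈ PP, Irreducible P.1 ∧ P.1.Monic ∧ ¬ P.1 ∣ (model F₀ G₀).map (algebraMap A K) ∧
      P.1 ∣ (model F₀ G₀).map (algebraMap A K) - P.2 ^ 2)
    (hpts : ∀ z : N, z ≠ 0 → Ev θ₀ z → (∃ y : K, Algebra.norm K z = y ^ 2) →
      ∃ (u : K) (g : N) (S : Multiset (K[X] × K[X])), u ≠ 0 ∧ g ≠ 0 ∧ (∀ P ∈ S, P ∈ PP) ∧
        z = algebraMap K N u * g ^ 2 * aeval θ (dvP S)) :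
    ShaTriv 2 2 A ((model F₀ G₀).map (algebraMap A K)) ∧
    ∀ x : Jac 2 ((model F₀ G₀).map (algebraMap A K)) K,
      ∃ (T : Multiset (K[X] × K[X])) (y : Jac 2 ((model F₀ G₀).map (algebraMap A K)) K),
        (∀ P ∈ T, P ∈ PP) ∧
        x = (T.map (ptCl 2 ((model F₀ G₀).map (algebraMap A K)))).sum + pe hg K (1 - X) y := by
  obtain ⟨i⟩ := exists_emb hg hθ hNtop
  letI : Algebra N (Sep K) := i.toRingHom.toAlgebra
  haveI : IsScalarTower K N (Sep K) := IsScalarTower.of_algebraMap_eq fun x => (i.commutes x).symm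
  exact ⟨shaB (R := R) hyps hF₀ hodd he hg hS hreg hirrK hθ₀ hθ hNtop hxW hroot v0 hsp hv hcop PP
      hPP hpts,
    genB (R := R) hyps Pool.Agent.Y160.FT.inj_all hF₀ hodd he hg hS hreg hirrK hθ₀ hθ hNtop hxW
      hroot v0 hsp hv hcop PP hPP hpts⟩

end crit

end Pool.Agent.Q45.NE
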