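import Pool.Agent.Q45.NE.CritB
import Pool.Agent.Q45.NE.ParBT
import Pool.Agent.Q45.NE.Both
import Pool.Agent.Q45.NE.CritT

/-!
# The criterion for the Tate conjecture with one condition at the points where `x` is zero
-/

set_option autoImplicit false
set_option linter.all false

open Polynomial IsDedekindDomain WithZero
open scoped nonZeroDivisors Classical

namespace Pool.Agent.Q45.NE

open Pool.Agent.Y160.SQ
open Pool.Agent.TH115.GD (incl rs ak Sep Comp rs_mul lift_fix Preserves exists_over val_unram
  normal_const)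
open Pool.Agent.Y160.SE (IsPw)
open Pool.Agent.Y160.RK (ptCl)
open Pool.Agent.Q45.GP (tor2 TateOver tate_of_first sep_const preserves_const)

section tate

variable (k : Type) {k' K F A A' N : Type} [Field k] [Field k'] [Algebra k k']
  [IsGalois k k']
  [Field K] [Algebra k K] [Field F] [Algebra k' F] [Algebra k F] [IsScalarTower k k' F]
  [Algebra K F] [IsScalarTower k K F]
  [CommRing A] [IsDedekindDomain A] [Algebra A K] [CommRing A'] [IsDedekindDomain A'] [Algebra A' F]
  [IsFractionRing A' F] [Algebra k' A'] [IsScalarTower k' A' F] [Algebra A A']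
  [Algebra.IsIntegral A A'] [Field N] [Algebra K N] {F₁ : A[X]} {G₁ : A}
  [IsDedekindDomain (AdjoinRoot F₁)]
  [Algebra (AdjoinRoot F₁) N] [IsFractionRing (AdjoinRoot F₁) N]
  [Algebra.IsIntegral A (AdjoinRoot F₁)] [Module.IsTorsionFree A (AdjoinRoot F₁)]

include k

theorem tateNB [Algebra N (Sep F)] [IsScalarTower K N (Sep F)]
    (H : Hyps) (hF : IntermediateField.adjoin K (Set.range (algebraMap k' F)) = ⊤)
    (hAF : ∀ a : A, algebraMap K F (algebraMap A K a) = algebraMap A' F (algebraMap A A' a))
    (hAN : ∀ a : A, algebraMap K N (algebraMap A K a) =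
      algebraMap (AdjoinRoot F₁) N (algebraMap A (AdjoinRoot F₁) a))
    (hF₁ : F₁.Monic) (hodd : Odd F₁.natDegree)
    {f1 : K[X]} (hfA : (model (F₁.map (algebraMap A A')) (algebraMap A A' G₁)).map
      (algebraMap A' F) = f1.map (algebraMap K F)) {ζ : K}
    (hg : Good 2 ζ f1) (hS : RegX (model (F₁.map (algebraMap A A')) (algebraMap A A' G₁)))
    (hreg : RegW (F₁.map (algebraMap A A')) (algebraMap A A' G₁)) (hirrK : Irreducible f1)
    (hirr : Irreducible (f1.map (algebraMap K F)))
    (hirrF : Irreducible ((F₁.map (algebraMap A A')).map (algebraMap A' F)))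
    {θ₀ : AdjoinRoot F₁} {θ : N}
    (hθ₀ : algebraMap (AdjoinRoot F₁) N θ₀ = θ) (hθ : aeval θ f1 = 0)
    (hNtop : IntermediateField.adjoin K {θ} = ⊤)
    (hxW : θ₀ * (AdjoinRoot.root F₁ - AdjoinRoot.of F₁ G₁) = AdjoinRoot.of F₁ (eG F₁ G₁))
    (v0 : HeightOneSpectrum A) (hsp : v0.asIdeal = Ideal.span {eG F₁ G₁})
    (v' : HeightOneSpectrum A') (hev' : algebraMap A A' (eG F₁ G₁) ∈ v'.asIdeal)
    (hv' : v'.valuation F (algebraMap A' F (algebraMap A A' (eG F₁ G₁))) = exp (-1 : ℤ))
    (hcop : IsCoprime θ₀ (AdjoinRoot.root F₁ - AdjoinRoot.of F₁ G₁))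
    (PP : Set (K[X] × K[X]))
    (hPP : ∀ P ∈ PP, Irreducible P.1 ∧ P.1.Monic ∧ ¬ P.1 ∣ f1 ∧ P.1 ∣ f1 - P.2 ^ 2)
    (hpts : ∀ z : N, z ≠ 0 → Ev θ₀ z → (∃ y : K, Algebra.norm K z = y ^ 2) →
      ∃ (u : K) (g : N) (S : Multiset (K[X] × K[X])), u ≠ 0 ∧ g ≠ 0 ∧ (∀ P ∈ S, P ∈ PP) ∧
        z = algebraMap K N u * g ^ 2 * aeval θ (dvP S)) :
    TateOver (F := F) 2 2 A' f1 := by
  haveI : Algebra.IsSeparable K F := sep_const k hF
  haveI : Algebra.IsSeparable F (Sep F) := IsSepClosure.separable
  haveI : Algebra.IsSeparable K (Sep F) := Algebra.IsSeparable.trans K F (Sep F)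
  haveI : IsSepClosed (Sep F) := IsSepClosure.sep_closed F
  haveI : IsSepClosure K (Sep F) := ⟨inferInstance, inferInstance⟩
  haveI : IsGalois K (Sep F) := inferInstance
  have hpres : Preserves K F (Sep F) := preserves_const k (Sep F) hF
  set a : Sep F := algebraMap N (Sep F) θ with ha
  have haR : Rt f1 a := by
    have h1 : aeval a f1 = 0 := by
      rw [ha, aeval_algebraMap_apply, hθ, map_zero]
    exact h1
  have hKN : ∀ x : K, algebraMap N (Sep F) (algebraMap K N x) =
      algebraMap F (Sep F) (algebraMap K F x) := fun x => by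
    rw [← IsScalarTower.algebraMap_apply K N (Sep F), ← IsScalarTower.algebraMap_apply K F (Sep F)]
  -- the field `M`
  let S : IntermediateField F (Sep F) := IntermediateField.adjoin F {a}
  haveI : FiniteDimensional F S := IntermediateField.adjoin.finiteDimensional
    (Algebra.IsIntegral.isIntegral (R := F) a)
  haveI : Algebra.IsSeparable F S := inferInstance
  have hmem : ∀ x : N, algebraMap N (Sep F) x ∈ S := by
    intro x
    have hx : x ∈ (⊤ : IntermediateField K N) := trivial
    rw [← hNtop] at hx
    refine IntermediateField.adjoin_induction K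
      (p := fun x _ => algebraMap N (Sep F) x ∈ S) ?_ ?_ ?_ ?_ ?_ hx
    · intro y hy
      rw [Set.mem_singleton_iff] at hy
      subst hy
      exact IntermediateField.mem_adjoin_simple_self F a
    · intro y
      rw [hKN]
      exact S.algebraMap_mem _
    · intro x y _ _ hx hy
      rw [map_add]; exact add_mem hx hy
    · intro x _ hx
      rw [map_inv₀]; exact inv_mem hx
    · intro x y _ _ hx hy
      rw [map_mul]; exact mul_mem hx hy
  let M : Type := S
  letI : Algebra N M := ((algebraMap N (Sep F)).codRestrict S hmem).toAlgebra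
  haveI : IsScalarTower N M (Sep F) := IsScalarTower.of_algebraMap_eq fun x => rfl
  haveI : IsScalarTower K F M := IsScalarTower.of_algebraMap_eq fun x => Subtype.ext
    (IsScalarTower.algebraMap_apply K F (Sep F) x)
  letI : Algebra k N := ((algebraMap K N).comp (algebraMap k K)).toAlgebra
  letI : Algebra k' M := ((algebraMap F M).comp (algebraMap k' F)).toAlgebra
  letI : Algebra k M := ((algebraMap k' M).comp (algebraMap k k')).toAlgebra
  haveI : IsScalarTower k k' M := IsScalarTower.of_algebraMap_eq fun x => rfl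
  haveI : IsScalarTower k N M := IsScalarTower.of_algebraMap_eq fun x => by
    apply Subtype.ext
    show algebraMap F (Sep F) (algebraMap k' F (algebraMap k k' x)) =
      algebraMap N (Sep F) (algebraMap K N (algebraMap k K x))
    rw [hKN, ← IsScalarTower.algebraMap_apply k k' F, ← IsScalarTower.algebraMap_apply k K F]
  letI : Algebra A' M := ((algebraMap F M).comp (algebraMap A' F)).toAlgebra
  haveI : IsScalarTower A' F M := IsScalarTower.of_algebraMap_eq fun x => rfl
  -- the ring `R`
  haveI : FiniteDimensional K N := by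
    have hint : IsIntegral K θ := by
      have h1 : IsIntegral K a := Algebra.IsIntegral.isIntegral a
      exact (isIntegral_algebraMap_iff (algebraMap N (Sep F)).injective).1 h1
    haveI := IntermediateField.adjoin.finiteDimensional hint
    rw [hNtop] at this
    exact (IntermediateField.topEquiv (F := K) (E := N)).toLinearEquiv.finiteDimensional
  haveI : Algebra.IsSeparable K N := Algebra.isSeparable_tower_bot_of_isSeparable K N (Sep F)
  haveI : IsDedekindDomain (integralClosure A' M) := integralClosure.isDedekindDomain A' F M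
  haveI : IsFractionRing (integralClosure A' M) M :=
    integralClosure.isFractionRing_of_finite_extension F M
  letI : Algebra (AdjoinRoot F₁) M := ((algebraMap N M).comp (algebraMap (AdjoinRoot F₁) N)).toAlgebra
  haveI : IsScalarTower (AdjoinRoot F₁) N M := IsScalarTower.of_algebraMap_eq fun x => rfl
  have hANM : ∀ x : A, algebraMap N M (algebraMap (AdjoinRoot F₁) N (algebraMap A (AdjoinRoot F₁) x)) =
      algebraMap A' M (algebraMap A A' x) := by
    intro x
    apply Subtype.ext
    show algebraMap N (Sep F) (algebraMap (AdjoinRoot F₁) N (algebraMap A (AdjoinRoot F₁) x)) =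
      algebraMap F (Sep F) (algebraMap A' F (algebraMap A A' x))
    rw [← hAN, hKN, hAF]
  have hRB : ∀ r : AdjoinRoot F₁, algebraMap N M (algebraMap (AdjoinRoot F₁) N r) ∈ integralClosure A' M := by
    intro r
    have h1 : IsIntegral A r := Algebra.IsIntegral.isIntegral r
    exact IsIntegral.map_of_comp_eq (algebraMap A A') ((algebraMap N M).comp (algebraMap (AdjoinRoot F₁) N))
      (RingHom.ext fun x => (hANM x).symm) h1
  letI : Algebra (AdjoinRoot F₁) (integralClosure A' M) :=
    (((algebraMap N M).comp (algebraMap (AdjoinRoot F₁) N)).codRestrict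
      (integralClosure A' M) hRB).toAlgebra
  haveI : IsScalarTower (AdjoinRoot F₁) (integralClosure A' M) M :=
    IsScalarTower.of_algebraMap_eq fun x => rfl
  letI : Algebra k' (integralClosure A' M) :=
    ((algebraMap A' (integralClosure A' M)).comp (algebraMap k' A')).toAlgebra
  haveI : IsScalarTower k' (integralClosure A' M) M :=
    IsScalarTower.of_algebraMap_eq fun x => by
      apply Subtype.ext
      show algebraMap F (Sep F) (algebraMap k' F x) =
        algebraMap F (Sep F) (algebraMap A' F (algebraMap k' A' x))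
      rw [← IsScalarTower.algebraMap_apply k' A' F]
  haveI : Algebra.IsIntegral (AdjoinRoot F₁) (integralClosure A' M) := by
    have h1 : (algebraMap A A').IsIntegral := fun x => Algebra.IsIntegral.isIntegral (R := A) x
    have h3 : (algebraMap A' (integralClosure A' M)).IsIntegral := fun x =>
      Algebra.IsIntegral.isIntegral (R := A') x
    have h4 := RingHom.IsIntegral.trans _ _ h1 h3
    have h5 : (algebraMap A' (integralClosure A' M)).comp (algebraMap A A') =
        (algebraMap (AdjoinRoot F₁) (integralClosure A' M)).comp (algebraMap A (AdjoinRoot F₁)) := by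
      apply RingHom.ext
      intro x
      apply Subtype.ext
      exact (hANM x).symm
    rw [h5] at h4
    exact ⟨RingHom.IsIntegral.tower_top _ _ h4⟩
  haveI : Module.IsTorsionFree (AdjoinRoot F₁) (integralClosure A' M) := by
    rw [Module.isTorsionFree_iff_algebraMap_injective]
    intro x y h
    have h1 := congrArg (algebraMap (integralClosure A' M) M) h
    rw [← IsScalarTower.algebraMap_apply (AdjoinRoot F₁) (integralClosure A' M) M,
      ← IsScalarTower.algebraMap_apply (AdjoinRoot F₁) (integralClosure A' M) M] at h1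
    exact IsFractionRing.injective (AdjoinRoot F₁) N ((algebraMap N M).injective h1)
  haveI : Module.IsTorsionFree A' (integralClosure A' M) := by
    rw [Module.isTorsionFree_iff_algebraMap_injective]
    intro x y h
    have h1 := congrArg (algebraMap (integralClosure A' M) M) h
    apply IsFractionRing.injective A' F
    exact (algebraMap F M).injective h1
  -- `M` is generated by the constants
  have htop : IntermediateField.adjoin N (Set.range (algebraMap k' M)) = ⊤ := by
    set T : IntermediateField N M := IntermediateField.adjoin N (Set.range (algebraMap k' M)) with hT'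
    have hFT : ∀ x : F, algebraMap F M x ∈ T := by
      intro x
      have hx : x ∈ IntermediateField.adjoin K (Set.range (algebraMap k' F)) := by
        rw [hF]; trivial
      refine IntermediateField.adjoin_induction K
        (p := fun x _ => algebraMap F M x ∈ T) ?_ ?_ ?_ ?_ ?_ hx
      · rintro _ ⟨c, rfl⟩
        exact IntermediateField.subset_adjoin N _ ⟨c, rfl⟩
      · intro y
        have h1 : algebraMap F M (algebraMap K F y) = algebraMap N M (algebraMap K N y) :=
          Subtype.ext (hKN y).symm
        rw [h1]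
        exact T.algebraMap_mem _
      · intro x y _ _ hx hy
        rw [map_add]; exact add_mem hx hy
      · intro x _ hx
        rw [map_inv₀]; exact inv_mem hx
      · intro x y _ _ hx hy
        rw [map_mul]; exact mul_mem hx hy
    rw [eq_top_iff]
    rintro ⟨x, hx⟩ -
    refine IntermediateField.adjoin_induction F
      (p := fun x hx => (⟨x, hx⟩ : M) ∈ T) ?_ ?_ ?_ ?_ ?_ hx
    · intro y hy
      rw [Set.mem_singleton_iff] at hy
      subst hy
      exact T.algebraMap_mem θ
    · intro y
      exact hFT y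
    · intro x y _ _ hx hy
      exact add_mem hx hy
    · intro x _ hx
      exact inv_mem hx
    · intro x y _ _ hx hy
      exact mul_mem hx hy
  -- the degree
  have hn1 : 0 < F₁.natDegree := hodd.pos
  have hn' : 0 < (F₁.map (algebraMap A A')).natDegree := by
    rw [hF₁.natDegree_map]
    exact hn1
  have hodd' : Odd (F₁.map (algebraMap A A')).natDegree := by
    rw [hF₁.natDegree_map]
    exact hodd
  have heG : eG (F₁.map (algebraMap A A')) (algebraMap A A' G₁) = algebraMap A A' (eG F₁ G₁) := by
    unfold eG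
    rw [eval_map]
    exact eval₂_at_apply (algebraMap A A') G₁
  have he' : eG (F₁.map (algebraMap A A')) (algebraMap A A' G₁) ≠ 0 := by
    rw [heG]
    intro h0
    rw [h0, map_zero, map_zero] at hv'
    exact exp_ne_zero hv'.symm
  have hABB0 : ∀ x : A, algebraMap (AdjoinRoot F₁) (integralClosure A' M) (AdjoinRoot.of F₁ x) =
      algebraMap A' (integralClosure A' M) (algebraMap A A' x) := fun x => Subtype.ext (hANM x)
  have hrootB : aeval (algebraMap (AdjoinRoot F₁) (integralClosure A' M) (AdjoinRoot.root F₁))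
      (F₁.map (algebraMap A A')) = 0 := by
    rw [aeval_def, eval₂_map]
    have h1 : (algebraMap A' (integralClosure A' M)).comp (algebraMap A A') =
        (algebraMap (AdjoinRoot F₁) (integralClosure A' M)).comp (AdjoinRoot.of F₁) :=
      RingHom.ext fun x => (hABB0 x).symm
    rw [h1, ← hom_eval₂, AdjoinRoot.eval₂_root, map_zero]
  have hrootM : aeval (algebraMap (integralClosure A' M) M
      (algebraMap (AdjoinRoot F₁) (integralClosure A' M) (AdjoinRoot.root F₁)))
      ((F₁.map (algebraMap A A')).map (algebraMap A' F)) = 0 := by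
    rw [aeval_map_algebraMap, aeval_algebraMap_apply, hrootB, map_zero]
  have hboth : ∀ v : HeightOneSpectrum (AdjoinRoot F₁), θ₀ ∈ v.asIdeal →
      ∃ w : HeightOneSpectrum (integralClosure A' M), w.under (AdjoinRoot F₁) = v ∧
        w.under A' = v' := by
    intro v hv
    have hA1 : v.under A = v0 := under_eq (R := AdjoinRoot F₁) hxW hsp v hv
    have hA2 : v'.asIdeal.comap (algebraMap A A') = v0.asIdeal := by
      have h1 : v0.asIdeal ≤ v'.asIdeal.comap (algebraMap A A') := by
        rw [hsp, Ideal.span_singleton_le_iff_mem]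
        exact hev'
      haveI := v'.isPrime
      exact (v0.isMaximal.eq_of_le (Ideal.IsPrime.comap _).ne_top h1).symm
    have hA1' : v.asIdeal.comap (AdjoinRoot.of F₁) = v0.asIdeal := congrArg HeightOneSpectrum.asIdeal hA1
    obtain ⟨Q, hQ, hQ1, hQ2⟩ := exists_both (B := integralClosure A' M) F₁ hF₁
      (algebraMap (AdjoinRoot F₁) (integralClosure A' M)) hABB0 (fun p hp => by
        refine (Polynomial.map_dvd_map (algebraMap A' F) (IsFractionRing.injective A' F)
          (hF₁.map _)).1 ?_
        have h1 : aeval (algebraMap (integralClosure A' M) M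
            (algebraMap (AdjoinRoot F₁) (integralClosure A' M) (AdjoinRoot.root F₁)))
            (p.map (algebraMap A' F)) = 0 := by
          rw [aeval_map_algebraMap, aeval_algebraMap_apply, hp, map_zero]
        have h2 := minpoly.eq_of_irreducible_of_monic hirrF hrootM ((hF₁.map _).map _)
        rw [h2]
        exact minpoly.dvd F _ h1) v.asIdeal v.isMaximal v'.asIdeal v'.isMaximal
      (by rw [hA1', hA2]) (by rw [hA1']; exact v0.isMaximal)
    have hQ0 : Q ≠ ⊥ := by
      rintro rfl
      apply v.ne_bot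
      rw [← hQ1, ← RingHom.ker_eq_comap_bot]
      exact (RingHom.injective_iff_ker_eq_bot _).1
        (FaithfulSMul.algebraMap_injective (AdjoinRoot F₁) (integralClosure A' M))
    exact ⟨⟨Q, hQ, hQ0⟩, HeightOneSpectrum.ext hQ1, HeightOneSpectrum.ext hQ2⟩
  -- the descent
  refine tate_of_first (p := 2) (m := 1) (B := A') H hg Nat.prime_two (by norm_num) fun e he => ?_
  let d : (Sep F ≃ₐ[F] Sep F) → Jac 2 f1 (Sep F) := fun σ => pe hg (Sep F) (uu 2) (e 1 σ)
  have hd : IsCoc 2 _ d := (he.tc.coc 1).pe hg _
  have hd2 : ∀ σ, Tor hg (d σ) := first_tor (p := 2) (m := 1) H hg (by norm_num) he.tc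
  have hdl : ∀ v : HeightOneSpectrum A', LocTriv 2 f1 (Comp A' F v) (Sep (Comp A' F v)) d :=
    fun v => (he.loc 1 v).pe hg _
  have hdi : InvOne hg d := first_inv (p := 2) (m := 1) H hg Nat.prime_two (by norm_num) hirr hpres he.tc he.inv
  obtain ⟨g, hgl, hmul, hg2, hgF⟩ := ext_coc H hg hirr hpres hd hd2 hdi
  obtain ⟨t, z, ht, hz, hk⟩ := kummerN H hg haR rfl hNtop hgl hmul hg2
  have hz0 : z ≠ 0 := by
    rintro rfl
    rw [map_zero] at hz
    exact pow_ne_zero 2 ht hz
  have hkF : ∀ σ : Sep F ≃ₐ[F] Sep F, σ a = a → σ t = chi hg a (d σ) * t := by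
    intro σ hσ
    have h1 := hk (σ.restrictScalars K) hσ
    rw [hgF] at h1
    exact h1
  have hθM : algebraMap M (Sep F) (algebraMap N M θ) = a := by
    rw [← IsScalarTower.algebraMap_apply N M (Sep F)]
  have hzM : t ^ 2 = algebraMap M (Sep F) (algebraMap N M z) := by
    rw [← IsScalarTower.algebraMap_apply N M (Sep F), hz]
  have hθB : algebraMap (integralClosure A' M) M
      (algebraMap (AdjoinRoot F₁) (integralClosure A' M) θ₀) = algebraMap N M θ := by
    rw [← IsScalarTower.algebraMap_apply (AdjoinRoot F₁) (integralClosure A' M) M,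
      IsScalarTower.algebraMap_apply (AdjoinRoot F₁) N M, hθ₀]
  have hABB : ∀ x : A, algebraMap (AdjoinRoot F₁) (integralClosure A' M) (AdjoinRoot.of F₁ x) =
      algebraMap A' (integralClosure A' M) (algebraMap A A' x) := fun x => Subtype.ext (hANM x)
  have hev : Ev θ₀ z := by
    refine ⟨fun v hv => ?_, ?_⟩
    · obtain ⟨w, rfl⟩ := exists_over (B := integralClosure A' M) v
      rw [← val_unram k (R := AdjoinRoot F₁) htop w]
      exact Pool.Agent.Q45.ND.parP (p := 2) (m := 1) Nat.prime_two (by norm_num) H hfA hg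
        (model_monic _ _ hn') hθM haR hd hd2 hdl ht hzM hkF
        (algebraMap (AdjoinRoot F₁) (integralClosure A' M) θ₀) hθB w
        (fun h => hv (hS (integralClosure A' M) _ w.asIdeal w.isPrime h))
    · obtain ⟨i, hi⟩ := parBT (B := integralClosure A' M) H hfA (hF₁.map _) hodd' he' hg hθM haR hd hd2
        v' (hdl v') ht hzM hkF hθB (W₀ := algebraMap (AdjoinRoot F₁) (integralClosure A' M)
          (AdjoinRoot.root F₁ - AdjoinRoot.of F₁ G₁)) (by
          rw [← map_mul, hxW, hABB, heG]) (by
          have h1 : algebraMap A' (integralClosure A' M) (algebraMap A A' G₁) +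
              algebraMap (AdjoinRoot F₁) (integralClosure A' M)
                (AdjoinRoot.root F₁ - AdjoinRoot.of F₁ G₁) =
              algebraMap (AdjoinRoot F₁) (integralClosure A' M) (AdjoinRoot.root F₁) := by
            rw [← hABB, ← map_add]
            congr 1
            ring
          rw [h1]
          exact hrootB) (by rw [heG]; exact hv') hreg
      refine ⟨i, fun v hv => ?_⟩
      obtain ⟨w, hw1, hw2⟩ := hboth v hv
      have h1 := hi w hw2 (fun h => by
        have h2 : (AdjoinRoot.root F₁ - AdjoinRoot.of F₁ G₁) ∈ (w.under (AdjoinRoot F₁)).asIdeal := h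
        rw [hw1] at h2
        exact not_mem_cop hcop v.isPrime hv h2)
      rw [← hw1, ← val_unram k (R := AdjoinRoot F₁) htop w, hθ₀, map_mul, map_pow]
      exact h1
  have hno := Pool.Agent.Y474.SH.stShaN 2 K N (Sep F) f1 ζ hg H hirrK a θ haR rfl hNtop g hmul
    hg2 t z ht hz hk
  obtain ⟨u, g0, S0, hu, hg0, hSp, hze⟩ := hpts z hz0 hev hno
  obtain ⟨m', R0, R', hR0, hR', hRR⟩ := tor2 H hg hirrK haR rfl hNtop hmul hg2 ht hz hk hz0 hu hg0
    (fun P hP => hPP P (hSp P hP)) hze
  refine ⟨((m' • S0).map (ptCl 2 f1)).sum, R0 + R', ?_, fun σ => ?_⟩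
  · have h1 : pe hg (Sep F) (1 - X) R' = 0 := hR'
    rw [map_add, hR0, h1, add_zero]
  · have h1 := hRR (σ.restrictScalars K)
    rw [hgF] at h1
    exact h1

/-- **The criterion** for the Tate conjecture. -/
theorem tateCB
    (hF : IntermediateField.adjoin K (Set.range (algebraMap k' F)) = ⊤)
    (hAF : ∀ a : A, algebraMap K F (algebraMap A K a) = algebraMap A' F (algebraMap A A' a))
    (hAN : ∀ a : A, algebraMap K N (algebraMap A K a) =
      algebraMap (AdjoinRoot F₁) N (algebraMap A (AdjoinRoot F₁) a))
    (hF₁ : F₁.Monic) (hodd : Odd F₁.natDegree)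
    {f1 : K[X]} (hfA : (model (F₁.map (algebraMap A A')) (algebraMap A A' G₁)).map
      (algebraMap A' F) = f1.map (algebraMap K F)) {ζ : K}
    (hg : Good 2 ζ f1) (hS : RegX (model (F₁.map (algebraMap A A')) (algebraMap A A' G₁)))
    (hreg : RegW (F₁.map (algebraMap A A')) (algebraMap A A' G₁)) (hirrK : Irreducible f1)
    (hirr : Irreducible (f1.map (algebraMap K F)))
    (hirrF : Irreducible ((F₁.map (algebraMap A A')).map (algebraMap A' F)))
    {θ₀ : AdjoinRoot F₁} {θ : N}
    (hθ₀ : algebraMap (AdjoinRoot F₁) N θ₀ = θ) (hθ : aeval θ f1 = 0)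
    (hNtop : IntermediateField.adjoin K {θ} = ⊤)
    (hxW : θ₀ * (AdjoinRoot.root F₁ - AdjoinRoot.of F₁ G₁) = AdjoinRoot.of F₁ (eG F₁ G₁))
    (v0 : HeightOneSpectrum A) (hsp : v0.asIdeal = Ideal.span {eG F₁ G₁})
    (v' : HeightOneSpectrum A') (hev' : algebraMap A A' (eG F₁ G₁) ∈ v'.asIdeal)
    (hv' : v'.valuation F (algebraMap A' F (algebraMap A A' (eG F₁ G₁))) = exp (-1 : ℤ))
    (hcop : IsCoprime θ₀ (AdjoinRoot.root F₁ - AdjoinRoot.of F₁ G₁))
    (PP : Set (K[X] × K[X]))
    (hPP : ∀ P ∈ PP, Irreducible P.1 ∧ P.1.Monic ∧ ¬ P.1 ∣ f1 ∧ P.1 ∣ f1 - P.2 ^ 2)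
    (hpts : ∀ z : N, z ≠ 0 → Ev θ₀ z → (∃ y : K, Algebra.norm K z = y ^ 2) →
      ∃ (u : K) (g : N) (S : Multiset (K[X] × K[X])), u ≠ 0 ∧ g ≠ 0 ∧ (∀ P ∈ S, P ∈ PP) ∧
        z = algebraMap K N u * g ^ 2 * aeval θ (dvP S)) :
    TateOver (F := F) 2 2 A' f1 := by
  haveI : Algebra.IsSeparable K F := sep_const k hF
  haveI : Algebra.IsSeparable F (Sep F) := IsSepClosure.separable
  haveI : Algebra.IsSeparable K (Sep F) := Algebra.IsSeparable.trans K F (Sep F)
  haveI : IsSepClosed (Sep F) := IsSepClosure.sep_closed F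
  have hs : IsSeparable K θ := hg.sep.of_dvd (minpoly.dvd K θ hθ)
  have f3 : Algebra.IsSeparable K (IntermediateField.adjoin K {θ}) :=
    (IntermediateField.isSeparable_adjoin_simple_iff_isSeparable K N).2 hs
  rw [hNtop] at f3
  haveI : Algebra.IsSeparable K N :=
    Algebra.IsSeparable.of_algHom K (⊤ : IntermediateField K N)
      (IntermediateField.topEquiv (F := K) (E := N)).symm.toAlgHom
  let i : N →ₐ[K] Sep F := IsSepClosed.lift
  letI : Algebra N (Sep F) := i.toRingHom.toAlgebra
  haveI : IsScalarTower K N (Sep F) := IsScalarTower.of_algebraMap_eq fun x => (i.commutes x).symm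
  exact tateNB k hyps hF hAF hAN hF₁ hodd hfA hg hS hreg hirrK hirr hirrF hθ₀ hθ hNtop hxW v0 hsp
    v' hev' hv' hcop PP hPP hpts

end tate

end Pool.Agent.Q45.NE
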