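import Pool.Agent.Q45.NE.Gal

/-!
# Doubly transitive polynomials over extensions of small degree
-/

set_option autoImplicit false
set_option linter.all false

open Polynomial
open scoped Classical

namespace Pool.Agent.Q45.NE

/-- Fisher's inequality. -/
theorem fisher {R Φ : Type} [Fintype R] [Fintype Φ] (I : R → Φ → Prop) {r l : ℕ} (hrl : l < r)
    (h1 : ∀ x, (Finset.univ.filter fun φ => I x φ).card = r)
    (h2 : ∀ x y, x ≠ y → (Finset.univ.filter fun φ => I x φ ∧ I y φ).card = l) :
    Fintype.card R ≤ Fintype.card Φ := by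
  let A : R → Φ → ℚ := fun x φ => if I x φ then 1 else 0
  have hin : ∀ x y, ∑ φ, A x φ * A y φ = if x = y then (r : ℚ) else l := by
    intro x y
    have h3 : ∀ φ, A x φ * A y φ = if I x φ ∧ I y φ then 1 else 0 := by
      intro φ
      by_cases hx : I x φ <;> by_cases hy : I y φ <;> simp [A, hx, hy]
    simp_rw [h3]
    rw [Finset.sum_boole]
    split_ifs with hxy
    · rw [hxy]
      simp_rw [and_self]
      rw [h1 y]
    · rw [h2 x y hxy]
  have hli : LinearIndependent ℚ A := by
    rw [Fintype.linearIndependent_iff]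
    intro c hc
    have h3 : ∑ φ, (∑ x, c x * A x φ) ^ 2 = 0 := by
      refine Finset.sum_eq_zero fun φ _ => ?_
      have h4 := congrFun hc φ
      rw [Finset.sum_apply] at h4
      have h5 : ∑ x, c x * A x φ = 0 := h4
      rw [h5]
      ring
    have h4 : ∑ φ, (∑ x, c x * A x φ) ^ 2 =
        ((r : ℚ) - l) * ∑ x, c x ^ 2 + l * (∑ x, c x) ^ 2 := by
      calc ∑ φ, (∑ x, c x * A x φ) ^ 2 = ∑ φ, ∑ x, ∑ y, (c x * A x φ) * (c y * A y φ) := by
            refine Finset.sum_congr rfl fun φ _ => ?_
            rw [sq, Finset.sum_mul_sum]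
        _ = ∑ x, ∑ y, c x * c y * ∑ φ, A x φ * A y φ := by
            rw [Finset.sum_comm]
            refine Finset.sum_congr rfl fun x _ => ?_
            rw [Finset.sum_comm]
            refine Finset.sum_congr rfl fun y _ => ?_
            rw [Finset.mul_sum]
            refine Finset.sum_congr rfl fun φ _ => ?_
            ring
        _ = ∑ x, ∑ y, ((l : ℚ) * (c x * c y) + if x = y then ((r : ℚ) - l) * (c x * c y) else 0) := by
            refine Finset.sum_congr rfl fun x _ => Finset.sum_congr rfl fun y _ => ?_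
            rw [hin]
            split_ifs
            · ring
            · ring
        _ = _ := by
            simp_rw [Finset.sum_add_distrib]
            rw [add_comm]
            congr 1
            · rw [Finset.mul_sum]
              refine Finset.sum_congr rfl fun x _ => ?_
              rw [Finset.sum_ite_eq Finset.univ x, if_pos (Finset.mem_univ x)]
              ring
            · rw [sq, Finset.sum_mul_sum, Finset.mul_sum]
              refine Finset.sum_congr rfl fun x _ => ?_
              rw [Finset.mul_sum]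
    rw [h3] at h4
    have h5 : (0 : ℚ) < (r : ℚ) - l := by
      rw [sub_pos]
      exact_mod_cast hrl
    have h6 : (0 : ℚ) ≤ l * (∑ x, c x) ^ 2 := by positivity
    have h7 : 0 ≤ ∑ x, c x ^ 2 := Finset.sum_nonneg fun x _ => sq_nonneg _
    have h8 : ∑ x, c x ^ 2 = 0 := by
      by_contra hne
      have h9 : 0 < ∑ x, c x ^ 2 := lt_of_le_of_ne h7 (Ne.symm hne)
      have h10 := mul_pos h5 h9
      linarith
    intro x
    have h9 := (Finset.sum_eq_zero_iff_of_nonneg (fun x _ => sq_nonneg (c x))).1 h8 x
      (Finset.mem_univ x)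
    exact pow_eq_zero_iff (two_ne_zero) |>.1 h9
  have h3 := hli.fintype_card_le_finrank
  rwa [Module.finrank_fintype_fun_eq_card] at h3

section field

variable {k : Type} [Field k] {p : k[X]}

/-- A doubly transitive polynomial is irreducible over all extensions of degree smaller than its
degree. -/
theorem small (hp : p.Monic) (hirr : Irreducible p) (hsep : p.Separable)
    (hdom : IsDomain (AdjoinRoot (quo p))) {E : Type} [Field E] [Algebra k E]
    [FiniteDimensional k E] (hE : Module.finrank k E < p.natDegree) :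
    Irreducible (p.map (algebraMap k E)) := by
  by_contra hcon
  let Om := AlgebraicClosure E
  haveI : Algebra.IsAlgebraic k E := inferInstance
  haveI : Algebra.IsAlgebraic k Om := Algebra.IsAlgebraic.trans k E Om
  haveI : Normal k Om := normal_iff.2 fun x => ⟨Algebra.IsIntegral.isIntegral x, IsAlgClosed.splits _⟩
  set f := p.map (algebraMap k E) with hf
  have hfm : f.Monic := hp.map _
  have hnd : f.natDegree = p.natDegree := hp.natDegree_map _
  have hpos : 0 < p.natDegree := hirr.natDegree_pos
  -- a proper factor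
  obtain ⟨q, hqm, hqf, hq0, hq1⟩ : ∃ q : E[X], q.Monic ∧ q ∣ f ∧ 0 < q.natDegree ∧
      q.natDegree < f.natDegree := by
    by_contra hno
    push Not at hno
    apply hcon
    refine (hfm.irreducible_iff_natDegree').2 ⟨?_, ?_⟩
    · intro h1
      rw [h1, natDegree_one] at hnd
      omega
    · intro g h hg hh hgh hmem
      rw [Finset.mem_Ioc] at hmem
      have h1 := hno h hh ⟨g, by rw [← hgh, mul_comm]⟩ hmem.1
      have h2 := hmem.2
      omega
  have hq_ne : q ≠ 0 := hqm.ne_zero
  -- the roots
  have hpO : p.map (algebraMap k Om) ≠ 0 :=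
    (Polynomial.map_ne_zero_iff (algebraMap k Om).injective).2 hp.ne_zero
  let R : Finset Om := (p.map (algebraMap k Om)).roots.toFinset
  have hR : ∀ x : Om, x ∈ R ↔ aeval x p = 0 := by
    intro x
    show x ∈ (p.map (algebraMap k Om)).roots.toFinset ↔ _
    rw [Multiset.mem_toFinset, mem_roots hpO, IsRoot, eval_map]
    rfl
  have hRcard : R.card = p.natDegree := by
    show (p.map (algebraMap k Om)).roots.toFinset.card = _
    rw [Multiset.toFinset_card_of_nodup (nodup_roots hsep.map),
      ← (IsAlgClosed.splits _).natDegree_eq_card_roots, natDegree_map]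
  haveI : Fintype (E →ₐ[k] Om) := Fintype.ofFinite _
  have hΦ : Fintype.card (E →ₐ[k] Om) ≤ Module.finrank k E := by
    rw [← Nat.card_eq_fintype_card]
    exact card_algHom_le_finrank k E Om
  let φ₀ : E →ₐ[k] Om := IsScalarTower.toAlgHom k E Om
  -- the incidence relation
  let I : R → (E →ₐ[k] Om) → Prop := fun x φ => eval₂ (φ : E →+* Om) (x : Om) q = 0
  obtain ⟨a, ha⟩ := IsAlgClosed.exists_aeval_eq_zero Om q (natDegree_pos_iff_degree_pos.1 hq0).ne'
  have haR : a ∈ R := by
    rw [hR]
    obtain ⟨r, hr⟩ := hqf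
    have h1 : aeval a f = 0 := by rw [hr, map_mul, ha, zero_mul]
    rw [hf, aeval_map_algebraMap] at h1
    exact h1
  have hqO : q.map (algebraMap E Om) ≠ 0 :=
    (Polynomial.map_ne_zero_iff (algebraMap E Om).injective).2 hq_ne
  obtain ⟨b, hbR, hb⟩ : ∃ b ∈ R, ¬ aeval b q = 0 := by
    by_contra hno
    push Not at hno
    have h1 : R ⊆ (q.map (algebraMap E Om)).roots.toFinset := by
      intro x hx
      rw [Multiset.mem_toFinset, mem_roots hqO, IsRoot, eval_map]
      exact hno x hx
    have h2 := Finset.card_le_card h1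
    have h3 := Multiset.toFinset_card_le (q.map (algebraMap E Om)).roots
    have h4 := card_roots' (q.map (algebraMap E Om))
    rw [natDegree_map] at h4
    omega
  have hab : a ≠ b := fun h => hb (by rw [← h]; exact ha)
  let x₀ : R := ⟨a, haR⟩
  let y₀ : R := ⟨b, hbR⟩
  -- the action
  have hact : ∀ x y : R, x ≠ y → ∃ e : (E →ₐ[k] Om) ≃ (E →ₐ[k] Om),
      (∀ φ, I x₀ φ ↔ I x (e φ)) ∧ ∀ φ, I y₀ φ ↔ I y (e φ) := by
    intro x y hxy
    obtain ⟨g, hg1, hg2⟩ := two_trans hp hirr hdom ((hR a).1 haR) ((hR b).1 hbR) hab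
      ((hR x).1 x.2) ((hR y).1 y.2) (fun h => hxy (Subtype.ext h))
    let e : (E →ₐ[k] Om) ≃ (E →ₐ[k] Om) :=
      { toFun := fun φ => (g : Om →ₐ[k] Om).comp φ
        invFun := fun φ => (g.symm : Om →ₐ[k] Om).comp φ
        left_inv := fun φ => AlgHom.ext fun z => g.symm_apply_apply _
        right_inv := fun φ => AlgHom.ext fun z => g.apply_symm_apply _ }
    have h1 : ∀ (u : Om) (φ : E →ₐ[k] Om), eval₂ ((e φ : E →ₐ[k] Om) : E →+* Om) (g u) q =
        g (eval₂ (φ : E →+* Om) u q) := by
      intro u φ
      have h2 := hom_eval₂ q (φ : E →+* Om) (g : Om →+* Om) u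
      exact h2.symm
    refine ⟨e, fun φ => ?_, fun φ => ?_⟩
    · show eval₂ (φ : E →+* Om) a q = 0 ↔ eval₂ ((e φ : E →ₐ[k] Om) : E →+* Om) (x : Om) q = 0
      rw [← hg1, h1]
      exact (map_eq_zero_iff g g.injective).symm
    · show eval₂ (φ : E →+* Om) b q = 0 ↔ eval₂ ((e φ : E →ₐ[k] Om) : E →+* Om) (y : Om) q = 0
      rw [← hg2, h1]
      exact (map_eq_zero_iff g g.injective).symm
  have hcount : ∀ x y : R, x ≠ y →
      (Finset.univ.filter fun φ => I x φ).card = (Finset.univ.filter fun φ => I x₀ φ).card ∧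
      (Finset.univ.filter fun φ => I x φ ∧ I y φ).card =
        (Finset.univ.filter fun φ => I x₀ φ ∧ I y₀ φ).card := by
    intro x y hxy
    obtain ⟨e, h1, h2⟩ := hact x y hxy
    constructor
    · refine (Finset.card_equiv e fun φ => ?_).symm
      rw [Finset.mem_filter, Finset.mem_filter, h1 φ]
      exact ⟨fun h => ⟨Finset.mem_univ _, h.2⟩, fun h => ⟨Finset.mem_univ _, h.2⟩⟩
    · refine (Finset.card_equiv e fun φ => ?_).symm
      rw [Finset.mem_filter, Finset.mem_filter, h1 φ, h2 φ]
      exact ⟨fun h => ⟨Finset.mem_univ _, h.2⟩, fun h => ⟨Finset.mem_univ _, h.2⟩⟩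
  have hlt : (Finset.univ.filter fun φ => I x₀ φ ∧ I y₀ φ).card <
      (Finset.univ.filter fun φ => I x₀ φ).card := by
    refine Finset.card_lt_card ?_
    rw [Finset.ssubset_iff_of_subset]
    · refine ⟨φ₀, ?_, ?_⟩
      · rw [Finset.mem_filter]
        exact ⟨Finset.mem_univ _, ha⟩
      · rw [Finset.mem_filter]
        rintro ⟨-, -, h⟩
        exact hb h
    · intro φ hφ
      rw [Finset.mem_filter] at hφ ⊢
      exact ⟨hφ.1, hφ.2.1⟩
  have hxy₀ : x₀ ≠ y₀ := fun h => hab (congrArg Subtype.val h)
  have key := fisher I hlt (fun x => by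
      by_cases hx : x = x₀
      · rw [hx]
      · exact (hcount x x₀ hx).1) (fun x y hxy => (hcount x y hxy).2)
  rw [Fintype.card_coe, hRcard] at key
  omega

end field

end Pool.Agent.Q45.NE
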