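import Pool.Agent.Q45.NE.Res

/-!
# The generic section is doubly transitive
-/

set_option autoImplicit false
set_option linter.all false

open Polynomial
open scoped Classical

namespace Pool.Agent.Q45.NE

section lin

/-- Affine substitutions over a field. -/
theorem irr_comp {K : Type} [Field K] {P : K[X]} (hP : Irreducible P) (h : K) {l : K} (hl : l ≠ 0) :
    Irreducible ((taylor h P).comp (C l * X)) := by
  haveI := invertibleOfNonzero hl
  have h1 : (taylor h P).comp (C l * X) = algEquivCMulXAddC l h P := by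
    rw [algEquivCMulXAddC_apply, taylor_apply, comp_assoc, add_comp, X_comp, C_comp]
    rfl
  rw [h1]
  exact (MulEquiv.irreducible_iff ((algEquivCMulXAddC l h : K[X] ≃ₐ[K] K[X]) : K[X] ≃* K[X])).2 hP

/-- Division by the content. -/
theorem irr_lin {D : Type} [CommRing D] [IsDomain D] [IsIntegrallyClosed D] {P q : D[X]}
    (hPm : P.Monic) (hn : 0 < P.natDegree) (hP : Irreducible P) {h l : D} (hl : Prime l)
    (hd : ¬ l ∣ (derivative P).eval h) (hq : C l * q = (taylor h P).comp (C l * X)) :
    Irreducible q := by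
  let K := FractionRing D
  have hinj : Function.Injective (algebraMap D K) := IsFractionRing.injective D K
  have hPK : Irreducible (P.map (algebraMap D K)) :=
    (hPm.irreducible_iff_irreducible_map_fraction_map).1 hP
  have hlK : algebraMap D K l ≠ 0 := (map_ne_zero_iff _ hinj).2 hl.ne_zero
  have hqK : Irreducible (q.map (algebraMap D K)) := by
    have h1 := irr_comp hPK (algebraMap D K h) hlK
    have h2 := congrArg (Polynomial.map (algebraMap D K)) hq
    rw [Polynomial.map_mul, map_C, Polynomial.map_comp, map_taylor, Polynomial.map_mul, map_C,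
      map_X] at h2
    rw [← h2, irreducible_isUnit_mul ((isUnit_iff_ne_zero.2 hlK).map C)] at h1
    exact h1
  have hc : ∀ j, l * q.coeff j = (taylor h P).coeff j * l ^ j := by
    intro j
    have h1 := congrArg (fun f => f.coeff j) hq
    simp only [coeff_C_mul, comp_C_mul_X_coeff] at h1
    exact h1
  have hc1 : q.coeff 1 = (derivative P).eval h := by
    have h1 := hc 1
    rw [taylor_coeff_one, pow_one, mul_comm] at h1
    exact mul_right_cancel₀ hl.ne_zero h1
  have hcn : q.coeff P.natDegree = l ^ (P.natDegree - 1) := by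
    have h1 := hc P.natDegree
    rw [coeff_taylor_natDegree, hPm.leadingCoeff, one_mul] at h1
    refine mul_left_cancel₀ hl.ne_zero ?_
    rw [h1, ← pow_succ', Nat.sub_add_cancel hn]
  have key : ∀ a b : D[X], q = a * b → IsUnit (a.map (algebraMap D K)) → IsUnit a := by
    intro a b hab hu
    have h1 : a.natDegree = 0 := by
      rw [← natDegree_map_eq_of_injective hinj a]
      exact natDegree_eq_zero_of_isUnit hu
    obtain ⟨a₀, rfl⟩ := natDegree_eq_zero.1 h1
    have h2 : ∀ j, a₀ ∣ q.coeff j := fun j => ⟨b.coeff j, by rw [hab, coeff_C_mul]⟩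
    refine isUnit_C.2 ?_
    have h3 := h2 P.natDegree
    rw [hcn] at h3
    obtain ⟨i, -, hi⟩ := (dvd_prime_pow hl _).1 h3
    rcases Nat.eq_zero_or_pos i with h0 | h0
    · rw [h0, pow_zero] at hi
      exact associated_one_iff_isUnit.1 hi
    · exfalso
      apply hd
      rw [← hc1]
      exact ((dvd_pow_self l h0.ne').trans hi.symm.dvd).trans (h2 1)
  refine ⟨fun hu => hqK.1 (hu.map (mapRingHom (algebraMap D K))), fun {a b} hab => ?_⟩
  have h1 : q.map (algebraMap D K) = a.map (algebraMap D K) * b.map (algebraMap D K) := by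
    rw [hab, Polynomial.map_mul]
  rcases hqK.2 h1 with h2 | h2
  · exact Or.inl (key a b hab h2)
  · exact Or.inr (key b a (by rw [hab, mul_comm]) h2)

end lin

section dom

theorem sp1_mk {A k : Type} [CommRing A] [CommRing k] (s : A →+* k) (e : A[X]) (f : A[X]) :
    sp1 s e (AdjoinRoot.mk e f) = AdjoinRoot.mk (e.map s) (f.map s) := by
  have h1 : (sp1 s e).comp (AdjoinRoot.mk e) = (AdjoinRoot.mk (e.map s)).comp (mapRingHom s) := by
    refine Polynomial.ringHom_ext (fun a => ?_) ?_
    · rw [RingHom.comp_apply, RingHom.comp_apply, coe_mapRingHom, map_C, AdjoinRoot.mk_C,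
        AdjoinRoot.mk_C, sp1_of]
    · rw [RingHom.comp_apply, RingHom.comp_apply, coe_mapRingHom, map_X, AdjoinRoot.mk_X,
        AdjoinRoot.mk_X, sp1_root]
  exact congrArg (fun φ : A[X] →+* AdjoinRoot (e.map s) => φ f) h1

theorem sp1_inj {B B' : Type} [CommRing B] [CommRing B'] {q : B[X]} (hq : q.Monic) {θ : B →+* B'}
    (hθ : Function.Injective θ) : Function.Injective (sp1 θ q) := by
  rw [injective_iff_map_eq_zero]
  intro x hx
  obtain ⟨f, rfl⟩ := AdjoinRoot.mk_surjective x
  rw [sp1_mk, AdjoinRoot.mk_eq_zero, ← modByMonic_eq_zero_iff_dvd (hq.map θ),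
    ← map_modByMonic θ hq] at hx
  rw [AdjoinRoot.mk_eq_zero, ← modByMonic_eq_zero_iff_dvd hq]
  exact Polynomial.map_injective θ hθ (by rw [hx, Polynomial.map_zero])

theorem dom_of_map {B B' : Type} [CommRing B] [CommRing B'] {q : B[X]} (hq : q.Monic)
    {θ : B →+* B'} (hθ : Function.Injective θ) (hdom : IsDomain (AdjoinRoot (q.map θ))) :
    IsDomain (AdjoinRoot q) :=
  (sp1_inj hq hθ).isDomain _

end dom

section sub

variable {k : Type} [Field k]

theorem msub {S : Type} [CommRing S] (f : k[X][X][X] →+* S) (a b : k[X][X][X]) :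
    f (a - b) = f a - f b := map_sub f a b

theorem dvd_of_span {a b : k[X][X][X]} (h : a ∈ Ideal.span {b}) : ∃ r, a = b * r := by
  obtain ⟨r, hr⟩ := Ideal.mem_span_singleton'.1 h
  exact ⟨r, hr.symm.trans (mul_comm r b)⟩

/-- The substitution `w ↦ v₀ + v₁ t + G(t)`. -/
noncomputable def sig2 (G : k[X]) : k[X][X][X] →+* (MvPolynomial (Fin 2) k)[X] :=
  eval₂RingHom (eval₂RingHom (mapRingHom MvPolynomial.C)
    (C (MvPolynomial.X 0) + C (MvPolynomial.X 1) * X + G.map MvPolynomial.C)) (C (MvPolynomial.X 1))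

/-- The inverse substitution. -/
noncomputable def tau2 (G : k[X]) : (MvPolynomial (Fin 2) k)[X] →+* k[X][X][X] :=
  eval₂RingHom (MvPolynomial.eval₂Hom ((C : k[X][X] →+* k[X][X][X]).comp
    ((C : k[X] →+* k[X][X]).comp (C : k →+* k[X])))
    (![C X - X * C (C X) - C (C G), X] : Fin 2 → k[X][X][X])) (C (C X))

variable (G : k[X])

theorem sig2_ccc (a : k) : sig2 G (C (C (C a))) = C (MvPolynomial.C a) := by
  unfold sig2
  rw [coe_eval₂RingHom, eval₂_C, coe_eval₂RingHom, eval₂_C, coe_mapRingHom, map_C]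

theorem sig2_ccX : sig2 G (C (C X)) = X := by
  unfold sig2
  rw [coe_eval₂RingHom, eval₂_C, coe_eval₂RingHom, eval₂_C, coe_mapRingHom, map_X]

theorem sig2_cc (p : k[X]) : sig2 G (C (C p)) = p.map MvPolynomial.C := by
  unfold sig2
  rw [coe_eval₂RingHom, eval₂_C, coe_eval₂RingHom, eval₂_C, coe_mapRingHom]

theorem sig2_cX : sig2 G (C X) =
    C (MvPolynomial.X 0) + C (MvPolynomial.X 1) * X + G.map MvPolynomial.C := by
  unfold sig2
  rw [coe_eval₂RingHom, eval₂_C, coe_eval₂RingHom, eval₂_X]

theorem sig2_X : sig2 G X = C (MvPolynomial.X 1) := by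
  unfold sig2
  rw [coe_eval₂RingHom, eval₂_X]

theorem tau2_c (a : k) : tau2 G (C (MvPolynomial.C a)) = C (C (C a)) := by
  unfold tau2
  rw [coe_eval₂RingHom, eval₂_C, MvPolynomial.eval₂Hom_C]
  rfl

theorem tau2_X : tau2 G X = C (C X) := by
  unfold tau2
  rw [coe_eval₂RingHom, eval₂_X]

theorem tau2_0 : tau2 G (C (MvPolynomial.X 0)) = C X - X * C (C X) - C (C G) := by
  unfold tau2
  rw [coe_eval₂RingHom, eval₂_C, MvPolynomial.eval₂Hom_X']
  rfl

theorem tau2_1 : tau2 G (C (MvPolynomial.X 1)) = X := by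
  unfold tau2
  rw [coe_eval₂RingHom, eval₂_C, MvPolynomial.eval₂Hom_X']
  rfl

theorem tau2_map (p : k[X]) : tau2 G (p.map MvPolynomial.C) = C (C p) := by
  have h1 : (tau2 G).comp (mapRingHom MvPolynomial.C) = (C.comp C : k[X] →+* k[X][X][X]) := by
    refine Polynomial.ringHom_ext (fun a => ?_) ?_
    · rw [RingHom.comp_apply, coe_mapRingHom, map_C, tau2_c, RingHom.comp_apply]
    · rw [RingHom.comp_apply, coe_mapRingHom, map_X, tau2_X, RingHom.comp_apply]
  exact congrArg (fun φ : k[X] →+* k[X][X][X] => φ p) h1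

theorem tau2_sig2 : (tau2 G).comp (sig2 G) = RingHom.id _ := by
  refine Polynomial.ringHom_ext' (Polynomial.ringHom_ext' (Polynomial.ringHom_ext (fun a => ?_) ?_)
    ?_) ?_
  · show tau2 G (sig2 G (C (C (C a)))) = C (C (C a))
    rw [sig2_ccc, tau2_c]
  · show tau2 G (sig2 G (C (C X))) = C (C X)
    rw [sig2_ccX, tau2_X]
  · show tau2 G (sig2 G (C X)) = C X
    rw [sig2_cX, map_add, map_add, map_mul, tau2_0, tau2_1, tau2_X, tau2_map]
    ring
  · show tau2 G (sig2 G X) = X
    rw [sig2_X, tau2_1]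

theorem sig2_tau2 : (sig2 G).comp (tau2 G) = RingHom.id _ := by
  refine Polynomial.ringHom_ext' (MvPolynomial.ringHom_ext (fun a => ?_) (fun i => ?_)) ?_
  · show sig2 G (tau2 G (C (MvPolynomial.C a))) = C (MvPolynomial.C a)
    rw [tau2_c, sig2_ccc]
  · show sig2 G (tau2 G (C (MvPolynomial.X i))) = C (MvPolynomial.X i)
    fin_cases i
    · show sig2 G (tau2 G (C (MvPolynomial.X 0))) = C (MvPolynomial.X 0)
      rw [tau2_0, msub, msub, map_mul, sig2_cX, sig2_X, sig2_ccX, sig2_cc]
      ring
    · show sig2 G (tau2 G (C (MvPolynomial.X 1))) = C (MvPolynomial.X 1)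
      rw [tau2_1, sig2_X]
  · show sig2 G (tau2 G X) = X
    rw [tau2_X, sig2_ccX]

end sub

section core

variable {k K : Type} [Field k] [Field K]

/-- **The generic section is doubly transitive.** -/
theorem trans_core {F : k[X][X]} (hF : F.Monic) (hn : 0 < F.natDegree) {κ : k[X][X] →+* K}
    (hκ : RingHom.ker κ = Ideal.span {F}) (hder : κ (derivative F) ≠ 0)
    (hirr : Irreducible (F.map (mapRingHom (κ.comp (C.comp C))))) (G : k[X])
    {e : (MvPolynomial (Fin 2) k)[X]} (he : e.Monic) {u : k} (hu : u ≠ 0)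
    (heu : e = C (MvPolynomial.C u) * sig2 G (C F)) : IsDomain (AdjoinRoot (quo e)) := by
  set ι : k →+* K := κ.comp (C.comp C) with hι
  have hιa : ∀ a, ι a = κ (C (C a)) := fun a => rfl
  set h : (MvPolynomial (Fin 2) k)[X] →+* K[X] := (mapRingHom κ).comp (tau2 G) with hh
  have hts : ∀ f, tau2 G (sig2 G f) = f := fun f => congrArg (fun φ : k[X][X][X] →+* _ => φ f) (tau2_sig2 G)
  have hst : ∀ f, sig2 G (tau2 G f) = f := fun f =>
    congrArg (fun φ : (MvPolynomial (Fin 2) k)[X] →+* _ => φ f) (sig2_tau2 G)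
  have hF0 : κ F = 0 := by
    rw [← RingHom.mem_ker, hκ]
    exact Ideal.mem_span_singleton_self F
  have he0 : h e = 0 := by
    rw [heu, map_mul]
    have h1 : h (sig2 G (C F)) = 0 := by
      rw [hh, RingHom.comp_apply, hts, coe_mapRingHom, map_C, hF0, map_zero]
    rw [h1, mul_zero]
  have hev : ∀ f : (MvPolynomial (Fin 2) k)[X], f.eval₂ (h.comp C) (h X) = h f := by
    intro f
    conv_rhs => rw [← eval₂_C_X (p := f)]
    exact (hom_eval₂ f C h X).symm
  -- the map `θ`
  let θ : AdjoinRoot e →+* K[X] := AdjoinRoot.lift (h.comp C) (h X) (by rw [hev, he0])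
  have hθmk : ∀ f, θ (AdjoinRoot.mk e f) = h f := by
    intro f
    show AdjoinRoot.lift (h.comp C) (h X) _ (AdjoinRoot.mk e f) = h f
    rw [AdjoinRoot.lift_mk, hev]
  have hker : ∀ f, h f = 0 → f ∈ Ideal.span {e} := by
    intro f hf
    have h1 : tau2 G f ∈ RingHom.ker (mapRingHom κ) := hf
    rw [Polynomial.ker_mapRingHom, hκ, Ideal.map_span, Set.image_singleton] at h1
    obtain ⟨r, hr⟩ := dvd_of_span h1
    have h2 : f = sig2 G (C F) * sig2 G r := by rw [← map_mul, ← hr, hst]
    rw [Ideal.mem_span_singleton]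
    refine ⟨C (MvPolynomial.C u⁻¹) * sig2 G r, ?_⟩
    have h3 : (C (MvPolynomial.C u) * C (MvPolynomial.C u⁻¹) : (MvPolynomial (Fin 2) k)[X]) = 1 := by
      rw [← map_mul, ← map_mul, mul_inv_cancel₀ hu, map_one, map_one]
    rw [heu, h2]
    linear_combination (-(sig2 G (C F) * sig2 G r)) * h3
  have hθ : Function.Injective θ := by
    rw [injective_iff_map_eq_zero]
    intro x hx
    obtain ⟨f, rfl⟩ := AdjoinRoot.mk_surjective x
    rw [hθmk] at hx
    exact Ideal.Quotient.eq_zero_iff_mem.2 (hker f hx)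
  -- the second root
  set t₁ : K := κ (C X) with ht₁
  set w₁ : K := κ X with hw₁
  set g₁ : K := κ (C G) with hg₁
  have hhX : h X = C t₁ := by
    rw [hh, RingHom.comp_apply, tau2_X, coe_mapRingHom, map_C]
  have hh0 : h (C (MvPolynomial.X 0)) = C w₁ - X * C t₁ - C g₁ := by
    rw [hh, RingHom.comp_apply, tau2_0, msub, msub, map_mul, coe_mapRingHom, map_C, map_X,
      map_C, map_C]
  have hh1 : h (C (MvPolynomial.X 1)) = X := by
    rw [hh, RingHom.comp_apply, tau2_1, coe_mapRingHom, map_X]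
  have hhc : ∀ a, h (C (MvPolynomial.C a)) = C (ι a) := by
    intro a
    rw [hh, RingHom.comp_apply, tau2_c, coe_mapRingHom, map_C, hιa]
  set q := (quo e).map θ with hq
  have hqe : (X - C (C t₁)) * q = e.map (h.comp C) := by
    have h1 := congrArg (Polynomial.map θ) (quo_mul e)
    have h2 : θ.comp (AdjoinRoot.of e) = h.comp C := by
      refine RingHom.ext fun a => ?_
      show θ (AdjoinRoot.of e a) = h (C a)
      rw [← AdjoinRoot.mk_C, hθmk]
    have h3 : θ (AdjoinRoot.root e) = C t₁ := by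
      rw [← AdjoinRoot.mk_X, hθmk, hhX]
    rw [Polynomial.map_mul, Polynomial.map_sub, map_X, map_C, h3, Polynomial.map_map, h2] at h1
    exact h1
  -- the swap
  set P : K[X][X] := F.map (mapRingHom ι) with hP
  set h₀ : K[X] := C w₁ - C g₁ + G.map ι with hh₀
  set l : K[X] := X - C t₁ with hl
  have hsw : ∀ f : k[X][X], Bivariate.swap ((sig2 G (C f)).map (h.comp C)) =
      (f.map (mapRingHom ι)).comp (C h₀ + C l * X) := by
    intro f
    have h1 : ((Bivariate.swap (R := K)).toAlgHom.toRingHom.comp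
        ((mapRingHom (h.comp C)).comp ((sig2 G).comp C))) =
        (compRingHom (C h₀ + C l * X)).comp (mapRingHom (mapRingHom ι)) := by
      refine Polynomial.ringHom_ext' (Polynomial.ringHom_ext (fun a => ?_) ?_) ?_
      · show Bivariate.swap ((sig2 G (C (C (C a)))).map (h.comp C)) =
          ((C (C a) : k[X][X]).map (mapRingHom ι)).comp (C h₀ + C l * X)
        rw [sig2_ccc, map_C, RingHom.comp_apply, hhc, Bivariate.swap_C_C, map_C, coe_mapRingHom,
          map_C, C_comp]
      · show Bivariate.swap ((sig2 G (C (C X))).map (h.comp C)) =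
          ((C X : k[X][X]).map (mapRingHom ι)).comp (C h₀ + C l * X)
        rw [sig2_ccX, map_X, Bivariate.swap_Y, map_C, coe_mapRingHom, map_X, C_comp]
      · show Bivariate.swap ((sig2 G (C X)).map (h.comp C)) =
          ((X : k[X][X]).map (mapRingHom ι)).comp (C h₀ + C l * X)
        have h2 : (h.comp C).comp MvPolynomial.C = (C.comp ι : k →+* K[X]) := RingHom.ext fun a => hhc a
        have h3 : (h.comp C) (MvPolynomial.X 0) = C w₁ - X * C t₁ - C g₁ := hh0
        have h4 : (h.comp C) (MvPolynomial.X 1) = X := hh1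
        rw [sig2_cX, Polynomial.map_add, Polynomial.map_add, Polynomial.map_mul, map_C, map_C, map_X,
          h3, h4, Polynomial.map_map, h2, ← Polynomial.map_map, map_X, X_comp, hh₀, hl]
        simp only [map_add, map_sub, map_mul, Bivariate.swap_C_C, Bivariate.swap_X,
          Bivariate.swap_Y, Bivariate.swap_map_C]
        ring
    exact congrArg (fun φ : k[X][X] →+* K[X][X] => φ f) h1
  have hPm : P.Monic := hF.map _
  have hPn : P.natDegree = F.natDegree := hF.natDegree_map _
  have hιu : ι u ≠ 0 := (map_ne_zero ι).2 hu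
  have hql : C l * (C (C (ι u)⁻¹) * Bivariate.swap q) = (taylor h₀ P).comp (C l * X) := by
    have h1 := congrArg (Bivariate.swap (R := K)) hqe
    rw [map_mul, map_sub, Bivariate.swap_Y, Bivariate.swap_C_C, heu, Polynomial.map_mul, map_C,
      RingHom.comp_apply, hhc, map_mul, Bivariate.swap_C_C, hsw F, ← hP] at h1
    have h2 : (taylor h₀ P).comp (C l * X) = P.comp (C h₀ + C l * X) := by
      rw [taylor_apply, comp_assoc, add_comp, X_comp, C_comp, add_comm]
    have h3 : (C (C (ι u)) * C (C (ι u)⁻¹) : K[X][X]) = 1 := by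
      rw [← map_mul, ← map_mul, mul_inv_cancel₀ hιu, map_one, map_one]
    have h4 : (C l : K[X][X]) = C X - C (C t₁) := by rw [hl, map_sub]
    rw [h2]
    linear_combination (C (C (ι u)⁻¹)) * h1 + (P.comp (C h₀ + C l * X)) * h3 +
      (C (C (ι u)⁻¹) * Bivariate.swap q) * h4
  have hg : (G.map ι).eval t₁ = g₁ := by
    have h1 : κ.comp C = eval₂RingHom ι t₁ := by
      refine Polynomial.ringHom_ext (fun a => ?_) ?_
      · rw [RingHom.comp_apply, coe_eval₂RingHom, eval₂_C, hιa]
      · rw [RingHom.comp_apply, coe_eval₂RingHom, eval₂_X]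
    rw [eval_map]
    exact (congrArg (fun φ : k[X] →+* K => φ G) h1).symm
  have hcomp : ∀ f : k[X][X], ((f.map (mapRingHom ι)).eval h₀).eval t₁ = κ f := by
    intro f
    have h1 : ((evalRingHom t₁).comp ((evalRingHom h₀).comp (mapRingHom (mapRingHom ι)))) = κ := by
      refine Polynomial.ringHom_ext' (Polynomial.ringHom_ext (fun a => ?_) ?_) ?_
      · show (((C (C a) : k[X][X]).map (mapRingHom ι)).eval h₀).eval t₁ = κ (C (C a))
        rw [map_C, eval_C, coe_mapRingHom, map_C, eval_C, hιa]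
      · show (((C X : k[X][X]).map (mapRingHom ι)).eval h₀).eval t₁ = κ (C X)
        rw [map_C, eval_C, coe_mapRingHom, map_X, eval_X]
      · show (((X : k[X][X]).map (mapRingHom ι)).eval h₀).eval t₁ = κ X
        rw [map_X, eval_X, hh₀, eval_add, eval_sub, eval_C, eval_C, hg, sub_add_cancel]
    exact congrArg (fun φ : k[X][X] →+* K => φ f) h1
  have hq' : Irreducible (C (C (ι u)⁻¹) * Bivariate.swap q) := by
    refine irr_lin hPm (by rw [hPn]; exact hn) hirr (prime_X_sub_C t₁) ?_ hql
    rw [dvd_iff_isRoot, IsRoot, hP, derivative_map, hcomp]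
    exact hder
  have hun : IsUnit (C (C (ι u)⁻¹) : K[X][X]) :=
    ((isUnit_iff_ne_zero.2 (inv_ne_zero hιu)).map C).map C
  have hq1 : Irreducible (Bivariate.swap q) := (irreducible_isUnit_mul hun).1 hq'
  have hq2 : Irreducible q :=
    (MulEquiv.irreducible_iff ((Bivariate.swap (R := K)).toRingEquiv : K[X][X] ≃* K[X][X])).1 hq1
  refine dom_of_map (quo_monic he) hθ ?_
  rw [← hq]
  have h5 : Prime q := hq2.prime
  exact Ideal.Quotient.isDomain_iff_prime _ |>.2
    ((Ideal.span_singleton_prime h5.ne_zero).2 h5)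

end core

end Pool.Agent.Q45.NE
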