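import Pool.Agent.Q45.NE.DensB
import Pool.Agent.Q45.NE.Trans
import Pool.Agent.Q45.NE.Small

/-!
# Number fields: two parameters
-/

set_option autoImplicit false
set_option linter.all false

open Polynomial
open scoped Classical

namespace Pool.Agent.Q45.NE

open Pool.Agent.Q45.HI (spc)
open Pool.Agent.W275.UB (UD)

section lead

/-- The value of a monic polynomial at a polynomial of large degree. -/
theorem eval_lead {A : Type} [CommRing A] [IsDomain A] {F : A[X][X]} (hF : F.Monic)
    (hn : 0 < F.natDegree) {x : A[X]}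
    (hdeg : ∀ i < F.natDegree, (F.coeff i).natDegree < (F.natDegree - i) * x.natDegree) :
    (F.eval x).natDegree = F.natDegree * x.natDegree ∧
      (F.eval x).leadingCoeff = x.leadingCoeff ^ F.natDegree := by
  have hd0 : 0 < x.natDegree := by
    have h1 := hdeg 0 hn
    by_contra h0
    have h2 : x.natDegree = 0 := by omega
    rw [h2, mul_zero] at h1
    omega
  have hx0 : x ≠ 0 := by
    intro h0
    rw [h0, natDegree_zero] at hd0
    omega
  have h1 : F.eval x = ∑ i ∈ Finset.range F.natDegree, F.coeff i * x ^ i + x ^ F.natDegree := by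
    rw [eval_eq_sum_range, Finset.sum_range_succ, hF.coeff_natDegree, one_mul]
  have h2 : (∑ i ∈ Finset.range F.natDegree, F.coeff i * x ^ i).degree < (x ^ F.natDegree).degree := by
    have h2 : (x ^ F.natDegree).degree = ((F.natDegree * x.natDegree : ℕ) : WithBot ℕ) := by
      rw [degree_eq_natDegree (pow_ne_zero _ hx0), natDegree_pow]
    rw [h2]
    refine (degree_sum_le _ _).trans_lt ?_
    rw [Finset.sup_lt_iff (WithBot.bot_lt_coe _)]
    intro i hi
    rw [Finset.mem_range] at hi
    refine lt_of_le_of_lt degree_le_natDegree ?_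
    have h3 : (F.coeff i * x ^ i).natDegree ≤ (F.coeff i).natDegree + i * x.natDegree := by
      refine natDegree_mul_le.trans ?_
      rw [natDegree_pow]
    have h4 := hdeg i hi
    have h5 : (F.natDegree - i) * x.natDegree + i * x.natDegree = F.natDegree * x.natDegree := by
      rw [← add_mul, Nat.sub_add_cancel hi.le]
    exact_mod_cast lt_of_le_of_lt h3 (by omega)
  rw [h1]
  refine ⟨?_, ?_⟩
  · rw [natDegree_add_eq_right_of_degree_lt h2, natDegree_pow]
  · rw [leadingCoeff_add_of_degree_lt h2, leadingCoeff_pow]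

end lead

section two

variable {k : Type} [Field k]

/-- The section. -/
noncomputable def sec (G : k[X]) (v : Fin 2 → ℤ) : k[X] :=
  G + C ((v 1 : ℤ) : k) * X + C ((v 0 : ℤ) : k)

theorem sec_lin (v : Fin 2 → ℤ) :
    (C ((v 1 : ℤ) : k) * X + C ((v 0 : ℤ) : k)).natDegree ≤ 1 := natDegree_linear_le

theorem sec_deg {G : k[X]} (hG : 2 ≤ G.natDegree) (v : Fin 2 → ℤ) :
    (sec G v).natDegree = G.natDegree := by
  unfold sec
  rw [add_assoc, natDegree_add_eq_left_of_natDegree_lt]
  exact lt_of_le_of_lt (sec_lin v) (by omega)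

theorem sec_lead {G : k[X]} (hG : 2 ≤ G.natDegree) (v : Fin 2 → ℤ) :
    (sec G v).leadingCoeff = G.leadingCoeff := by
  unfold sec
  rw [add_assoc, add_comm, leadingCoeff_add_of_degree_lt]
  exact degree_lt_degree (lt_of_le_of_lt (sec_lin v) (by omega))

theorem sec_inj [CharZero k] (G : k[X]) : Function.Injective (sec G) := by
  intro v w h
  unfold sec at h
  rw [add_assoc, add_assoc] at h
  have h1 := add_left_cancel h
  have h2 := congrArg (fun p : k[X] => p.coeff 0) h1
  have h3 := congrArg (fun p : k[X] => p.coeff 1) h1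
  simp only [coeff_add, coeff_C_mul, coeff_X_zero, mul_zero, coeff_C_zero, zero_add] at h2
  simp only [coeff_add, coeff_C_mul, coeff_X_one, mul_one, coeff_C_succ, add_zero] at h3
  funext i
  fin_cases i
  · exact Int.cast_injective h2
  · exact Int.cast_injective h3

/-- The generic value. -/
noncomputable def Phi2 (F : k[X][X]) (G : k[X]) : (MvPolynomial (Fin 2) k)[X] := sig2 G (C F)

theorem phi2_eq (F : k[X][X]) (G : k[X]) : Phi2 F G =
    (F.map (mapRingHom (MvPolynomial.C : k →+* MvPolynomial (Fin 2) k))).eval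
      (C (MvPolynomial.X 0) + C (MvPolynomial.X 1) * X + G.map MvPolynomial.C) := by
  unfold Phi2 sig2
  rw [coe_eval₂RingHom, eval₂_C, coe_eval₂RingHom, eval_map]

theorem phi2_lead {F : k[X][X]} (hF : F.Monic) (hn : 0 < F.natDegree) {G : k[X]}
    (hG : 2 ≤ G.natDegree)
    (hdeg : ∀ i < F.natDegree, (F.coeff i).natDegree < (F.natDegree - i) * G.natDegree) :
    (Phi2 F G).natDegree = F.natDegree * G.natDegree ∧
      (Phi2 F G).leadingCoeff = MvPolynomial.C (G.leadingCoeff ^ F.natDegree) := by
  have hCi : Function.Injective (MvPolynomial.C : k →+* MvPolynomial (Fin 2) k) :=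
    MvPolynomial.C_injective _ k
  set x : (MvPolynomial (Fin 2) k)[X] :=
    C (MvPolynomial.X 0) + C (MvPolynomial.X 1) * X + G.map MvPolynomial.C with hx
  have hd : (G.map (MvPolynomial.C : k →+* MvPolynomial (Fin 2) k)).natDegree = G.natDegree :=
    natDegree_map_eq_of_injective hCi G
  have hlin : (C (MvPolynomial.X 0) + C (MvPolynomial.X 1) * X :
      (MvPolynomial (Fin 2) k)[X]).natDegree ≤ 1 := by
    rw [add_comm]
    exact natDegree_linear_le
  have hlt : (C (MvPolynomial.X 0) + C (MvPolynomial.X 1) * X :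
      (MvPolynomial (Fin 2) k)[X]).natDegree <
      (G.map (MvPolynomial.C : k →+* MvPolynomial (Fin 2) k)).natDegree := by
    rw [hd]
    omega
  have hxd : x.natDegree = G.natDegree := by
    rw [hx, natDegree_add_eq_right_of_natDegree_lt hlt, hd]
  have hxl : x.leadingCoeff = MvPolynomial.C G.leadingCoeff := by
    rw [hx, leadingCoeff_add_of_degree_lt (degree_lt_degree hlt), leadingCoeff_map_of_injective hCi]
  set F' := F.map (mapRingHom (MvPolynomial.C : k →+* MvPolynomial (Fin 2) k)) with hF'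
  have hFm : F'.Monic := hF.map _
  have hFd : F'.natDegree = F.natDegree := hF.natDegree_map _
  have hc : ∀ i, (F'.coeff i).natDegree = (F.coeff i).natDegree := by
    intro i
    rw [hF', coeff_map, coe_mapRingHom, natDegree_map_eq_of_injective hCi]
  obtain ⟨h1, h2⟩ := eval_lead hFm (by rw [hFd]; exact hn) (x := x) (by
    intro i hi
    rw [hFd] at hi ⊢
    rw [hc, hxd]
    exact hdeg i hi)
  rw [phi2_eq]
  refine ⟨?_, ?_⟩
  · rw [h1, hFd, hxd]
  · rw [h2, hFd, hxl, map_pow]

theorem phi2_spc (F : k[X][X]) (G : k[X]) (v : Fin 2 → ℤ) :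
    (Phi2 F G).map (spc k v) = eG F (sec G v) := by
  have h0 : (spc k v).comp MvPolynomial.C = RingHom.id k :=
    RingHom.ext fun a => MvPolynomial.eval_C _
  have h1 : (mapRingHom (spc k v)).comp
      (mapRingHom (MvPolynomial.C : k →+* MvPolynomial (Fin 2) k)) = RingHom.id k[X] := by
    rw [Polynomial.mapRingHom_comp, h0, mapRingHom_id]
  have h2 : (Phi2 F G).map (spc k v) = mapRingHom (spc k v) (Phi2 F G) := rfl
  rw [h2, Phi2, sig2, coe_eval₂RingHom, eval₂_C, coe_eval₂RingHom, hom_eval₂, h1]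
  have h3 : mapRingHom (spc k v) (C (MvPolynomial.X 0) + C (MvPolynomial.X 1) * X +
      G.map MvPolynomial.C) = sec G v := by
    rw [map_add, map_add, map_mul, coe_mapRingHom, map_C, map_C, map_X, Polynomial.map_map, h0,
      Polynomial.map_id]
    have h4 : spc k v (MvPolynomial.X 0) = ((v 0 : ℤ) : k) := MvPolynomial.eval_X _
    have h5 : spc k v (MvPolynomial.X 1) = ((v 1 : ℤ) : k) := MvPolynomial.eval_X _
    rw [h4, h5, sec]
    ring
  rw [h3]
  rfl

end two

section generic

variable {k : Type} [Field k]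

/-- The function field of the curve. -/
theorem exists_kappa [CharZero k] {F : k[X][X]} (hF : F.Monic) (hirr : Irreducible F)
    (hn : 0 < F.natDegree) : ∃ (K : Type) (_ : Field K) (κ : k[X][X] →+* K),
    RingHom.ker κ = Ideal.span {F} ∧ κ (derivative F) ≠ 0 := by
  haveI hdom : IsDomain (AdjoinRoot F) := by
    have h5 : Prime F := hirr.prime
    exact Ideal.Quotient.isDomain_iff_prime _ |>.2 ((Ideal.span_singleton_prime h5.ne_zero).2 h5)
  let K := FractionRing (AdjoinRoot F)
  have hinj : Function.Injective (algebraMap (AdjoinRoot F) K) := IsFractionRing.injective _ K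
  refine ⟨K, inferInstance, (algebraMap (AdjoinRoot F) K).comp (AdjoinRoot.mk F), ?_, ?_⟩
  · ext x
    rw [RingHom.mem_ker, RingHom.comp_apply, map_eq_zero_iff _ hinj, AdjoinRoot.mk_eq_zero,
      Ideal.mem_span_singleton]
  · rw [RingHom.comp_apply]
    refine (map_ne_zero_iff _ hinj).2 ?_
    refine AdjoinRoot.mk_ne_zero_of_natDegree_lt hF ?_ ?_
    · intro h1
      have h2 := natDegree_eq_zero_of_derivative_eq_zero h1
      omega
    · exact natDegree_derivative_lt hn.ne'

/-- The leading constant. -/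
theorem exists_unit {F : k[X][X]} (hF : F.Monic) (hn : 0 < F.natDegree) {G : k[X]}
    (hG : 2 ≤ G.natDegree)
    (hdeg : ∀ i < F.natDegree, (F.coeff i).natDegree < (F.natDegree - i) * G.natDegree) :
    ∃ u : k, u ≠ 0 ∧ (C (MvPolynomial.C u) * Phi2 F G).Monic := by
  have hl0 : G.leadingCoeff ≠ 0 := by
    intro h0
    rw [leadingCoeff_eq_zero] at h0
    rw [h0, natDegree_zero] at hG
    omega
  refine ⟨(G.leadingCoeff ^ F.natDegree)⁻¹, inv_ne_zero (pow_ne_zero _ hl0), ?_⟩
  unfold Monic
  rw [leadingCoeff_mul, leadingCoeff_C, (phi2_lead hF hn hG hdeg).2, ← map_mul,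
    inv_mul_cancel₀ (pow_ne_zero _ hl0), map_one]

/-- Irreducibility from double transitivity. -/
theorem irr_of_quo {p : k[X]} (hp : p.Monic) (hn : 1 < p.natDegree)
    (hdom : IsDomain (AdjoinRoot (quo p))) : Irreducible p := by
  haveI := hdom
  have hq := quo_monic hp
  haveI : Nontrivial (AdjoinRoot p) := AdjoinRoot.nontrivial p
    (natDegree_pos_iff_degree_pos.1 (by omega)).ne'
  have h1 : (quo p).natDegree = p.natDegree - 1 := by
    unfold quo
    rw [natDegree_divByMonic _ (monic_X_sub_C _), natDegree_X_sub_C, hp.natDegree_map]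
  have hinj : Function.Injective (AdjoinRoot.of (quo p)) := by
    rw [injective_iff_map_eq_zero]
    intro a ha
    by_contra hne
    rw [← AdjoinRoot.mk_C] at ha
    refine AdjoinRoot.mk_ne_zero_of_natDegree_lt hq (C_ne_zero.2 hne) ?_ ha
    rw [natDegree_C, h1]
    omega
  have h2 : IsDomain (AdjoinRoot p) := hinj.isDomain _
  have h3 : Prime p := (Ideal.span_singleton_prime hp.ne_zero).1
    ((Ideal.Quotient.isDomain_iff_prime _).1 h2)
  exact h3.irreducible

end generic

section fin

variable {k : Type} [Field k] [CharZero k] {F : k[X][X]}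

/-- The values which are irreducible divisors of a given polynomial. -/
theorem fin_irr_dvd (hF : F.Monic) (hn : 0 < F.natDegree) {D : k[X]} (hD : D ≠ 0) (G : k[X])
    {u : k} (hu : u ≠ 0) (hm : ∀ v : Fin 2 → ℤ, (C u * eG F (sec G v)).Monic) :
    {v : Fin 2 → ℤ | Irreducible (eG F (sec G v)) ∧ eG F (sec G v) ∣ D}.Finite := by
  have hun : IsUnit (C u : k[X]) := (isUnit_iff_ne_zero.2 hu).map C
  have hfin : (⋃ q ∈ (UniqueFactorizationMonoid.normalizedFactors D).toFinset,
      {v : Fin 2 → ℤ | C u * eG F (sec G v) = q}).Finite := by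
    refine Set.Finite.biUnion (Finset.finite_toSet _) fun q _ => ?_
    set P : k[X][X] := F - C (C u⁻¹ * q) with hP
    have hP0 : P ≠ 0 := by
      intro h0
      have h1 : F = C (C u⁻¹ * q) := sub_eq_zero.1 h0
      rw [h1, natDegree_C] at hn
      exact lt_irrefl _ hn
    refine Set.Finite.subset ((Polynomial.finite_setOfPred_isRoot hP0).preimage
      ((sec_inj G).injOn)) ?_
    intro v hv
    have hv' : C u * eG F (sec G v) = q := hv
    show P.IsRoot (sec G v)
    rw [hP, IsRoot, eval_sub, eval_C, ← hv', ← mul_assoc, ← C_mul, inv_mul_cancel₀ hu, C_1, one_mul]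
    exact sub_self _
  refine hfin.subset ?_
  rintro v ⟨h1, h2⟩
  refine Set.mem_biUnion (x := C u * eG F (sec G v)) ?_ rfl
  show C u * eG F (sec G v) ∈ (UniqueFactorizationMonoid.normalizedFactors D).toFinset
  rw [Multiset.mem_toFinset, Polynomial.mem_normalizedFactors_iff hD]
  exact ⟨(irreducible_isUnit_mul hun).2 h1, hm v, (hun.mul_left_dvd).2 h2⟩

end fin

section ud

variable {k : Type} [Field k] [NumberField k] {F : k[X][X]}

/-- **Double transitivity for almost all sections.** -/
theorem ud_sec (hF : F.Monic) (hirr : Irreducible F) (hn : 1 < F.natDegree)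
    (hgi : ∀ (k' : Type) [Field k'] [Algebra k k'], Irreducible (F.map (mapRingHom (algebraMap k k'))))
    {G : k[X]} (hG : 2 ≤ G.natDegree)
    (hdeg : ∀ i < F.natDegree, (F.coeff i).natDegree < (F.natDegree - i) * G.natDegree) :
    ∃ u : k, u ≠ 0 ∧ (∀ v : Fin 2 → ℤ, (C u * eG F (sec G v)).Monic ∧
      (C u * eG F (sec G v)).natDegree = F.natDegree * G.natDegree) ∧
      ∀ ε : ℝ, 0 < ε → UD ε {v : Fin 2 → ℤ | ¬ (Irreducible (C u * eG F (sec G v)) ∧
        IsDomain (AdjoinRoot (quo (C u * eG F (sec G v)))) ∧ ¬ eG F (sec G v) ∣ F.discr)} := by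
  obtain ⟨u, hu, hm⟩ := exists_unit hF (by omega) hG hdeg
  set e := C (MvPolynomial.C u) * Phi2 F G with he
  have hev : ∀ v : Fin 2 → ℤ, e.map (spc k v) = C u * eG F (sec G v) := by
    intro v
    rw [he, Polynomial.map_mul, map_C, phi2_spc]
    have h3 : spc k v (MvPolynomial.C u) = u := MvPolynomial.eval_C _
    rw [h3]
  have hed : e.natDegree = F.natDegree * G.natDegree := by
    rw [he, natDegree_C_mul ((map_ne_zero_iff _ (MvPolynomial.C_injective _ k)).2 hu),
      (phi2_lead hF (by omega) hG hdeg).1]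
  have hmv : ∀ v : Fin 2 → ℤ, (C u * eG F (sec G v)).Monic := fun v => by
    rw [← hev]
    exact hm.map _
  have hdv : ∀ v : Fin 2 → ℤ, (C u * eG F (sec G v)).natDegree = F.natDegree * G.natDegree :=
    fun v => by rw [← hev, hm.natDegree_map, hed]
  have hN : 1 < e.natDegree := by
    rw [hed]
    calc 1 < 2 * 2 := by norm_num
      _ ≤ F.natDegree * G.natDegree := Nat.mul_le_mul hn hG
  refine ⟨u, hu, fun v => ⟨hmv v, hdv v⟩, ?_⟩
  obtain ⟨K, _, κ, h1, h2⟩ := exists_kappa hF hirr (by omega)
  have h3 : Irreducible (F.map (mapRingHom (κ.comp (C.comp C)))) := by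
    letI : Algebra k K := (κ.comp (C.comp C)).toAlgebra
    exact hgi K
  have hdom : IsDomain (AdjoinRoot (quo e)) := trans_core hF (by omega) h1 h2 h3 G hm hu rfl
  have hfin := fin_irr_dvd hF (by omega) (discr_ne hF hirr (by omega)) G hu hmv
  have hun : IsUnit (C u : k[X]) := (isUnit_iff_ne_zero.2 hu).map C
  intro ε hε
  refine Pool.Agent.Y706.UD_mono ?_ (ud_union_fin (S := {v : Fin 2 → ℤ |
    ¬ IsDomain (AdjoinRoot (quo (e.map (spc k v))))}) (fun ε hε => ud_two hm hN hdom hε) hfin hε)
  intro v hv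
  by_contra hcon
  rw [Set.mem_union, not_or] at hcon
  obtain ⟨h4, h5⟩ := hcon
  apply hv
  have h6 : IsDomain (AdjoinRoot (quo (e.map (spc k v)))) := not_not.1 h4
  rw [hev] at h6
  have h7 : Irreducible (C u * eG F (sec G v)) := irr_of_quo (hmv v) (by
    rw [hdv, ← hed]
    exact hN) h6
  exact ⟨h7, h6, fun h8 => h5 ⟨(irreducible_isUnit_mul hun).1 h7, h8⟩⟩

end ud

end Pool.Agent.Q45.NE
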