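import Pool.Agent.Q45.NE.CritB
import Pool.Agent.Q45.NE.Fld

/-!
# The descent
-/

set_option autoImplicit false
set_option linter.all false

open Polynomial IsDedekindDomain WithZero
open scoped Classical

namespace Pool.Agent.Q45.NE

open Pool.Agent.Q45.TG (ds coeff_ds ds_map fF fF_monic fF_natDegree irr_base sep_fF IsBr even_cls upF)
open Pool.Agent.Y160.SE (IsPw)
open Pool.Agent.Y160.SQ

section desc

variable {k : Type} [Field k] {F : k[X][X]} {θ₀ : AdjoinRoot F}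

/-- Elements with even valuations. -/
theorem even_unit (hB : IsBr 2 F) {K N : Type} [Field K] [Algebra k[X] K] [Field N]
    [Algebra (AdjoinRoot F) N] [Algebra K N] [Algebra k[X] N]
    [IsScalarTower k[X] (AdjoinRoot F) N] [IsScalarTower k[X] K N] [IsDedekindDomain (AdjoinRoot F)]
    [IsFractionRing (AdjoinRoot F) N] {z : N} (hz : z ≠ 0)
    (hev : ∀ v : HeightOneSpectrum (AdjoinRoot F), IsPw 2 (v.valuation N z)) :
    ∃ (u : K) (w : N), u ≠ 0 ∧ w ≠ 0 ∧ z = algebraMap K N u * w ^ 2 := by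
  obtain ⟨u, w, hw, rfl⟩ := even_cls two_ne_zero (RingEquiv.refl (AdjoinRoot F)) hB.cls hz hev
  obtain ⟨a, ha⟩ := hB.units u
  have h1 : algebraMap (AdjoinRoot F) N (RingEquiv.refl (AdjoinRoot F) (u : AdjoinRoot F)) =
      algebraMap K N (algebraMap k[X] K (C a)) := by
    rw [RingEquiv.refl_apply, ha, ← IsScalarTower.algebraMap_apply k[X] K N,
      IsScalarTower.algebraMap_apply k[X] (AdjoinRoot F) N]
    rfl
  refine ⟨algebraMap k[X] K (C a), w, ?_, hw, by rw [h1]⟩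
  intro h0
  rw [h1, h0, map_zero, zero_mul] at hz
  exact hz rfl

/-- The descent. -/
theorem desc_ev (hB : IsBr 2 F) {K N : Type} [Field K] [Algebra k[X] K] [Field N]
    [Algebra (AdjoinRoot F) N] [Algebra K N] [Algebra k[X] N]
    [IsScalarTower k[X] (AdjoinRoot F) N] [IsScalarTower k[X] K N] [IsDedekindDomain (AdjoinRoot F)]
    [IsFractionRing (AdjoinRoot F) N] (hθ : θ₀ ≠ 0) {z : N} (hz : z ≠ 0) (hev : Ev θ₀ z) :
    ∃ (u : K) (w : N), u ≠ 0 ∧ w ≠ 0 ∧ (z = algebraMap K N u * w ^ 2 ∨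
        z = algebraMap K N u * w ^ 2 * algebraMap (AdjoinRoot F) N θ₀) := by
  obtain ⟨h1, i, hi⟩ := hev
  have hθN : algebraMap (AdjoinRoot F) N θ₀ ≠ 0 :=
    (map_ne_zero_iff _ (IsFractionRing.injective (AdjoinRoot F) N)).2 hθ
  obtain ⟨u, w, hu, hw, h2⟩ := even_unit (K := K) (z := z * algebraMap (AdjoinRoot F) N θ₀ ^ i) hB
    (mul_ne_zero hz (pow_ne_zero _ hθN)) (fun v => by
      by_cases hv : θ₀ ∈ v.asIdeal
      · exact hi v hv
      · rw [map_mul, map_pow]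
        refine (h1 v hv).mul ⟨1, ?_⟩
        rw [v.valuation_of_algebraMap, v.intValuation_eq_one_iff.2 hv, one_pow, one_pow])
  rcases Nat.even_or_odd i with ⟨m, hm⟩ | ⟨m, hm⟩
  · refine ⟨u, w / algebraMap (AdjoinRoot F) N θ₀ ^ m, hu, div_ne_zero hw (pow_ne_zero _ hθN),
      Or.inl ?_⟩
    rw [hm, ← two_mul, mul_comm 2 m, pow_mul] at h2
    rw [div_pow, ← mul_div_assoc, ← h2, mul_div_cancel_right₀ _ (pow_ne_zero _ (pow_ne_zero _ hθN))]
  · refine ⟨u, w / algebraMap (AdjoinRoot F) N θ₀ ^ (m + 1), hu,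
      div_ne_zero hw (pow_ne_zero _ hθN), Or.inr ?_⟩
    have h3 : algebraMap (AdjoinRoot F) N θ₀ ^ i * algebraMap (AdjoinRoot F) N θ₀ =
        (algebraMap (AdjoinRoot F) N θ₀ ^ (m + 1)) ^ 2 := by
      rw [← pow_succ, ← pow_mul, hm]
      congr 1
      ring
    rw [div_pow, ← mul_div_assoc, ← h2, div_mul_eq_mul_div, mul_assoc, h3,
      mul_div_cancel_right₀ _ (pow_ne_zero _ (pow_ne_zero _ hθN))]

/-- Odd powers of `θ₀` are not squares up to sign. -/
theorem odd_pow [IsDedekindDomain (AdjoinRoot F)] {N : Type} [Field N] [Algebra (AdjoinRoot F) N]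
    [IsFractionRing (AdjoinRoot F) N] (hθ : θ₀ ≠ 0)
    (hsq : ∀ s : AdjoinRoot F, θ₀ ≠ s ^ 2 ∧ θ₀ ≠ -s ^ 2) (j : ℕ) (w : N) (hj : Odd j) :
    algebraMap (AdjoinRoot F) N θ₀ ^ j ≠ w ^ 2 ∧ algebraMap (AdjoinRoot F) N θ₀ ^ j ≠ -w ^ 2 := by
  obtain ⟨m, rfl⟩ := hj
  have hθN : algebraMap (AdjoinRoot F) N θ₀ ≠ 0 :=
    (map_ne_zero_iff _ (IsFractionRing.injective (AdjoinRoot F) N)).2 hθ
  have key : ∀ (t : AdjoinRoot F) (r : N), r ^ 2 = algebraMap (AdjoinRoot F) N t →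
      ∃ s : AdjoinRoot F, t = s ^ 2 := by
    intro t r hr
    have h1 : IsIntegral (AdjoinRoot F) r := by
      refine IsIntegral.of_pow two_pos ?_
      rw [hr]
      exact isIntegral_algebraMap
    obtain ⟨s, hs⟩ := IsIntegrallyClosed.isIntegral_iff.1 h1
    refine ⟨s, IsFractionRing.injective (AdjoinRoot F) N ?_⟩
    rw [map_pow, hs, hr]
  constructor
  · intro h
    obtain ⟨s, hs⟩ := key θ₀ (w / algebraMap (AdjoinRoot F) N θ₀ ^ m) (by
      rw [div_pow, ← h, pow_succ, mul_comm 2 m, pow_mul,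
        mul_div_cancel_left₀ _ (pow_ne_zero _ (pow_ne_zero _ hθN))])
    exact (hsq s).1 hs
  · intro h
    obtain ⟨s, hs⟩ := key (-θ₀) (w / algebraMap (AdjoinRoot F) N θ₀ ^ m) (by
      have h1 : w ^ 2 = -algebraMap (AdjoinRoot F) N θ₀ ^ (2 * m + 1) := by rw [h, neg_neg]
      rw [div_pow, h1, pow_succ, mul_comm 2 m, pow_mul, ← mul_neg,
        mul_div_cancel_left₀ _ (pow_ne_zero _ (pow_ne_zero _ hθN)), map_neg])
    exact (hsq s).2 (by rw [← hs, neg_neg])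

end desc

end Pool.Agent.Q45.NE
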