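import Pool.Agent.Q45.NE.Stm

/-!
# Doubly transitive polynomials
-/

set_option autoImplicit false
set_option linter.all false

open Polynomial
open scoped Classical

namespace Pool.Agent.Q45.NE

/-- The factorization. -/
theorem quo_mul {R : Type} [CommRing R] (p : R[X]) :
    (X - C (AdjoinRoot.root p)) * quo p = p.map (AdjoinRoot.of p) := by
  refine mul_divByMonic_eq_iff_isRoot.2 ?_
  rw [IsRoot, eval_map, AdjoinRoot.eval₂_root]

theorem quo_monic {R : Type} [CommRing R] {p : R[X]} (hp : p.Monic) : (quo p).Monic := by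
  have h1 : (p.map (AdjoinRoot.of p)).Monic := hp.map _
  rw [← quo_mul p] at h1
  exact (monic_X_sub_C _).of_mul_monic_left h1

section field

variable {k : Type} [Field k] {p : k[X]}

/-- The embedding given by two roots. -/
theorem exists_emb2 (hirr : Irreducible p) {E : Type} [Field E] [Algebra k E] {a b : E}
    (ha : aeval a p = 0) (hb : aeval b p = 0) (hab : a ≠ b) :
    ∃ φ : AdjoinRoot (quo p) →ₐ[k] E, φ (AdjoinRoot.of (quo p) (AdjoinRoot.root p)) = a ∧
      φ (AdjoinRoot.root (quo p)) = b := by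
  let f1 : AdjoinRoot p →+* E := AdjoinRoot.lift (algebraMap k E) a ha
  have hf1 : f1 (AdjoinRoot.root p) = a := AdjoinRoot.lift_root _
  have h2 : (quo p).eval₂ f1 b = 0 := by
    have h3 := congrArg (eval₂ f1 b) (quo_mul p)
    have h4 : f1.comp (AdjoinRoot.of p) = algebraMap k E := by
      ext x
      exact AdjoinRoot.lift_of (f := p) ha
    rw [eval₂_mul, eval₂_sub, eval₂_X, eval₂_C, hf1, eval₂_map, h4] at h3
    have h5 : eval₂ (algebraMap k E) b p = 0 := hb
    rw [h5] at h3
    exact (mul_eq_zero.1 h3).resolve_left (sub_ne_zero.2 hab.symm)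
  let f2 : AdjoinRoot (quo p) →+* E := AdjoinRoot.lift f1 b h2
  refine ⟨{ f2 with commutes' := fun r => ?_ }, ?_, ?_⟩
  · show f2 (AdjoinRoot.of (quo p) (AdjoinRoot.of p r)) = algebraMap k E r
    rw [AdjoinRoot.lift_of, AdjoinRoot.lift_of]
  · show f2 (AdjoinRoot.of (quo p) (AdjoinRoot.root p)) = a
    rw [AdjoinRoot.lift_of, hf1]
  · show f2 (AdjoinRoot.root (quo p)) = b
    exact AdjoinRoot.lift_root _

/-- Double transitivity. -/
theorem two_trans (hp : p.Monic) (hirr : Irreducible p) (hdom : IsDomain (AdjoinRoot (quo p)))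
    {E : Type} [Field E] [Algebra k E] [Normal k E] {a b c d : E}
    (ha : aeval a p = 0) (hb : aeval b p = 0) (hab : a ≠ b) (hc : aeval c p = 0)
    (hd : aeval d p = 0) (hcd : c ≠ d) : ∃ g : E ≃ₐ[k] E, g a = c ∧ g b = d := by
  haveI := hdom
  haveI : Fact (Irreducible p) := ⟨hirr⟩
  haveI : Module.Finite k (AdjoinRoot p) := hp.finite_adjoinRoot
  haveI : Module.Finite (AdjoinRoot p) (AdjoinRoot (quo p)) :=
    (quo_monic hp).finite_adjoinRoot
  haveI : Module.Finite k (AdjoinRoot (quo p)) := Module.Finite.trans (AdjoinRoot p) _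
  letI : Field (AdjoinRoot (quo p)) := (isField_of_isIntegral_of_isField'
    (R := k) (S := AdjoinRoot (quo p)) (Field.toIsField k)).toField
  obtain ⟨φ, hφ1, hφ2⟩ := exists_emb2 hirr ha hb hab
  obtain ⟨ψ, hψ1, hψ2⟩ := exists_emb2 hirr hc hd hcd
  let e1 : AdjoinRoot (quo p) ≃ₐ[k] φ.fieldRange := AlgEquiv.ofInjectiveField φ
  let e2 : AdjoinRoot (quo p) ≃ₐ[k] ψ.fieldRange := AlgEquiv.ofInjectiveField ψ
  let χ : φ.fieldRange ≃ₐ[k] ψ.fieldRange := e1.symm.trans e2
  have key : ∀ x, χ.liftNormal E (φ x) = ψ x := by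
    intro x
    have h1 := χ.liftNormal_commutes E (e1 x)
    have h2 : χ (e1 x) = e2 x := by
      show e2 (e1.symm (e1 x)) = e2 x
      rw [e1.symm_apply_apply]
    rw [h2] at h1
    exact h1
  refine ⟨χ.liftNormal E, ?_, ?_⟩
  · rw [← hφ1, key, hψ1]
  · rw [← hφ2, key, hψ2]

/-- The polynomial is irreducible or splits over a Galois extension. -/
theorem gal : GalS := by
  intro k _ p hp hirr hsep hdom E _ _ _ hns
  let Om := AlgebraicClosure E
  haveI : Algebra.IsAlgebraic k E := inferInstance
  haveI : Algebra.IsAlgebraic k Om := Algebra.IsAlgebraic.trans k E Om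
  haveI : Normal k Om := normal_iff.2 fun x => ⟨Algebra.IsIntegral.isIntegral x, IsAlgClosed.splits _⟩
  haveI : Normal E Om := inferInstance
  set f := p.map (algebraMap k E) with hf
  have hfm : f.Monic := hp.map _
  have hfs : f.Separable := hsep.map
  -- a factor of degree at least two
  obtain ⟨q, hq, hqf, hqd⟩ : ∃ q : E[X], Irreducible q ∧ q ∣ f ∧ q.degree ≠ 1 := by
    by_contra hcon
    push Not at hcon
    exact hns (splits_iff_splits.2 (Or.inr fun {g} hg hgf => hcon g hg hgf))
  obtain ⟨a, ha⟩ := IsAlgClosed.exists_aeval_eq_zero Om q hq.degree_pos.ne'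
  have hroot : ∀ x : Om, aeval x q = 0 → aeval x p = 0 := by
    intro x hx
    obtain ⟨r, hr⟩ := hqf
    have h1 : aeval x f = 0 := by rw [hr, map_mul, hx, zero_mul]
    rw [hf, aeval_map_algebraMap] at h1
    exact h1
  have hqs : q.Separable := hfs.of_dvd hqf
  obtain ⟨b, hb, hab⟩ : ∃ b : Om, aeval b q = 0 ∧ a ≠ b := by
    have h0 : q.map (algebraMap E Om) ≠ 0 :=
      (Polynomial.map_ne_zero_iff (algebraMap E Om).injective).2 hq.ne_zero
    have hnd : (q.map (algebraMap E Om)).roots.Nodup := nodup_roots hqs.map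
    have hq2 : 1 < q.natDegree := by
      have h1 := hq.natDegree_pos
      have h2 : q.natDegree ≠ 1 := fun h => hqd ((degree_eq_iff_natDegree_eq_of_pos one_pos).2 h)
      omega
    have hcard : 1 < (q.map (algebraMap E Om)).roots.toFinset.card := by
      rw [Multiset.toFinset_card_of_nodup hnd, ← (IsAlgClosed.splits _).natDegree_eq_card_roots,
        natDegree_map]
      exact hq2
    obtain ⟨b, hb, hne⟩ := Finset.exists_mem_ne hcard a
    rw [Multiset.mem_toFinset, mem_roots h0, IsRoot, eval_map] at hb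
    exact ⟨b, hb, hne.symm⟩
  obtain ⟨σ, hσ⟩ : ∃ σ : Om ≃ₐ[E] Om, σ a = b := by
    refine isConjRoot_iff_exists_algEquiv.1 ?_
    show minpoly E b = minpoly E a
    rw [← minpoly.eq_of_irreducible hq ha, ← minpoly.eq_of_irreducible hq hb]
  -- all roots are roots of `q`
  have hall : ∀ c : Om, aeval c p = 0 → aeval c q = 0 := by
    intro c hc
    by_cases hca : a = c
    · rw [← hca]; exact ha
    obtain ⟨g, hg1, hg2⟩ := two_trans hp hirr hdom (hroot a ha) (hroot b hb) hab (hroot a ha) hc hca
    have hE : ∀ x : E, ∃ y : E, g.symm (algebraMap E Om x) = algebraMap E Om y := by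
      intro x
      exact ⟨(g.symm.restrictNormal E) x, (g.symm.restrictNormal_commutes E x).symm⟩
    let τ : Om →ₐ[E] Om :=
      { (g.toRingEquiv.toRingHom.comp (σ.toRingEquiv.toRingHom.comp g.symm.toRingEquiv.toRingHom)) with
        commutes' := fun x => by
          obtain ⟨y, hy⟩ := hE x
          show g (σ (g.symm (algebraMap E Om x))) = algebraMap E Om x
          rw [hy, σ.commutes, ← hy, g.apply_symm_apply] }
    have h1 : τ a = c := by
      show g (σ (g.symm a)) = c
      have h2 : g.symm a = a := by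
        rw [AlgEquiv.symm_apply_eq, hg1]
      rw [h2, hσ, hg2]
    rw [← h1, aeval_algHom_apply, ha, map_zero]
  -- `f` divides `q`
  have hfq : f ∣ q := by
    rw [← Polynomial.map_dvd_map' (algebraMap E Om)]
    refine (IsAlgClosed.splits (f.map (algebraMap E Om))).dvd_of_roots_le_roots ?_ ?_
    · exact (Polynomial.map_ne_zero_iff (algebraMap E Om).injective).2 hfm.ne_zero
    · refine (Multiset.le_iff_subset (nodup_roots (hfs.map))).2 ?_
      intro c hc
      rw [mem_roots ((Polynomial.map_ne_zero_iff (algebraMap E Om).injective).2 hfm.ne_zero), IsRoot,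
        eval_map, ← aeval_def] at hc
      rw [mem_roots ((Polynomial.map_ne_zero_iff (algebraMap E Om).injective).2 hq.ne_zero), IsRoot,
        eval_map, ← aeval_def]
      refine hall c ?_
      rw [hf, aeval_map_algebraMap] at hc
      exact hc
  exact (associated_of_dvd_dvd hqf hfq).irreducible hq

/-- The polynomial does not split over an abelian extension. -/
theorem ab : AbS := by
  intro k _ p hp hirr hsep hdom hn E _ _ _ hab hs
  have hm : (p.map (algebraMap k E)).Monic := hp.map _
  have hnd : (p.map (algebraMap k E)).roots.Nodup := nodup_roots hsep.map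
  have hcard : 3 ≤ (p.map (algebraMap k E)).roots.toFinset.card := by
    rw [Multiset.toFinset_card_of_nodup hnd, ← hs.natDegree_eq_card_roots, hp.natDegree_map]
    exact hn
  obtain ⟨a, ha, b, hb, c, hc, h1, h2, h3⟩ := Finset.two_lt_card.1 hcard
  have hr : ∀ x ∈ (p.map (algebraMap k E)).roots.toFinset, aeval x p = 0 := by
    intro x hx
    rw [Multiset.mem_toFinset, mem_roots hm.ne_zero, IsRoot, eval_map] at hx
    exact hx
  obtain ⟨g, hg1, hg2⟩ := two_trans hp hirr hdom (hr a ha) (hr b hb) h1 (hr a ha) (hr c hc) h2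
  obtain ⟨σ, hσ1, hσ2⟩ := two_trans hp hirr hdom (hr a ha) (hr b hb) h1 (hr b hb) (hr a ha) h1.symm
  have h4 := congrArg (fun τ : E ≃ₐ[k] E => τ a) (hab g σ)
  have h5 : g (σ a) = σ (g a) := h4
  rw [hσ1, hg2, hg1, hσ1] at h5
  exact h3 h5.symm

end field

end Pool.Agent.Q45.NE
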