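import Pool.Agent.Q45.NE.Iden
import Pool.Agent.Q45.NE.Loc2
import Pool.Agent.Y160.SQ.Defs

/-!
# The local condition at a point of the curve `F = 0` where `w - G` is a unit
-/

set_option autoImplicit false
set_option linter.all false

open Polynomial IsDedekindDomain WithZero
open scoped Classical

namespace Pool.Agent.Q45.NE

open Pool.Agent.Y160.SE (IsPw)
open Pool.Agent.Y160.SQ (LP)

section field

variable {L : Type} [Field L] {F : L[X]} {G : L}

/-- The polynomial of `e / ξ`. -/
noncomputable def hh (g : L[X]) (e : L) : L[X] :=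
  ∑ i ∈ Finset.range (g.natDegree + 1), C (g.coeff i * e ^ i) * X ^ (g.natDegree - i)

theorem hh_coeff (g : L[X]) (e : L) : (hh g e).coeff g.natDegree = g.coeff 0 := by
  rw [hh, finsetSum_coeff, Finset.sum_eq_single 0]
  · rw [coeff_C_mul, Nat.sub_zero, coeff_X_pow_self, pow_zero, mul_one, mul_one]
  · intro i _ hi0
    rw [coeff_C_mul, coeff_X_pow]
    split_ifs with h
    · by_cases h2 : g.natDegree = 0
      · have h3 : i ≠ 0 := hi0
        have h4 : i ≤ 0 := by
          rename_i hi
          rw [Finset.mem_range, h2] at hi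
          omega
        omega
      · omega
    · rw [mul_zero]
  · intro h
    exact absurd (Finset.mem_range.2 (Nat.succ_pos _)) h

theorem hh_natDegree (g : L[X]) (e : L) : (hh g e).natDegree ≤ g.natDegree := by
  refine natDegree_sum_le_of_forall_le _ _ fun i _ => ?_
  refine (natDegree_C_mul_X_pow_le _ _).trans (Nat.sub_le _ _)

theorem hh_eval {κ : Type} [Field κ] (φ : L →+* κ) (g : L[X]) (e : L) {x W : κ}
    (hxW : x * W = φ e) : eval₂ φ W (hh g e) = W ^ g.natDegree * eval₂ φ x g := by
  rw [hh, eval₂_finset_sum, eval₂_eq_sum_range, Finset.mul_sum]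
  refine Finset.sum_congr rfl fun i hi => ?_
  rw [Finset.mem_range] at hi
  have h1 : W ^ g.natDegree = W ^ i * W ^ (g.natDegree - i) := by
    rw [← pow_add, Nat.add_sub_cancel' (by omega)]
  rw [eval₂_mul, eval₂_C, eval₂_X_pow, map_mul, map_pow, ← hxW, h1, mul_pow]
  ring

theorem frac_aux {κ : Type} [Field κ] {ω ξ s : κ} (h : ξ ≠ 0) (m : ℕ) :
    ω * (ω * ξ * s ^ 2 / ξ ^ (2 * m + 1)) = ω ^ 2 * (s ^ 2 / (ξ ^ m) ^ 2) := by
  have h1 : ξ ^ (2 * m + 1) = (ξ ^ m) ^ 2 * ξ := by rw [pow_succ, mul_comm 2 m, pow_mul]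
  rw [h1]
  have h2 : ξ ^ m ≠ 0 := pow_ne_zero _ h
  field_simp

/-- The transform of a divisor. -/
theorem exists_star (hodd : Odd F.natDegree) (he : eG F G ≠ 0) {g c : L[X]}
    (hg : g.Monic) (hgi : Irreducible g) (hgc : g ∣ model F G - c ^ 2) (h0 : g ≠ X) :
    ∃ p c' : L[X], p.Monic ∧ Irreducible p ∧ p ∣ X * taylor G F - c' ^ 2 ∧ g.coeff 0 ≠ 0 ∧
      hh g (eG F G) = C (g.coeff 0) * p := by
  let Ω := AlgebraicClosure L
  obtain ⟨ξ, hξ⟩ := IsAlgClosed.exists_aeval_eq_zero Ω g hgi.degree_pos.ne'
  have hξg : minpoly L ξ = g := (minpoly.eq_of_irreducible_of_monic hgi hξ hg).symm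
  have hg0 : g.coeff 0 ≠ 0 := by
    intro h1
    have h2 : X ∣ g := X_dvd_iff.2 h1
    exact h0 (eq_of_monic_of_associated monic_X hg (irreducible_X.associated_of_dvd hgi h2)).symm
  have hξ0 : ξ ≠ 0 := by
    rintro rfl
    rw [aeval_def, eval₂_at_zero] at hξ
    exact hg0 ((map_eq_zero_iff _ (algebraMap L Ω).injective).1 hξ)
  set e : L := eG F G with hee
  have heΩ : algebraMap L Ω e ≠ 0 := (map_ne_zero_iff _ (algebraMap L Ω).injective).2 he
  obtain ⟨ω, hω⟩ : ∃ ω : Ω, ω = algebraMap L Ω e / ξ := ⟨_, rfl⟩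
  have hωm : ω * ξ = algebraMap L Ω e := by rw [hω, div_mul_cancel₀ _ hξ0]
  have hω0 : ω ≠ 0 := by rw [hω]; exact div_ne_zero heΩ hξ0
  have hωi : IsIntegral L ω := Algebra.IsIntegral.isIntegral ω
  have hξi : IsIntegral L ξ := Algebra.IsIntegral.isIntegral ξ
  have hadj : IntermediateField.adjoin L {ω} = IntermediateField.adjoin L {ξ} := by
    apply le_antisymm
    · rw [IntermediateField.adjoin_simple_le_iff, hω]
      exact div_mem (IntermediateField.algebraMap_mem _ _)
        (IntermediateField.mem_adjoin_simple_self L ξ)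
    · rw [IntermediateField.adjoin_simple_le_iff]
      have h1 : ξ = algebraMap L Ω e / ω := by
        rw [← hωm, mul_div_cancel_left₀ _ hω0]
      rw [h1]
      exact div_mem (IntermediateField.algebraMap_mem _ _)
        (IntermediateField.mem_adjoin_simple_self L ω)
  have hdeg : (minpoly L ω).natDegree = g.natDegree := by
    rw [← IntermediateField.adjoin.finrank hωi, hadj, IntermediateField.adjoin.finrank hξi, hξg]
  -- the square root
  obtain ⟨m, hm⟩ := hodd
  obtain ⟨c', hc'⟩ : ∃ c' : L[X], aeval ω c' = ω * (aeval ξ c / ξ ^ m) := by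
    have h1 : ω * (aeval ξ c / ξ ^ m) ∈ IntermediateField.adjoin L {ω} := by
      refine mul_mem (IntermediateField.mem_adjoin_simple_self L ω) ?_
      rw [hadj]
      have h2 : ξ ∈ IntermediateField.adjoin L {ξ} := IntermediateField.mem_adjoin_simple_self L ξ
      refine div_mem ?_ (pow_mem h2 m)
      have h3 : aeval ξ c = algebraMap (IntermediateField.adjoin L {ξ}) Ω
          (aeval (IntermediateField.AdjoinSimple.gen L ξ) c) := by
        rw [← aeval_algebraMap_apply, IntermediateField.AdjoinSimple.algebraMap_gen]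
      rw [h3]
      exact SetLike.coe_mem _
    have h2 : ω * (aeval ξ c / ξ ^ m) ∈ Algebra.adjoin L {ω} := by
      rw [← IntermediateField.adjoin_simple_toSubalgebra_of_isAlgebraic hωi.isAlgebraic]
      exact h1
    rw [Algebra.adjoin_singleton_eq_range_aeval] at h2
    obtain ⟨c', hc'⟩ := h2
    exact ⟨c', hc'⟩
  have hcξ : aeval ξ (model F G) = aeval ξ c ^ 2 := by
    obtain ⟨q, hq⟩ := hgc
    have h1 := congrArg (aeval ξ) hq
    rw [map_sub, map_mul, hξ, zero_mul, map_pow, sub_eq_zero] at h1
    exact h1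
  refine ⟨minpoly L ω, c', minpoly.monic hωi, minpoly.irreducible hωi, ?_, hg0, ?_⟩
  · apply minpoly.dvd
    have h1 := eval_model (algebraMap L Ω) (F := F) (G := G) hξ0
    have h2 : aeval ω (taylor G F) = eval₂ (algebraMap L Ω) (algebraMap L Ω G +
        algebraMap L Ω (eG F G) / ξ) F := by
      rw [taylor_apply, aeval_def, eval₂_comp, eval₂_add, eval₂_X, eval₂_C, add_comm, hω]
    have h3 : eval₂ (algebraMap L Ω) ξ (model F G) = aeval ξ c ^ 2 := hcξ
    rw [h3, ← hee, ← h2, hm] at h1
    rw [map_sub, map_mul, aeval_X, map_pow, hc', sub_eq_zero, mul_pow, div_pow]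
    have h4 : aeval ω (taylor G F) * ξ ^ (2 * m + 1) = algebraMap L Ω e * aeval ξ c ^ 2 := by
      rw [h1, mul_comm]
    have h5 : aeval ω (taylor G F) = algebraMap L Ω e * aeval ξ c ^ 2 / ξ ^ (2 * m + 1) := by
      rw [← h4, mul_div_cancel_right₀ _ (pow_ne_zero _ hξ0)]
    rw [h5, ← hωm]
    exact frac_aux hξ0 m
  · have h1 : minpoly L ω ∣ hh g e := by
      apply minpoly.dvd
      have h2 := hh_eval (algebraMap L Ω) g e (x := ξ) (W := ω) (by
        rw [mul_comm, hωm])
      rw [aeval_def, h2]
      have h3 : eval₂ (algebraMap L Ω) ξ g = 0 := hξ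
      rw [h3, mul_zero]
    obtain ⟨q, hq⟩ := h1
    have hne : hh g e ≠ 0 := by
      intro h2
      have h3 := hh_coeff g e
      rw [h2, coeff_zero] at h3
      exact hg0 h3.symm
    have hq0 : q ≠ 0 := by
      rintro rfl
      rw [mul_zero] at hq
      exact hne hq
    have h2 : q.natDegree = 0 := by
      have h3 := hh_natDegree g e
      rw [hq, natDegree_mul (minpoly.ne_zero hωi) hq0, hdeg] at h3
      omega
    rw [natDegree_eq_zero] at h2
    obtain ⟨b, rfl⟩ := h2
    have h3 := hh_coeff g e
    rw [hq, mul_comm, coeff_C_mul] at h3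
    have h4 : (minpoly L ω).coeff g.natDegree = 1 := by
      rw [← hdeg]
      exact minpoly.monic hωi
    rw [h4, mul_one] at h3
    rw [hq, mul_comm, h3]

end field

section loc

variable {A K : Type} [CommRing A] [IsDedekindDomain A] [Field K] [Algebra A K]
  [IsFractionRing A K] (v : HeightOneSpectrum A)

/-- The embedding in the completion. -/
noncomputable def iL : A →+* v.adicCompletion K :=
  (algebraMap (v.adicCompletionIntegers K) (v.adicCompletion K)).comp
    (algebraMap A (v.adicCompletionIntegers K))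

theorem iL_apply (a : A) : iL (K := K) v a = algebraMap K (v.adicCompletion K) (algebraMap A K a) := rfl

/-- The conditions on the field `E` over the completion and the point `x = e / W`. -/
structure IsPt (F : A[X]) (G : A) {E : Type} [Field E] (wE : Valuation E (WithZero (Multiplicative ℤ)))
    (j : v.adicCompletion K →+* E) (x W : E) : Prop where
  hle : ∀ y, Valued.v y ≤ 1 → wE (j y) ≤ 1
  hlt : ∀ y, Valued.v y < 1 → wE (j y) < 1
  mul : x * W = j (iL v (eG F G))
  unit : wE W = 1
  root : eval₂ (j.comp (iL v)) (j (iL v G) + W) F = 0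
  reg : ∀ a : (v.adicCompletionIntegers K)[X], a.Monic →
    Irreducible (a.map (IsLocalRing.residue (v.adicCompletionIntegers K))) →
    wE (((a.map (algebraMap _ (v.adicCompletion K))).map j).eval W) < 1 →
    (X * taylor G F).map (algebraMap A (v.adicCompletionIntegers K)) ∉
      (Ideal.span {a} ⊔ (IsLocalRing.maximalIdeal (v.adicCompletionIntegers K)).map C) ^ 2

/-- The local condition for one divisor. -/
theorem loc_lam {F : A[X]} {G : A} (hF : F.Monic) (hodd : Odd F.natDegree)
    (he : eG F G ≠ 0) {g c : (v.adicCompletion K)[X]} (hg : g.Monic) (hgi : Irreducible g)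
    (hgc : g ∣ (model F G).map (iL v) - c ^ 2) :
    ∃ lam : v.adicCompletion K, lam ≠ 0 ∧ ∀ (E : Type) [Field E]
      (wE : Valuation E (WithZero (Multiplicative ℤ))) (j : v.adicCompletion K →+* E) (x W : E),
      IsPt v F G wE j x W → IsPw 2 (wE ((g.map j).eval x) * wE (j lam)) := by
  have hinj : Function.Injective (iL (K := K) v) := by
    show Function.Injective (fun a => algebraMap K (v.adicCompletion K) (algebraMap A K a))
    exact (algebraMap K (v.adicCompletion K)).injective.comp (IsFractionRing.injective A K)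
  have heL : eG (F.map (iL (K := K) v)) (iL v G) = iL v (eG F G) := by
    unfold eG
    rw [eval_map, eval₂_at_apply]
  have heL0 : eG (F.map (iL (K := K) v)) (iL v G) ≠ 0 := by
    rw [heL]
    exact (map_ne_zero_iff _ hinj).2 he
  by_cases h0 : g = X
  · refine ⟨iL v (eG F G), (map_ne_zero_iff _ hinj).2 he, ?_⟩
    intro E _ wE j x W h
    rw [h0, map_X, eval_X, ← h.mul, map_mul, h.unit, mul_one]
    exact ⟨wE x, (sq _).symm⟩
  · have hmm : (model F G).map (iL v) = model (F.map (iL (K := K) v)) (iL v G) := model_map _ hF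
    rw [hmm] at hgc
    obtain ⟨p, c', hp, hpi, hpc, hg0, hh1⟩ := exists_star (F := F.map (iL (K := K) v)) (G := iL v G)
      (by rw [hF.natDegree_map]; exact hodd) heL0 hg hgi hgc h0
    have hfo : ((X * taylor G F).map (algebraMap A (v.adicCompletionIntegers K))).map
        (algebraMap (v.adicCompletionIntegers K) (v.adicCompletion K)) =
        X * taylor (iL v G) (F.map (iL (K := K) v)) := by
      rw [Polynomial.map_map, Polynomial.map_mul, map_X, taylor_apply, taylor_apply,
        Polynomial.map_comp, Polynomial.map_add, map_X, map_C]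
      rfl
    have hfm : ((X * taylor G F).map (algebraMap A (v.adicCompletionIntegers K))).Monic := by
      refine Monic.map _ (monic_X.mul ?_)
      unfold Monic
      rw [leadingCoeff_taylor]
      exact hF
    have key : ∀ (E : Type) [Field E] (wE : Valuation E (WithZero (Multiplicative ℤ)))
        (j : v.adicCompletion K →+* E) (x W : E), IsPt v F G wE j x W →
        wE ((g.map j).eval x) = wE (j (g.coeff 0)) * wE ((p.map j).eval W) := by
      intro E _ wE j x W h
      have h1 := hh_eval j g (eG (F.map (iL (K := K) v)) (iL v G)) (x := x) (W := W) (by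
        rw [heL]
        exact h.mul)
      rw [hh1, eval₂_mul, eval₂_C, ← eval_map, ← eval_map] at h1
      have h2 := congrArg wE h1
      rw [map_mul, map_mul, map_pow, h.unit, one_pow, one_mul] at h2
      exact h2.symm
    have dich : ∀ (E : Type) [Field E] (wE : Valuation E (WithZero (Multiplicative ℤ)))
        (j : v.adicCompletion K →+* E) (x W : E), IsPt v F G wE j x W →
        ((∀ i, Valued.v (p.coeff i) ≤ 1) →
          ∃ γ : WithZero (Multiplicative ℤ), wE ((p.map j).eval W) = γ ^ 2) ∧
        (¬ (∀ i, Valued.v (p.coeff i) ≤ 1) →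
          wE ((p.map j).eval W) = wE (j (resultant p X))) := by
      intro E _ wE j x W h
      refine loc 2 v wE j h.hle h.hlt
        ((X * taylor G F).map (algebraMap A (v.adicCompletionIntegers K))) _ p c' W two_pos hfo hfm
        h.reg ?_ hp hpi hpc
      rw [Polynomial.map_mul, map_X, eval_mul, eval_X, taylor_apply, Polynomial.map_comp,
        eval_comp, Polynomial.map_add, map_X, map_C, eval_add, eval_X, eval_C, Polynomial.map_map,
        eval_map, add_comm W]
      rw [h.root, mul_zero]
    by_cases hint : ∀ i, Valued.v (p.coeff i) ≤ 1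
    · refine ⟨g.coeff 0, hg0, ?_⟩
      intro E _ wE j x W h
      obtain ⟨γ, hγ⟩ := (dich E wE j x W h).1 hint
      rw [key E wE j x W h, hγ]
      exact ⟨wE (j (g.coeff 0)) * γ, by rw [mul_pow, sq (wE (j (g.coeff 0))), mul_right_comm]⟩
    · by_cases hr : resultant p X = 0
      · refine ⟨1, one_ne_zero, ?_⟩
        intro E _ wE j x W h
        rw [key E wE j x W h, (dich E wE j x W h).2 hint, hr, map_zero, map_zero, mul_zero, zero_mul]
        exact ⟨0, (zero_pow two_ne_zero).symm⟩
      · refine ⟨g.coeff 0 * resultant p X, mul_ne_zero hg0 hr, ?_⟩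
        intro E _ wE j x W h
        rw [key E wE j x W h, (dich E wE j x W h).2 hint, map_mul, map_mul]
        exact ⟨wE (j (g.coeff 0)) * wE (j (resultant p X)), (sq _).symm⟩

/-- The local condition for a sum of divisors. -/
theorem loc_Lam {F : A[X]} {G : A} (hF : F.Monic) (hodd : Odd F.natDegree)
    (he : eG F G ≠ 0) {g : (v.adicCompletion K)[X]} (hg : LP 2 ((model F G).map (iL v)) g) :
    ∃ lam : v.adicCompletion K, lam ≠ 0 ∧ ∀ (E : Type) [Field E]
      (wE : Valuation E (WithZero (Multiplicative ℤ))) (j : v.adicCompletion K →+* E) (x W : E),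
      IsPt v F G wE j x W → IsPw 2 (wE ((g.map j).eval x) * wE (j lam)) := by
  obtain ⟨s, hs, rfl⟩ := hg
  induction s using Multiset.induction_on with
  | empty =>
    refine ⟨1, one_ne_zero, ?_⟩
    intro E _ wE j x W _
    rw [Multiset.map_zero, Multiset.prod_zero, Polynomial.map_one, eval_one, map_one, map_one,
      map_one, one_mul]
    exact ⟨1, (one_pow _).symm⟩
  | cons y s ih =>
    obtain ⟨l1, hl1, h1⟩ := ih fun x hx => hs x (Multiset.mem_cons_of_mem hx)
    obtain ⟨hm, hi, -, hd, c, hc⟩ := hs y (Multiset.mem_cons_self y s)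
    obtain ⟨l2, hl2, h2⟩ : ∃ lam : v.adicCompletion K, lam ≠ 0 ∧ ∀ (E : Type) [Field E]
        (wE : Valuation E (WithZero (Multiplicative ℤ))) (j : v.adicCompletion K →+* E) (x W : E),
        IsPt v F G wE j x W → IsPw 2 (wE (((y.2 ^ (2 / y.1)).map j).eval x) * wE (j lam)) := by
      rcases (Nat.dvd_prime Nat.prime_two).1 hd with h3 | h3
      · refine ⟨1, one_ne_zero, ?_⟩
        intro E _ wE j x W _
        rw [h3, Nat.div_one, map_one, map_one, mul_one, Polynomial.map_pow, eval_pow, map_pow]
        exact IsPw.self _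
      · rw [h3] at hc
        obtain ⟨l, hl, h4⟩ := loc_lam v hF hodd he hm hi hc
        refine ⟨l, hl, ?_⟩
        intro E _ wE j x W h
        rw [h3, Nat.div_self two_pos, pow_one]
        exact h4 E wE j x W h
    refine ⟨l2 * l1, mul_ne_zero hl2 hl1, ?_⟩
    intro E _ wE j x W h
    rw [Multiset.map_cons, Multiset.prod_cons, Polynomial.map_mul, eval_mul, map_mul, map_mul,
      map_mul]
    have h5 := (h2 E wE j x W h).mul (h1 E wE j x W h)
    have h6 : ∀ a b c d : WithZero (Multiplicative ℤ), a * b * (c * d) = a * c * (b * d) := by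
      intro a b c d
      exact mul_mul_mul_comm a b c d
    rw [h6]
    exact h5

end loc

end Pool.Agent.Q45.NE
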