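import Pool.Agent.Y160.SQ.LocC

/-!
# The Kummer generator over the completions above one place
-/

set_option autoImplicit false
set_option linter.all false

open Polynomial IsDedekindDomain
open scoped nonZeroDivisors Classical

namespace Pool.Agent.Q45.NE

open Pool.Agent.Y160.SQ
open Pool.Agent.TH115.GD (incl rs ak Sep Comp CompInf IsTower rs_mul Preserves exists_conj lift_fix
  cont_rs exists_restrict exists_aut exists_kappa)
open Pool.Agent.W309.TD (locConst_apply compare)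

section transfer

variable {ℓ : ℕ} {K F Ω L Ω' E Ω'' : Type} [Field K] [Field F] [Field Ω] [Field L] [Field Ω']
  [Field E] [Field Ω''] [Algebra K F] [Algebra F Ω] [Algebra K Ω] [IsScalarTower K F Ω]
  [IsGalois F Ω]
  [Algebra K L] [Algebra F L] [IsScalarTower K F L]
  [Algebra L Ω'] [Algebra K Ω'] [Algebra F Ω'] [IsScalarTower K L Ω'] [IsScalarTower F L Ω']
  [IsScalarTower K F Ω'] [IsGalois L Ω']
  [Algebra K E] [Algebra E Ω''] [Algebra K Ω''] [Algebra F Ω''] [Algebra F E]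
  [IsScalarTower K E Ω''] [IsScalarTower K F Ω''] [IsScalarTower F E Ω'']
  {f : K[X]} {ζ : K} (H : Hyps) (hg : Good ℓ ζ f)

include H hg

theorem transferP {c : (Ω ≃ₐ[F] Ω) → Jac ℓ f Ω} (hc : IsCoc ℓ f c) (hc2 : ∀ σ, Tor hg (c σ))
    (ι : Ω →ₐ[F] Ω') (P0 : Jac ℓ f Ω') (hP : ∀ (τ : Ω' ≃ₐ[L] Ω') (σ : Ω ≃ₐ[F] Ω),
    (∀ x, τ (ι x) = ι (σ x)) →
      jm ℓ f (ι.restrictScalars K) (c σ) = jm ℓ f (rs K τ) P0 - P0) (Q : Jac ℓ f L)
    (hQ : jm ℓ f (incl K L Ω') Q = pe hg Ω' (1 - X) P0) (κ : Ω' →ₐ[F] Ω'')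
    (hκ : ∀ τ : Ω'' ≃ₐ[E] Ω'', ∃ τ' : Ω' ≃ₐ[L] Ω', ∀ x, τ (κ x) = κ (τ' x))
    (e : Ω →ₐ[F] Ω'') :
    ∃ (P : Jac ℓ f Ω''),
      pe hg Ω'' (1 - X) P = jm ℓ f ((κ.restrictScalars K).comp (incl K L Ω')) Q ∧
      ∀ (τ : Ω'' ≃ₐ[E] Ω'') (σ : Ω ≃ₐ[F] Ω), (∀ x, τ (e x) = e (σ x)) →
        jm ℓ f (e.restrictScalars K) (c σ) = jm ℓ f (rs K τ) P - P := by
  set ι' : Ω →ₐ[K] Ω' := ι.restrictScalars K with hι'
  set κ' : Ω' →ₐ[K] Ω'' := κ.restrictScalars K with hκ'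
  obtain ⟨ρ, hρ⟩ := exists_aut (κ.comp ι) e
  refine ⟨jm ℓ f κ' P0 + jm ℓ f (κ'.comp ι') (c ρ), ?_, fun τ σ h => ?_⟩
  · have h3 : pe hg Ω'' (1 - X) (jm ℓ f (κ'.comp ι') (c ρ)) = 0 := (hc2 ρ).map _
    rw [map_add, h3, add_zero, ← jm_pe, ← hQ, jm_jm]
  · obtain ⟨τ', hτ'⟩ := hκ τ
    -- `res τ' = ρ σ ρ⁻¹`
    have hconj : ∀ x, τ' (ι x) = ι ((ρ * σ * ρ⁻¹) x) := by
      intro x
      apply κ.injective
      show κ (τ' (ι x)) = κ (ι ((ρ * σ * ρ⁻¹) x))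
      rw [← hτ']
      have e1 : κ (ι x) = e (ρ⁻¹ x) := by
        rw [hρ, ← AlgEquiv.mul_apply, mul_inv_cancel]; rfl
      rw [e1, h, hρ]
      rfl
    have h1 := hP τ' _ hconj
    have h2 : c (ρ * σ * ρ⁻¹ * ρ) = c (ρ * σ * ρ⁻¹) + jm ℓ f (rs K (ρ * σ * ρ⁻¹)) (c ρ) :=
      hc.mul _ _
    have h3 : ρ * σ * ρ⁻¹ * ρ = ρ * σ := by group
    rw [h3, hc.mul] at h2
    have h4 : jm ℓ f (rs K ρ) (c σ) =
        c (ρ * σ * ρ⁻¹) + jm ℓ f (rs K (ρ * σ * ρ⁻¹)) (c ρ) - c ρ := by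
      rw [← h2]; abel
    have ec : jm ℓ f (e.restrictScalars K) (c σ) = jm ℓ f (κ'.comp ι') (jm ℓ f (rs K ρ) (c σ)) := by
      have e6 : (κ'.comp ι').comp (rs K ρ) = e.restrictScalars K := AlgHom.ext fun x => (hρ x).symm
      rw [jm_jm, e6]
    have e5 : jm ℓ f (κ'.comp ι') (c (ρ * σ * ρ⁻¹)) =
        jm ℓ f (rs K τ) (jm ℓ f κ' P0) - jm ℓ f κ' P0 := by
      have e6 : (κ').comp (rs K τ') = (rs K τ).comp κ' := AlgHom.ext fun x => (hτ' x).symm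
      rw [← jm_jm, h1, map_sub, jm_jm, jm_jm, e6]
    have e7 : jm ℓ f (κ'.comp ι') (jm ℓ f (rs K (ρ * σ * ρ⁻¹)) (c ρ)) =
        jm ℓ f (rs K τ) (jm ℓ f (κ'.comp ι') (c ρ)) := by
      have e8 : (κ'.comp ι').comp (rs K (ρ * σ * ρ⁻¹)) = (rs K τ).comp (κ'.comp ι') := by
        refine AlgHom.ext fun x => ?_
        show κ (ι ((ρ * σ * ρ⁻¹) x)) = τ (κ (ι x))
        rw [hτ', hconj]
      rw [jm_jm, jm_jm, e8]
    rw [ec, h4, map_sub, map_add, e5, e7, map_add]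
    abel

/-- The class over `L`. -/
theorem exists_Q {c : (Ω ≃ₐ[F] Ω) → Jac ℓ f Ω} (hc2 : ∀ σ, Tor hg (c σ))
    (ι : Ω →ₐ[F] Ω') (P0 : Jac ℓ f Ω') (hP : ∀ (τ : Ω' ≃ₐ[L] Ω') (σ : Ω ≃ₐ[F] Ω),
    (∀ x, τ (ι x) = ι (σ x)) →
      jm ℓ f (ι.restrictScalars K) (c σ) = jm ℓ f (rs K τ) P0 - P0) :
    ∃ Q : Jac ℓ f L, jm ℓ f (incl K L Ω') Q = pe hg Ω' (1 - X) P0 := by
  choose res hres using exists_restrict (F := F) (Ω := Ω) (L := L) (Ω' := Ω') ι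
  set ι' : Ω →ₐ[K] Ω' := ι.restrictScalars K with hι'
  have hT : ∀ τ : Ω' ≃ₐ[L] Ω', jm ℓ f ι' (c (res τ)) = jm ℓ f (rs K τ) P0 - P0 :=
    fun τ => hP τ (res τ) (hres τ)
  have hPP : ∀ τ : Ω' ≃ₐ[L] Ω', jm ℓ f (rs K τ) (pe hg Ω' (1 - X) P0) = pe hg Ω' (1 - X) P0 := by
    intro τ
    have h1 : jm ℓ f (rs K τ) P0 = P0 + jm ℓ f ι' (c (res τ)) := by rw [hT]; abel
    have h3 : pe hg Ω' (1 - X) (jm ℓ f ι' (c (res τ))) = 0 := (hc2 (res τ)).map ι'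
    rw [jm_pe, h1, map_add, h3, add_zero]
  exact fixed_class (E := L) H hg (pe hg Ω' (1 - X) P0) hPP

end transfer

section locU

variable {ℓ : ℕ} {K F Ω L Ω' M : Type} [Field K] [Field F] [Field Ω] [Field L] [Field Ω']
  [Field M] [Algebra K F] [Algebra F Ω] [Algebra K Ω] [IsScalarTower K F Ω]
  [IsGalois F Ω] [IsSepClosed Ω]
  [Algebra K L] [Algebra F L] [IsScalarTower K F L]
  [Algebra L Ω'] [Algebra K Ω'] [Algebra F Ω'] [IsScalarTower K L Ω'] [IsScalarTower F L Ω']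
  [IsScalarTower K F Ω'] [IsGalois L Ω']
  [Algebra F M] [Algebra M Ω] [IsScalarTower F M Ω]
  {f : K[X]} {ζ : K} (H : Hyps) (hg : Good ℓ ζ f)

include H hg

theorem locU {a : Ω} {θ : M} (ha : Rt f a) (hθ : algebraMap M Ω θ = a)
    {c : (Ω ≃ₐ[F] Ω) → Jac ℓ f Ω} (hc : IsCoc ℓ f c) (hc2 : ∀ σ, Tor hg (c σ))
    (hloc : LocTriv ℓ f L Ω' c) {t : Ω} {z : M} (ht : t ≠ 0) (hz : t ^ ℓ = algebraMap M Ω z)
    (hk : ∀ σ : Ω ≃ₐ[F] Ω, σ a = a → σ t = chi hg a (c σ) * t) :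
    ∃ G : L[X], LP ℓ (f.map (algebraMap K L)) G ∧
      ∀ (E Ω'' : Type) [Field E] [Field Ω''] [Algebra K E] [Algebra F E] [IsScalarTower K F E]
        [Algebra M E] [IsScalarTower F M E] [Algebra E Ω''] [Algebra K Ω''] [Algebra F Ω'']
        [IsScalarTower K E Ω''] [IsScalarTower K F Ω''] [IsScalarTower F E Ω''] [IsGalois E Ω'']
        [IsSepClosed Ω''] (j : L →+* E),
        (∀ x : F, j (algebraMap F L x) = algebraMap F E x) →
        ∃ (g0 : E) (y0 : L), g0 ≠ 0 ∧ y0 ≠ 0 ∧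
          (algebraMap M E z * (j y0) ^ ℓ =
              g0 ^ ℓ * ((G.map j).eval (algebraMap M E θ)) ^ f.natDegree ∨
            algebraMap M E z * (j y0) ^ ℓ =
              -(g0 ^ ℓ * ((G.map j).eval (algebraMap M E θ)) ^ f.natDegree)) := by
  obtain ⟨ι, P0, hP0⟩ := hloc
  obtain ⟨Q, hQ⟩ := exists_Q (L := L) H hg hc2 ι P0 hP0
  obtain ⟨I, G, hIQ, hIc, hG, hN⟩ := exists_rep H hg Q
  refine ⟨G, hG, ?_⟩
  intro E Ω'' _ _ _ _ _ _ _ _ _ _ _ _ _ _ _ j hj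
  obtain ⟨κ, hκ1, hκ2⟩ := exists_kappa (F := F) (L := L) (Ω' := Ω') (E := E) (Ω'' := Ω'') j hj
  -- the embedding
  obtain ⟨i, hi⟩ : ∃ i : Ω →ₐ[F] Ω'', ∀ m : M, i (algebraMap M Ω m) =
      algebraMap E Ω'' (algebraMap M E m) := by
    letI : Algebra M Ω'' := ((algebraMap E Ω'').comp (algebraMap M E)).toAlgebra
    haveI : Algebra.IsSeparable M Ω := Algebra.isSeparable_tower_top_of_isSeparable F M Ω
    let i0 : Ω →ₐ[M] Ω'' := IsSepClosed.lift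
    refine ⟨{ i0.toRingHom with commutes' := fun x => ?_ }, fun m => i0.commutes m⟩
    show i0 (algebraMap F Ω x) = _
    rw [IsScalarTower.algebraMap_apply F M Ω, i0.commutes]
    show algebraMap E Ω'' (algebraMap M E (algebraMap F M x)) = _
    rw [← IsScalarTower.algebraMap_apply F M E, ← IsScalarTower.algebraMap_apply F E Ω'']
  obtain ⟨P, hPQ, hP⟩ := transferP (E := E) H hg hc hc2 ι P0 hP0 Q hQ κ hκ2 i
  choose res hres using exists_restrict (F := F) (Ω := Ω) (L := E) (Ω' := Ω'') i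
  set i' : Ω →ₐ[K] Ω'' := i.restrictScalars K with hi'
  have hia : i a = algebraMap E Ω'' (algebraMap M E θ) := by rw [← hθ, hi]
  have hfix : ∀ τ : Ω'' ≃ₐ[E] Ω'', res τ a = a := by
    intro τ
    apply i.injective
    show i (res τ a) = i a
    rw [← hres, hia, τ.commutes]
  have hT : ∀ τ : Ω'' ≃ₐ[E] Ω'', jm ℓ f i' (c (res τ)) = jm ℓ f (rs K τ) P - P :=
    fun τ => hP τ (res τ) (hres τ)
  have hTT : ∀ τ : Ω'' ≃ₐ[E] Ω'', Tor hg (jm ℓ f (rs K τ) P - P) := by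
    intro τ
    rw [← hT]
    exact (hc2 _).map i'
  have ha' : Rt f (i' a) := ha.map i'
  -- the `L`-algebra
  letI : Algebra L Ω'' := ((algebraMap E Ω'').comp j).toAlgebra
  haveI : IsScalarTower K L Ω'' := IsScalarTower.of_algebraMap_eq fun x => by
    show algebraMap K Ω'' x = algebraMap E Ω'' (j (algebraMap K L x))
    rw [IsScalarTower.algebraMap_apply K F L, hj, ← IsScalarTower.algebraMap_apply K F E,
      ← IsScalarTower.algebraMap_apply K E Ω'']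
  have hinc : (κ.restrictScalars K).comp (incl K L Ω') = incl K L Ω'' :=
    AlgHom.ext fun x => hκ1 x
  rw [hinc] at hPQ
  obtain ⟨t', ht1, ht2⟩ := kcJ H hg hIQ hIc (lp_coprime hG) hN hPQ
  obtain ⟨ht10, hG0, hteq⟩ := ht1 (i' a) ha'
  have A : ∀ τ : Ω'' ≃ₐ[E] Ω'', τ (i t) = chi hg (i' a) (jm ℓ f (rs K τ) P - P) * i t := by
    intro τ
    rw [hres, hk _ (hfix τ), map_mul, ← hT, chi_map H hg (hc2 _) ha i']
    rfl
  have B : ∀ τ : Ω'' ≃ₐ[E] Ω'', τ (t' (i' a)) = chi hg (i' a) (jm ℓ f (rs K τ) P - P) *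
      t' (i' a) := by
    intro τ
    let τL : Ω'' ≃ₐ[L] Ω'' := AlgEquiv.ofRingEquiv (f := τ.toRingEquiv) (fun y => τ.commutes (j y))
    have e1 : rs K τL = rs K τ := AlgHom.ext fun x => rfl
    have e2 : τL (i' a) = i' a := by
      show τ (i a) = i a
      rw [hia, τ.commutes]
    have h1 := ht2 τL (i' a) ha' (by rw [e1]; exact hTT τ)
    rw [e1, e2] at h1
    exact h1
  obtain ⟨g0, hg0, q⟩ := compare (K := E) ((map_ne_zero i).2 ht) ht10 _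
    (fun τ => chi_ne H hg (hTT τ) ha') A B
  -- the norm
  have hs : ((f.map (algebraMap K L)).map (algebraMap L Ω'')).Splits := by
    rw [map_L]; exact splits_up hg
  obtain ⟨y0, hy0⟩ := lp_norm (hg.up L).monic hs hG
  rw [map_L (K := K)] at hy0
  have hy0' : algebraMap L Ω'' (y0 ^ ℓ) = algebraMap E Ω'' (j y0) ^ ℓ := by
    rw [map_pow]; rfl
  have hGθ : aeval (i' a) G = algebraMap E Ω'' ((G.map j).eval (algebraMap M E θ)) := by
    have h1 : (i' a : Ω'') = algebraMap E Ω'' (algebraMap M E θ) := hia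
    rw [h1, aeval_def, eval_map, hom_eval₂]
    rfl
  have q2 : algebraMap E Ω'' (algebraMap M E z) = algebraMap E Ω'' g0 ^ ℓ * t' (i' a) ^ ℓ := by
    rw [← mul_pow, ← q, ← map_pow, hz, hi]
  have injE := (algebraMap E Ω'').injective
  have hy00 : y0 ≠ 0 := by
    rintro rfl
    rw [zero_pow hg.ne, map_zero, neg_zero, or_self] at hy0
    rw [hy0, mul_zero] at hteq
    exact pow_ne_zero _ hG0 hteq.symm
  refine ⟨g0, y0, hg0, hy00, ?_⟩
  rcases hy0 with hy | hy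
  · left
    apply injE
    rw [map_mul, map_mul, map_pow, map_pow, map_pow, q2, ← hGθ, ← hteq, hy, hy0']
    ring
  · right
    apply injE
    rw [map_neg, map_mul, map_mul, map_pow, map_pow, map_pow, q2, ← hGθ, ← hteq, hy, hy0']
    ring

end locU

end Pool.Agent.Q45.NE
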