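import Pool.Agent.Q45.NE.RegW
import Pool.Agent.Q45.NE.DescB

/-!
# The theorem
-/

set_option autoImplicit false
set_option linter.all false

open Polynomial IsDedekindDomain WithZero
open scoped Classical

namespace Pool.Agent.Q45.NE

open Pool.Agent.Q45.TG (ds coeff_ds ds_map fF fF_monic fF_natDegree irr_base sep_fF IsBr even_cls upF)
open Pool.Agent.Y160.SE (IsPw)
open Pool.Agent.Q45.TW (IsGeom)
open Pool.Agent.Q45.GP (TateOver)
open Pool.Agent.Y160.SQ
open Pool.Agent.TH115.GD (Sep)
open Pool.Agent.Y160.RK (ptCl spanD mem_spanD gen_iter rank_lin ptCl_spec)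

section main

variable {k : Type} [Field k] {F : k[X][X]} {G : k[X]} {c : AdjoinRoot F}

/-- The hypotheses. -/
structure Dat (F : k[X][X]) (G : k[X]) (c : AdjoinRoot F) : Prop where
  two : (2 : k) ≠ 0
  monic : F.Monic
  odd : Odd F.natDegree
  three : 1 < F.natDegree
  irr : Irreducible F
  der : derivative F ≠ 0
  smooth : ∃ a₁ a₂ a₃ : k[X][X], a₁ * F + a₂ * derivative F + a₃ * ds F = 1
  br : IsBr 2 F
  cof : c * (AdjoinRoot.of F G - AdjoinRoot.root F) = AdjoinRoot.of F (eG F G)
  prime : Irreducible (eG F G)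
  sep : (eG F G).Separable
  unr : IsCoprime (AdjoinRoot.of F (eG F G)) (AdjoinRoot.mk F (derivative F))

theorem Dat.e_ne (h : Dat F G c) : eG F G ≠ 0 := h.prime.ne_zero

theorem Dat.dom (h : Dat F G c) : IsDomain (AdjoinRoot F) :=
  haveI := h.br.ded
  inferInstance

/-- The root is not in the base ring. -/
theorem root_ne (hF : F.Monic) (h1 : 1 < F.natDegree) (p : k[X]) :
    AdjoinRoot.root F ≠ AdjoinRoot.of F p := by
  intro h0
  have h2 : AdjoinRoot.mk F (X - C p) = 0 := by
    rw [map_sub, AdjoinRoot.mk_X, AdjoinRoot.mk_C, h0, sub_self]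
  rw [AdjoinRoot.mk_eq_zero] at h2
  have h3 := natDegree_le_of_dvd h2 (X_sub_C_ne_zero p)
  rw [natDegree_X_sub_C] at h3
  omega

theorem Dat.ne (h : Dat F G c) : AdjoinRoot.of F G - AdjoinRoot.root F ≠ 0 := by
  rw [sub_ne_zero]
  exact (root_ne h.monic h.three G).symm

/-- The coprimality with the derivative. -/
theorem Dat.cop' (h : Dat F G c) : IsCoprime (eG F G) ((derivative F).eval G) := by
  haveI := h.dom
  let φ : AdjoinRoot F →+* k[X] ⧸ Ideal.span {eG F G} :=
    AdjoinRoot.lift (Ideal.Quotient.mk (Ideal.span {eG F G})) (Ideal.Quotient.mk _ G) (by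
      rw [eval₂_at_apply, Ideal.Quotient.eq_zero_iff_mem]
      exact Ideal.subset_span rfl)
  have h1 : ∀ p : k[X][X], φ (AdjoinRoot.mk F p) = Ideal.Quotient.mk _ (p.eval G) := by
    intro p
    rw [AdjoinRoot.lift_mk, eval₂_at_apply]
  obtain ⟨x, y, hxy⟩ := h.unr
  obtain ⟨x', rfl⟩ := AdjoinRoot.mk_surjective x
  obtain ⟨y', rfl⟩ := AdjoinRoot.mk_surjective y
  have h2 := congrArg φ hxy
  rw [map_add, map_mul, map_mul, ← AdjoinRoot.mk_C, h1, h1, h1, h1, map_one, ← map_mul, ← map_mul,
    ← map_add, ← map_one (Ideal.Quotient.mk (Ideal.span {eG F G})), Ideal.Quotient.eq,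
    Ideal.mem_span_singleton, eval_C] at h2
  obtain ⟨z, hz⟩ := h2
  exact ⟨x'.eval G - z, y'.eval G, by linear_combination hz⟩

theorem Dat.cop (h : Dat F G c) : IsCoprime (-c) (AdjoinRoot.root F - AdjoinRoot.of F G) := by
  haveI := h.dom
  exact cof_coprime h.ne h.cof h.cop'

/-- The cofactor is not a square up to a constant factor. -/
theorem Dat.not_sq (h : Dat F G c) (s : AdjoinRoot F) (ε : k) : c ≠ AdjoinRoot.of F (C ε) * s ^ 2 := by
  haveI := h.dom
  intro hs
  have h1 : IsUnit s := cof_not_sq h.sep h.unr h.cof hs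
  obtain ⟨b, hb⟩ := h.br.units h1.unit
  rw [IsUnit.unit_spec] at hb
  have h2 := h.cof
  rw [hs, hb, ← map_pow, ← map_mul, ← C_pow, ← C_mul] at h2
  set r : k := ε * b ^ 2 with hr
  have hr0 : r ≠ 0 := by
    intro h0
    rw [h0, C_0, map_zero, zero_mul] at h2
    have h3 : Function.Injective (AdjoinRoot.of F) := by
      refine AdjoinRoot.of.injective_of_degree_ne_zero ?_
      intro h4
      have h5 : F.natDegree = 0 := natDegree_eq_of_degree_eq_some h4
      have := h.three
      omega
    exact h.e_ne (h3 (by rw [← h2, map_zero]))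
  apply root_ne h.monic h.three (G - C r⁻¹ * eG F G)
  rw [map_sub, map_mul, ← h2, ← mul_assoc, ← map_mul, ← C_mul, inv_mul_cancel₀ hr0, C_1, map_one,
    one_mul]
  ring

/-- The numerator of the marked point. -/
noncomputable def mk (F : k[X][X]) (G : k[X]) (K : Type) [Field K] [Algebra k[X] K] : K[X] × K[X] :=
  (X, C (algebraMap k[X] K (eG F G ^ ((F.natDegree - 1) / 2))))

variable {K : Type} [Field K] [Algebra k[X] K]

theorem mk_ok (h : Dat F G c) (hinj : Function.Injective (algebraMap k[X] K)) :
    Irreducible (mk F G K).1 ∧ (mk F G K).1.Monic ∧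
      ¬ (mk F G K).1 ∣ (model F G).map (algebraMap k[X] K) ∧
      (mk F G K).1 ∣ (model F G).map (algebraMap k[X] K) - (mk F G K).2 ^ 2 := by
  have hev : ((model F G).map (algebraMap k[X] K)).eval 0 =
      algebraMap k[X] K (eG F G ^ (F.natDegree - 1)) := by
    have h1 : (0 : K) = algebraMap k[X] K 0 := (map_zero _).symm
    rw [h1, eval_map, eval₂_at_apply, model_eval_zero h.monic h.three]
  refine ⟨irreducible_X, monic_X, ?_, ?_⟩
  · show ¬ (X ∣ (model F G).map (algebraMap k[X] K))
    rw [X_dvd_iff, coeff_zero_eq_eval_zero, hev]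
    exact (map_ne_zero_iff _ hinj).2 (pow_ne_zero _ h.e_ne)
  · show X ∣ (model F G).map (algebraMap k[X] K) - (C _) ^ 2
    rw [X_dvd_iff, coeff_zero_eq_eval_zero, eval_sub, hev, eval_pow, eval_C, ← map_pow, ← pow_mul]
    obtain ⟨m, hm⟩ := h.odd
    have h1 : (F.natDegree - 1) / 2 * 2 = F.natDegree - 1 := by omega
    rw [h1, sub_self]

theorem good_model (h : Dat F G c) (hK : IsFractionRing k[X] K) :
    Good 2 (-1) ((model F G).map (algebraMap k[X] K)) := by
  have hn : 0 < F.natDegree := by have := h.three; omega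
  refine ⟨Nat.prime_two.isPrimePow, TW.prim (TW.two_ne h.two (IsFractionRing.injective k[X] K)),
    (model_monic F G hn).map _, sep_model h.monic h.irr hn h.e_ne h.der hK, ?_⟩
  rw [(model_monic F G hn).natDegree_map, model_natDegree F G hn]
  exact (Nat.coprime_two_left).2 h.odd

/-- **The Tate-Shafarevich group and the Mordell-Weil group.** -/
theorem sha_ne (h : Dat F G c) (hK : IsFractionRing k[X] K) :
    Pool.Agent.Y160.SH.ShaTriv 2 2 k[X] ((model F G).map (algebraMap k[X] K)) ∧
      Pool.Agent.Y160.SL.IsBasisAt (M := Jac 2 ((model F G).map (algebraMap k[X] K)) K) 2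
        (fun _ : Fin 1 => ptCl 2 ((model F G).map (algebraMap k[X] K)) (mk F G K)) := by
  have hn : 0 < F.natDegree := by have := h.three; omega
  have hinj : Function.Injective (algebraMap k[X] K) := IsFractionRing.injective k[X] K
  haveI := h.br.ded
  obtain ⟨N, n1, n2, n3, n4, n5, n6, n7⟩ := exists_N h.monic hn h.br.ded hK
  have he := h.e_ne
  obtain ⟨hx1, hx2, hx0⟩ := x_spec (F := F) (G := G) (N := N) hinj root_N (x_N h.cof) he top_N
  have hgd := good_model h hK
  have hirr := irr_model h.monic h.irr hn he hK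
  have hmk := mk_ok h hinj
  haveI : Algebra.IsIntegral k[X] (AdjoinRoot F) := by
    haveI : Module.Finite k[X] (AdjoinRoot F) := h.monic.finite_adjoinRoot
    exact Algebra.IsIntegral.of_finite k[X] (AdjoinRoot F)
  haveI : Module.IsTorsionFree k[X] (AdjoinRoot F) := by
    rw [Module.isTorsionFree_iff_algebraMap_injective]
    refine AdjoinRoot.of.injective_of_degree_ne_zero ?_
    intro h0
    have h1 : F.natDegree = 0 := natDegree_eq_of_degree_eq_some h0
    rw [h1] at hn
    exact lt_irrefl _ hn
  have hθne : (-c) ≠ 0 := by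
    intro h0
    have h1 := h.cof
    rw [neg_eq_zero.1 h0, zero_mul] at h1
    have h3 : Function.Injective (AdjoinRoot.of F) := by
      refine AdjoinRoot.of.injective_of_degree_ne_zero ?_
      intro h4
      have h5 : F.natDegree = 0 := natDegree_eq_of_degree_eq_some h4
      omega
    exact he (h3 (by rw [← h1, map_zero]))
  have hd2 : ∀ (j : ℕ) (w : N), Odd j → algebraMap (AdjoinRoot F) N (-c) ^ j ≠ w ^ 2 ∧
      algebraMap (AdjoinRoot F) N (-c) ^ j ≠ -w ^ 2 := fun j w hj =>
    odd_pow hθne (fun s => ⟨fun h1 => h.not_sq s (-1) (by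
        rw [C_neg, C_1, map_neg, map_one, neg_one_mul, ← h1, neg_neg]),
      fun h1 => h.not_sq s 1 (by
        rw [C_1, map_one, one_mul]
        exact neg_inj.1 h1)⟩) j w hj
  obtain ⟨v0, hsp, hval⟩ : ∃ v0 : HeightOneSpectrum k[X], v0.asIdeal = Ideal.span {eG F G} ∧
      v0.valuation K (algebraMap k[X] K (eG F G)) = exp (-1 : ℤ) := by
    refine ⟨⟨Ideal.span {eG F G}, (Ideal.span_singleton_prime he).2 h.prime.prime,
      fun h1 => he (Ideal.span_singleton_eq_bot.1 h1)⟩, rfl, ?_⟩
    rw [HeightOneSpectrum.valuation_of_algebraMap]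
    exact HeightOneSpectrum.intValuation_singleton _ he rfl
  have hxW : (-c) * (AdjoinRoot.root F - AdjoinRoot.of F G) = AdjoinRoot.of F (eG F G) := by
    rw [← h.cof]
    ring
  have hpts : ∀ z : N, z ≠ 0 → Ev (-c) z → (∃ y : K, Algebra.norm K z = y ^ 2) →
      ∃ (u : K) (g : N) (S : Multiset (K[X] × K[X])), u ≠ 0 ∧ g ≠ 0 ∧
        (∀ P ∈ S, P ∈ ({mk F G K} : Set (K[X] × K[X]))) ∧
        z = algebraMap K N u * g ^ 2 * aeval (algebraMap (AdjoinRoot F) N (-c)) (dvP S) := by
    intro z hz hev hno
    obtain ⟨u, w, hu, hw, h1⟩ := desc_ev (K := K) h.br hθne hz hev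
    rcases h1 with h1 | h1
    · refine ⟨u, w, 0, hu, hw, fun P hP => absurd hP (Multiset.notMem_zero P), ?_⟩
      have h5 : dvP (0 : Multiset (K[X] × K[X])) = 1 := rfl
      rw [h1, h5, map_one, mul_one]
    · refine ⟨u, w, {mk F G K}, hu, hw, fun P hP => ?_, ?_⟩
      · rw [Multiset.mem_singleton] at hP
        exact hP
      · have h5 : dvP ({mk F G K} : Multiset (K[X] × K[X])) = X := by
          unfold dvP
          rw [Multiset.map_singleton, Multiset.prod_singleton]
          rfl
        rw [h1, h5, aeval_X]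
  obtain ⟨h1, hgen⟩ := mainB (A := k[X]) (K := K) (N := N)
    (R := AdjoinRoot F) (F₀ := F) (G₀ := G) (ζ := -1) h.monic h.odd he hgd
    (regX_model h.smooth hn) (regW_base h.smooth) hirr (θ₀ := -c)
    (W₀ := AdjoinRoot.root F - AdjoinRoot.of F G) rfl hx1 hx2 hxW (by
      have h1 : algebraMap k[X] (AdjoinRoot F) G + (AdjoinRoot.root F - AdjoinRoot.of F G) =
          AdjoinRoot.root F := add_sub_cancel _ _
      rw [h1, AdjoinRoot.aeval_eq, AdjoinRoot.mk_self]) v0 hsp hval h.cop {mk F G K}
    (fun P hP => by rw [Set.mem_singleton_iff.1 hP]; exact hmk) hpts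
  refine ⟨h1, ?_⟩
  set D : Fin 1 → Jac 2 ((model F G).map (algebraMap k[X] K)) K :=
    fun _ => ptCl 2 ((model F G).map (algebraMap k[X] K)) (mk F G K) with hD
  have hspan : spanD hgd D ≤ AddSubgroup.closure (Set.range D) := by
    unfold spanD
    rw [AddSubgroup.closure_le]
    rintro _ ⟨⟨i, j⟩, rfl⟩
    have hj : (j : ℕ) = 0 := by
      have := j.2
      omega
    show ((sg hgd K) ^ (j : ℕ)) (D i) ∈ _
    rw [hj, pow_zero]
    exact AddSubgroup.subset_closure ⟨i, rfl⟩
  have hspan' : AddSubgroup.closure (Set.range D) ≤ spanD hgd D := by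
    rw [AddSubgroup.closure_le]
    rintro _ ⟨i, rfl⟩
    exact mem_spanD hgd D i
  refine ⟨?_, fun M x => ?_⟩
  · -- independence
    have hηK : aeval (algebraMap (AdjoinRoot F) N (-c)) ((model F G).map (algebraMap k[X] K)) = 0 := hx1
    obtain ⟨i⟩ := Pool.Agent.Q45.GP.exists_emb hgd hηK hx2
    letI : Algebra N (Sep K) := i.toRingHom.toAlgebra
    haveI : IsScalarTower K N (Sep K) := IsScalarTower.of_algebraMap_eq fun x => (i.commutes x).symm
    haveI : Algebra.IsSeparable K (Sep K) := IsSepClosure.separable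
    haveI : IsSepClosed (Sep K) := IsSepClosure.sep_closed K
    haveI : IsGalois K (Sep K) := inferInstance
    have haR : Rt ((model F G).map (algebraMap k[X] K))
        (algebraMap N (Sep K) (algebraMap (AdjoinRoot F) N (-c))) := by
      have h1 : aeval (algebraMap N (Sep K) (algebraMap (AdjoinRoot F) N (-c)))
          ((model F G).map (algebraMap k[X] K)) = 0 := by
        rw [aeval_algebraMap_apply, hx1, map_zero]
      exact h1
    have h := rank_lin (p := 2) (s := 0) (N := N) (Ω := Sep K) hyps hgd Pool.Agent.Y160.FT.inj_all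
      Pool.Agent.Y627.FT.stLin Nat.prime_two (by norm_num) hirr haR rfl
      (fun _ : Fin 1 => mk F G K) (fun _ => hmk) (by
        intro e w hw0 hw j
        rw [(model_monic F G hn).natDegree_map, model_natDegree F G hn, Fin.prod_univ_one] at hw
        have hX : aeval (algebraMap (AdjoinRoot F) N (-c)) (mk F G K).1 =
            algebraMap (AdjoinRoot F) N (-c) := aeval_X _
        rw [hX, ← pow_mul] at hw
        by_contra hodd
        have hj : j = 0 := Subsingleton.elim _ _
        rw [hj] at hodd
        have h3 : Odd (e 0 * F.natDegree) := (Nat.not_even_iff_odd.1 fun h4 =>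
          hodd h4.two_dvd).mul ‹Dat F G c›.odd
        rcases hw with h5 | h5
        · exact (hd2 _ w h3).1 h5
        · exact (hd2 _ w h3).2 h5)
    have hc := h.comp (fun i : Fin 1 => ((i, ⟨0, by norm_num⟩) : Fin 1 × Fin (2 - 1)))
      (fun a b hab => (Prod.ext_iff.1 hab).1)
    have e1 : D = ((fun i : Fin 1 × Fin (2 - 1) => ((sg hgd K) ^ (i.2 : ℕ))
        (ptCl 2 ((model F G).map (algebraMap k[X] K)) (mk F G K))) ∘
        (fun i : Fin 1 => ((i, ⟨0, by norm_num⟩) : Fin 1 × Fin (2 - 1)))) := by
      funext i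
      show D i = ((sg hgd K) ^ 0) (D i)
      rw [pow_zero]
      rfl
    rw [e1]
    exact hc
  · -- generation
    obtain ⟨v, hv⟩ := gen_iter (m := 1) hyps hgd Nat.prime_two (by norm_num) D (fun x => by
      obtain ⟨T, v, hT, hx⟩ := hgen x
      refine ⟨v, ?_⟩
      rw [hx, add_sub_cancel_right]
      refine AddSubgroup.multiset_sum_mem _ _ fun z hz => ?_
      obtain ⟨P, hPT, rfl⟩ := Multiset.mem_map.1 hz
      rw [Set.mem_singleton_iff.1 (hT P hPT)]
      exact mem_spanD hgd D 0)
      M x
    exact ⟨v, hspan hv⟩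

/-- The class of the divisor. -/
theorem mk_cls (h : Dat F G c) (hK : IsFractionRing k[X] K) :
    Pool.Agent.Q45.TW.IsIdealClass
      (R := CR 2 (((model F G).map (algebraMap k[X] K)).map (algebraMap K K)))
      (ptCl 2 ((model F G).map (algebraMap k[X] K)) (mk F G K))
      (prI 2 (((model F G).map (algebraMap k[X] K)).map (algebraMap K K)) X
        (C (algebraMap k[X] K (eG F G ^ ((F.natDegree - 1) / 2))))) :=
  Pool.Agent.Q45.TW.cl_class (ptCl_spec hyps (good_model h hK) (P := mk F G K) irreducible_X)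

/-- **The Tate conjecture.** -/
theorem tate_ne {k' E : Type} [Field k'] [Algebra k k'] [IsGalois k k'] [Field E]
    [Algebra k'[X] E] [Algebra K E] (h : Dat F G c) (hgi : Irreducible (upF k' F))
    (hK : IsFractionRing k[X] K) (hE : IsGeom k k' K E) {A' : Type} [CommRing A']
    [IsDedekindDomain A'] [Algebra A' E] [IsFractionRing A' E] [Algebra k'[X] A']
    [IsScalarTower k'[X] A' E] [IsIntegralClosure A' k'[X] E] :
    TateOver (F := E) 2 2 A' ((model F G).map (algebraMap k[X] K)) := by
  have hn : 0 < F.natDegree := by have := h.three; omega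
  have hinj : Function.Injective (algebraMap k[X] K) := IsFractionRing.injective k[X] K
  haveI := h.br.ded
  obtain ⟨N, n1, n2, n3, n4, n5, n6, n7⟩ := exists_N h.monic hn h.br.ded hK
  have he := h.e_ne
  obtain ⟨hx1, hx2, hx0⟩ := x_spec (F := F) (G := G) (N := N) hinj root_N (x_N h.cof) he top_N
  have hgd := good_model h hK
  have hirr := irr_model h.monic h.irr hn he hK
  have hmk := mk_ok h hinj
  haveI : Algebra.IsIntegral k[X] (AdjoinRoot F) := by
    haveI : Module.Finite k[X] (AdjoinRoot F) := h.monic.finite_adjoinRoot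
    exact Algebra.IsIntegral.of_finite k[X] (AdjoinRoot F)
  have hθne : (-c) ≠ 0 := by
    intro h0
    have h1 := h.cof
    rw [neg_eq_zero.1 h0, zero_mul] at h1
    have h3 : Function.Injective (AdjoinRoot.of F) := by
      refine AdjoinRoot.of.injective_of_degree_ne_zero ?_
      intro h4
      have h5 : F.natDegree = 0 := natDegree_eq_of_degree_eq_some h4
      omega
    exact he (h3 (by rw [← h1, map_zero]))
  have hd2 : ∀ (j : ℕ) (w : N), Odd j → algebraMap (AdjoinRoot F) N (-c) ^ j ≠ w ^ 2 ∧
      algebraMap (AdjoinRoot F) N (-c) ^ j ≠ -w ^ 2 := fun j w hj =>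
    odd_pow hθne (fun s => ⟨fun h1 => h.not_sq s (-1) (by
        rw [C_neg, C_1, map_neg, map_one, neg_one_mul, ← h1, neg_neg]),
      fun h1 => h.not_sq s 1 (by
        rw [C_1, map_one, one_mul]
        exact neg_inj.1 h1)⟩) j w hj
  obtain ⟨v0, hsp, hval⟩ : ∃ v0 : HeightOneSpectrum k[X], v0.asIdeal = Ideal.span {eG F G} ∧
      v0.valuation K (algebraMap k[X] K (eG F G)) = exp (-1 : ℤ) := by
    refine ⟨⟨Ideal.span {eG F G}, (Ideal.span_singleton_prime he).2 h.prime.prime,
      fun h1 => he (Ideal.span_singleton_eq_bot.1 h1)⟩, rfl, ?_⟩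
    rw [HeightOneSpectrum.valuation_of_algebraMap]
    exact HeightOneSpectrum.intValuation_singleton _ he rfl
  have hxW : (-c) * (AdjoinRoot.root F - AdjoinRoot.of F G) = AdjoinRoot.of F (eG F G) := by
    rw [← h.cof]
    ring
  have hpts : ∀ z : N, z ≠ 0 → Ev (-c) z → (∃ y : K, Algebra.norm K z = y ^ 2) →
      ∃ (u : K) (g : N) (S : Multiset (K[X] × K[X])), u ≠ 0 ∧ g ≠ 0 ∧
        (∀ P ∈ S, P ∈ ({mk F G K} : Set (K[X] × K[X]))) ∧
        z = algebraMap K N u * g ^ 2 * aeval (algebraMap (AdjoinRoot F) N (-c)) (dvP S) := by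
    intro z hz hev hno
    obtain ⟨u, w, hu, hw, h1⟩ := desc_ev (K := K) h.br hθne hz hev
    rcases h1 with h1 | h1
    · refine ⟨u, w, 0, hu, hw, fun P hP => absurd hP (Multiset.notMem_zero P), ?_⟩
      have h5 : dvP (0 : Multiset (K[X] × K[X])) = 1 := rfl
      rw [h1, h5, map_one, mul_one]
    · refine ⟨u, w, {mk F G K}, hu, hw, fun P hP => ?_, ?_⟩
      · rw [Multiset.mem_singleton] at hP
        exact hP
      · have h5 : dvP ({mk F G K} : Multiset (K[X] × K[X])) = X := by
          unfold dvP
          rw [Multiset.map_singleton, Multiset.prod_singleton]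
          rfl
        rw [h1, h5, aeval_X]
  -- the field `E` is `k'(t)`
  have hinjE : Function.Injective (algebraMap k'[X] E) := hE.inj
  have hfr : IsFractionRing k'[X] E := by
    refine TT.frac_of_gen hE.inj ?_
    set T := Subfield.closure (Set.range (algebraMap k'[X] E)) with hT
    have h1 : ∀ x : K, algebraMap K E x ∈ T := by
      intro x
      obtain ⟨a, b, -, rfl⟩ := IsFractionRing.div_surjective (A := k[X]) x
      rw [map_div₀, hE.comp, hE.comp]
      exact div_mem (Subfield.subset_closure ⟨_, rfl⟩) (Subfield.subset_closure ⟨_, rfl⟩)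
    rw [eq_top_iff]
    rintro x -
    have hx : x ∈ IntermediateField.adjoin K (Set.range ((algebraMap k'[X] E).comp C)) := by
      rw [hE.gen]
      trivial
    refine IntermediateField.adjoin_induction K (p := fun x _ => x ∈ T) ?_ ?_ ?_ ?_ ?_ hx
    · rintro _ ⟨c, rfl⟩
      exact Subfield.subset_closure ⟨_, rfl⟩
    · intro x
      exact h1 x
    · intro x y _ _ hx hy
      exact add_mem hx hy
    · intro x _ hx
      exact inv_mem hx
    · intro x y _ _ hx hy
      exact mul_mem hx hy
  haveI : IsIntegralClosure k'[X] k'[X] E := IsIntegralClosure.of_isIntegrallyClosed k'[X] k'[X] E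
  let e : k'[X] ≃ₐ[k'[X]] A' := IsIntegralClosure.equiv k'[X] k'[X] E A'
  have heq : (e.toRingEquiv : k'[X] →+* A') = algebraMap k'[X] A' :=
    RingHom.ext fun p => e.commutes p
  -- the model over `k'`
  have hF' : (upF k' F).Monic := h.monic.map _
  have hdeg : (upF k' F).natDegree = F.natDegree := h.monic.natDegree_map _
  have hsm' : ∃ a₁ a₂ a₃ : k'[X][X], a₁ * upF k' F + a₂ * derivative (upF k' F) +
      a₃ * ds (upF k' F) = 1 := by
    obtain ⟨a₁, a₂, a₃, h1⟩ := h.smooth
    refine ⟨upF k' a₁, upF k' a₂, upF k' a₃, ?_⟩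
    have h3 := congrArg (Polynomial.map (mapRingHom (algebraMap k k'))) h1
    rw [Polynomial.map_add, Polynomial.map_add, Polynomial.map_mul, Polynomial.map_mul,
      Polynomial.map_mul, Polynomial.map_one] at h3
    unfold upF
    rw [derivative_map, ds_map]
    exact h3
  have hS : RegX ((upF k' (model F G)).map (algebraMap k'[X] A')) := by
    have h1 : RegX (model (upF k' F) (G.map (algebraMap k k'))) :=
      regX_model hsm' (by rw [hdeg]; exact hn)
    have h3 := h1.equiv e.toRingEquiv
    rw [heq, model_up F G h.monic] at h3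
    exact h3
  have he' : eG (upF k' F) (G.map (algebraMap k k')) ≠ 0 := by
    rw [eG_up]
    exact (Polynomial.map_ne_zero_iff (algebraMap k k').injective).2 he
  have hmapE : (upF k' (model F G)).map (algebraMap k'[X] E) =
      ((model F G).map (algebraMap k[X] K)).map (algebraMap K E) := by
    unfold upF
    rw [Polynomial.map_map, Polynomial.map_map]
    congr 1
    exact RingHom.ext fun p => (hE.comp p).symm
  have hirrE : Irreducible (((model F G).map (algebraMap k[X] K)).map (algebraMap K E)) := by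
    have h1 := irr_model (F := upF k' F) (G := G.map (algebraMap k k')) (K := E) hF' hgi
      (by rw [hdeg]; exact hn) he' hfr
    rw [model_up F G h.monic, hmapE] at h1
    exact h1
  have hfA : ((upF k' (model F G)).map (algebraMap k'[X] A')).map (algebraMap A' E) =
      ((model F G).map (algebraMap k[X] K)).map (algebraMap K E) := by
    rw [Polynomial.map_map, ← IsScalarTower.algebraMap_eq k'[X] A' E, hmapE]
  have hfAm : ((upF k' (model F G)).map (algebraMap k'[X] A')).Monic :=
    ((model_monic F G hn).map _).map _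
  -- the algebras
  set j := algebraMap k k' with hj
  letI : Algebra k[X] A' := ((algebraMap k'[X] A').comp (mapRingHom j)).toAlgebra
  haveI : Algebra.IsIntegral k[X] A' := by
    have h1 : (algebraMap k'[X] A').IsIntegral := fun x => IsIntegralClosure.isIntegral k'[X] E x
    have h3 : ((algebraMap k'[X] A').comp (mapRingHom j)).IsIntegral :=
      RingHom.IsIntegral.trans _ _ Pool.Agent.TH115.GD.poly_integral h1
    exact ⟨h3⟩
  letI : Algebra k K := ((algebraMap k[X] K).comp C).toAlgebra
  letI : Algebra k' E := ((algebraMap k'[X] E).comp C).toAlgebra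
  letI : Algebra k E := ((algebraMap k' E).comp j).toAlgebra
  haveI : IsScalarTower k k' E := IsScalarTower.of_algebraMap_eq fun x => rfl
  haveI : IsScalarTower k K E := IsScalarTower.of_algebraMap_eq fun x => by
    show algebraMap k'[X] E (C (j x)) = algebraMap K E (algebraMap k[X] K (C x))
    rw [hE.comp, map_C]
  letI : Algebra k' A' := ((algebraMap k'[X] A').comp C).toAlgebra
  haveI : IsScalarTower k' A' E := IsScalarTower.of_algebraMap_eq fun x =>
    IsScalarTower.algebraMap_apply k'[X] A' E (C x)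
  have hAA : ∀ p : k[X], algebraMap k[X] A' p = algebraMap k'[X] A' (p.map j) := fun p => rfl
  have hFA : F.map (algebraMap k[X] A') = (upF k' F).map (algebraMap k'[X] A') := by
    unfold upF
    rw [Polynomial.map_map]
    rfl
  have hGA : algebraMap k[X] A' G = algebraMap k'[X] A' (G.map j) := rfl
  have hmA : model (F.map (algebraMap k[X] A')) (algebraMap k[X] A' G) =
      (upF k' (model F G)).map (algebraMap k'[X] A') := by
    rw [hFA, hGA, ← model_up F G h.monic]
    haveI : Nontrivial A' := inferInstance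
    exact (model_map (algebraMap k'[X] A') hF').symm
  haveI : FaithfulSMul k[X] A' := by
    rw [faithfulSMul_iff_algebraMap_injective]
    intro x y hxy
    have h1 := congrArg (algebraMap A' E) hxy
    rw [hAA, hAA, ← IsScalarTower.algebraMap_apply k'[X] A' E,
      ← IsScalarTower.algebraMap_apply k'[X] A' E] at h1
    exact Polynomial.map_injective j j.injective (hinjE h1)
  haveI : Module.IsTorsionFree k[X] A' := by
    rw [Module.isTorsionFree_iff_algebraMap_injective]
    exact FaithfulSMul.algebraMap_injective k[X] A'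
  letI : Algebra k[X] E := ((algebraMap K E).comp (algebraMap k[X] K)).toAlgebra
  haveI : IsScalarTower k[X] K E := IsScalarTower.of_algebraMap_eq fun x => rfl
  haveI : IsScalarTower k[X] A' E := IsScalarTower.of_algebraMap_eq fun x => by
    show algebraMap K E (algebraMap k[X] K x) = _
    rw [hE.comp, hAA, ← IsScalarTower.algebraMap_apply k'[X] A' E]
  obtain ⟨v', hv'⟩ := Pool.Agent.TH115.GD.exists_over (B := A') v0
  have hval' : v'.valuation E (algebraMap A' E (algebraMap k[X] A' (eG F G))) = exp (-1 : ℤ) := by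
    rw [← IsScalarTower.algebraMap_apply k[X] A' E, IsScalarTower.algebraMap_apply k[X] K E]
    rw [Pool.Agent.TH115.GD.val_unram k (k' := k') (N := K) (M := E) (R := k[X]) (B := A') hE.gen v',
      hv', hval]
  have hmem' : algebraMap k[X] A' (eG F G) ∈ v'.asIdeal := by
    have h1 : eG F G ∈ (v'.under k[X]).asIdeal := by
      rw [hv', hsp]
      exact Ideal.subset_span rfl
    exact h1
  haveI : Module.IsTorsionFree k[X] (AdjoinRoot F) := by
    rw [Module.isTorsionFree_iff_algebraMap_injective]
    refine AdjoinRoot.of.injective_of_degree_ne_zero ?_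
    intro h0
    have h1 : F.natDegree = 0 := natDegree_eq_of_degree_eq_some h0
    rw [h1] at hn
    exact lt_irrefl _ hn
  have hirrF : Irreducible ((F.map (algebraMap k[X] A')).map (algebraMap A' E)) := by
    rw [hFA, Polynomial.map_map, ← IsScalarTower.algebraMap_eq k'[X] A' E]
    exact irr_base hF' hgi hfr
  have hreg : RegW (F.map (algebraMap k[X] A')) (algebraMap k[X] A' G) := by
    have h1 : RegW (upF k' F) (G.map j) := regW_base hsm'
    have h3 := h1.equiv e.toRingEquiv
    rw [heq] at h3
    rw [hFA, hGA]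
    have h4 : e.toRingEquiv (G.map j) = algebraMap k'[X] A' (G.map j) := e.commutes _
    rw [h4] at h3
    exact h3
  exact tateCB k (A := k[X]) (F₁ := F) (G₁ := G) hE.gen (fun a => by
      rw [hE.comp]
      exact IsScalarTower.algebraMap_apply k'[X] A' E _)
    (fun a => by
      rw [← IsScalarTower.algebraMap_apply k[X] K N,
        ← IsScalarTower.algebraMap_apply k[X] (AdjoinRoot F) N])
    h.monic h.odd (by rw [hmA]; exact hfA) hgd (by rw [hmA]; exact hS) hreg hirr hirrE hirrF
    (θ₀ := -c) rfl hx1 hx2 hxW v0 hsp v' hmem' hval' h.cop {mk F G K}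
    (fun P hP => by rw [Set.mem_singleton_iff.1 hP]; exact hmk) hpts

end main

end Pool.Agent.Q45.NE
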