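import Pool.Agent.Q45.ND.Par

/-!
# The valuations of the Kummer generator over a Dedekind domain: regular points
-/

set_option autoImplicit false
set_option linter.all false

open Polynomial IsDedekindDomain WithZero
open scoped nonZeroDivisors Classical

namespace Pool.Agent.Q45.NE

open Pool.Agent.Y160.SQ
open Pool.Agent.TH115.GD (incl rs ak Sep Comp rs_mul exists_compl_map)
open Pool.Agent.W309.TD (locConst_apply compare)
open Pool.Agent.Y160.SE (IsPw)
open Pool.Agent.Q45.GP

section par

variable {p m ℓ : ℕ} {A K N R : Type} [CommRing A] [IsDedekindDomain A] [Field K] [Algebra A K]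
  [IsFractionRing A K] [Field N] [Algebra K N] [Algebra N (Sep K)] [IsScalarTower K N (Sep K)]
  [CommRing R] [IsDedekindDomain R] [Algebra R N] [IsFractionRing R N] [Algebra A R]
  [Algebra.IsIntegral A R] [Algebra A N] [IsScalarTower A K N]
  [IsScalarTower A R N] [Module.IsTorsionFree A R]

/-- The valuation of the generator at a regular point is an `ℓ`-th power. -/
theorem parA (hp : p.Prime) (hpm : ℓ = p ^ m) (H : Hyps)
    {f : A[X]} {ζ : K} (hg : Good ℓ ζ (f.map (algebraMap A K))) (hfm : f.Monic)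
    {a : Sep K} {θ z : N} (hθ : algebraMap N (Sep K) θ = a)
    (ha : Rt (f.map (algebraMap A K)) a)
    {c : (Sep K ≃ₐ[K] Sep K) → Jac ℓ (f.map (algebraMap A K)) (Sep K)}
    (hc : IsCoc ℓ _ c) (hc2 : ∀ σ, Tor hg (c σ))
    (hloc : ∀ v : HeightOneSpectrum A,
      LocTriv ℓ (f.map (algebraMap A K)) (Comp A K v) (Sep (Comp A K v)) c) {t : Sep K} (ht : t ≠ 0)
    (hz : t ^ ℓ = algebraMap N (Sep K) z) (hk : ∀ σ : Sep K ≃ₐ[K] Sep K, σ a = a →
      σ t = chi hg a (c σ) * t) (θ₀ : R) (hθ₀ : algebraMap R N θ₀ = θ) (𝔓 : HeightOneSpectrum R)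
    (hS : f ∉ (𝔓.asIdeal.comap (aeval (R := A) θ₀).toRingHom) ^ 2) :
    IsPw ℓ (𝔓.valuation N z) := by
  set f1 := f.map (algebraMap A K) with hf1
  let v : HeightOneSpectrum A := 𝔓.under A
  haveI hlo : 𝔓.asIdeal.LiesOver v.asIdeal := ⟨rfl⟩
  have hval : ∀ x : K, v.valuation K x ^ v.asIdeal.ramificationIdx' 𝔓.asIdeal =
      𝔓.valuation N (algebraMap K N x) := fun x =>
    HeightOneSpectrum.valuation_liesOver (A := A) N v 𝔓 x
  have he : v.asIdeal.ramificationIdx' 𝔓.asIdeal ≠ 0 :=
    Ideal.IsDedekindDomain.ramificationIdx'_ne_zero_of_liesOver 𝔓.asIdeal v.ne_bot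
  obtain ⟨j, hj1, hj2, hj3⟩ := exists_compl_map v 𝔓 (algebraMap K N)
    (fun x hx => by rw [← hval]; exact pow_le_one₀ zero_le hx)
    (fun x hx => by rw [← hval]; exact pow_lt_one₀ zero_le hx he)
  let L := Comp A K v
  let E := Comp R N 𝔓
  let j' : L →+* E := j
  have hjK : ∀ x : K, j' (algebraMap K L x) = algebraMap K E x := fun x => hj1 x
  haveI : Algebra.IsSeparable K (Sep K) := IsSepClosure.separable
  haveI : IsGalois K (Sep K) := inferInstance
  obtain ⟨g0, G, y0, hg0, hy0, hG, hzG⟩ := locC (K := K) (F := K) (Ω := Sep K) (L := L)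
    (Ω' := Sep L) (E := E) (M := N) H hg (Sep E) ha hθ j' hjK hc hc2 (hloc v) ht hz hk
  let wE : Valuation E (WithZero (Multiplicative ℤ)) :=
    (Valued.v : Valuation (𝔓.adicCompletion N) (WithZero (Multiplicative ℤ)))
  have wz : ∀ x : N, wE (algebraMap N E x) = 𝔓.valuation N x := fun x =>
    HeightOneSpectrum.valuedAdicCompletion_eq_valuation' 𝔓 x
  -- the polynomial over the integers of the completion
  let fO : (v.adicCompletionIntegers K)[X] := f.map (algebraMap A (v.adicCompletionIntegers K))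
  have hfO : fO.map (algebraMap (v.adicCompletionIntegers K) (v.adicCompletion K)) =
      f1.map (algebraMap K L) := by
    show (f.map (algebraMap A (v.adicCompletionIntegers K))).map
      (algebraMap (v.adicCompletionIntegers K) (v.adicCompletion K)) = _
    rw [Polynomial.map_map, hf1, Polynomial.map_map]
    congr 1
  have hroot : ((f1.map (algebraMap K L)).map j').eval (algebraMap N E θ) = 0 := by
    have h1 : eval₂ (algebraMap K N) θ f1 = 0 := by
      apply (algebraMap N (Sep K)).injective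
      rw [hom_eval₂, hθ, map_zero]
      have h3 : (algebraMap N (Sep K)).comp (algebraMap K N) = algebraMap K (Sep K) :=
        RingHom.ext fun x => (IsScalarTower.algebraMap_apply K N (Sep K) x).symm
      rw [h3]
      exact ha
    rw [Polynomial.map_map]
    have h3 : j'.comp (algebraMap K L) = (algebraMap N E).comp (algebraMap K N) :=
      RingHom.ext fun x => hjK x
    rw [h3, eval_map, ← hom_eval₂, h1, map_zero]
  have hpw : ∀ s : Multiset (ℕ × L[X]), (∀ x ∈ s, x.2.Monic ∧ Irreducible x.2 ∧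
      ¬ x.2 ∣ f1.map (algebraMap K L) ∧ x.1 ∣ ℓ ∧
      ∃ c : L[X], x.2 ∣ f1.map (algebraMap K L) - c ^ x.1) →
      IsPw ℓ (wE ((((s.map fun x : ℕ × L[X] => x.2 ^ (ℓ / x.1)).prod).map j').eval (algebraMap N E θ))) := by
    intro s
    induction s using Multiset.induction_on with
    | empty =>
      intro _
      rw [Multiset.map_zero, Multiset.prod_zero, Polynomial.map_one, eval_one, map_one]
      exact ⟨1, (one_pow _).symm⟩
    | cons x s ih =>
      intro h
      obtain ⟨h1, h3, h4, hd, c, h5⟩ := h x (Multiset.mem_cons_self x s)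
      rw [Multiset.map_cons, Multiset.prod_cons, Polynomial.map_mul, eval_mul, map_mul]
      refine IsPw.mul ?_ (ih fun q hq => h q (Multiset.mem_cons_of_mem hq))
      have hd0 : 0 < x.1 := Nat.pos_of_dvd_of_pos hd hg.pos
      obtain ⟨γ, hγ⟩ := Pool.Agent.Q45.ND.loc x.1 v wE j' hj2 hj3 fO (f1.map (algebraMap K L)) x.2 c
        (algebraMap N E θ) hd0 hfO (hfm.map _) (fun a' _ _ haw =>
          Pool.Agent.Q45.ND.reg_pt v 𝔓 j (fun x => by
          rw [hj1, ← IsScalarTower.algebraMap_apply A K N, ← IsScalarTower.algebraMap_apply A R N])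
          hj2 hj3 θ₀ f hS a' (by
            rw [hθ₀]
            exact haw))
        (by
          have h6 := hg.cop
          rw [hfm.natDegree_map] at h6
          have h7 : fO.natDegree = f.natDegree := hfm.natDegree_map _
          rw [h7]
          exact Nat.Coprime.coprime_dvd_left hd h6) hroot h1 h3 h5
      refine ⟨γ, ?_⟩
      rw [Polynomial.map_pow, eval_pow, map_pow]
      refine (congrArg (fun δ => δ ^ (ℓ / x.1)) hγ).trans ?_
      show (γ ^ x.1) ^ (ℓ / x.1) = γ ^ ℓ
      rw [← pow_mul, Nat.mul_div_cancel' hd]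
  obtain ⟨s, hps, hGe⟩ := hG
  have hGpw : IsPw ℓ (wE ((G.map j').eval (algebraMap N E θ))) := by
    rw [hGe]
    exact hpw s hps
  rw [← wz]
  refine IsPw.of_mul (δ := wE (j' y0)) ?_ ?_
  · rw [Valuation.ne_zero_iff]
    exact (_root_.map_ne_zero j').2 hy0
  · rw [← map_pow, ← map_mul]
    rcases hzG with h | h
    · rw [h, map_mul, map_pow, map_pow]
      exact (IsPw.self _).mul (hGpw.pow _)
    · rw [h, Valuation.map_neg, map_mul, map_pow, map_pow]
      exact (IsPw.self _).mul (hGpw.pow _)

end par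

end Pool.Agent.Q45.NE
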