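import Pool.Agent.Q45.NE.ParA
import Pool.Agent.Q45.NE.LocU
import Pool.Agent.Q45.NE.LocR

/-!
# The valuations of the Kummer generator at all points over one place
-/

set_option autoImplicit false
set_option linter.all false

open Polynomial IsDedekindDomain WithZero
open scoped nonZeroDivisors Classical

namespace Pool.Agent.Q45.NE

open Pool.Agent.Y160.SQ
open Pool.Agent.TH115.GD (incl rs ak Sep Comp rs_mul exists_compl_map)
open Pool.Agent.Y160.SE (IsPw)

/-- The polynomial `w * F(w + G)` does not lie in the square of the ideal of a point with `w`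
different from zero. -/
def RegW {A : Type} [CommRing A] (F : A[X]) (G : A) : Prop :=
  ∀ (B : Type) [CommRing B] [Algebra A B] (W : B) (I : Ideal B), I.IsPrime →
    X * taylor G F ∈ (I.comap (aeval (R := A) W).toRingHom) ^ 2 → W ∈ I

theorem par_zpow {γ x : WithZero (Multiplicative ℤ)} (hx : x ≠ 0) {a b : ℤ} (hab : Even (b - a))
    (h : IsPw 2 (γ * x ^ a)) : IsPw 2 (γ * x ^ b) := by
  obtain ⟨δ, hδ⟩ := h
  obtain ⟨s, hs⟩ := hab
  refine ⟨δ * x ^ s, ?_⟩
  have h1 : b = a + (s + s) := by omega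
  rw [h1, zpow_add₀ hx, zpow_add₀ hx, mul_pow, ← hδ, ← mul_assoc, ← sq]

/-- The valuation of the constant. -/
theorem val_lam {L E : Type} [Field L] [Field E] (w0 : Valuation L (WithZero (Multiplicative ℤ)))
    (wE : Valuation E (WithZero (Multiplicative ℤ))) (j : L →+* E)
    (hle : ∀ y, w0 y ≤ 1 → wE (j y) ≤ 1) {lam e : L} {m : ℤ} (hl : w0 lam = exp m)
    (he : w0 e = exp (-1 : ℤ)) : wE (j lam) = wE (j e) ^ (-m) := by
  have he0 : e ≠ 0 := by
    rintro rfl
    rw [map_zero] at he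
    exact exp_ne_zero he.symm
  have hl0 : lam ≠ 0 := by
    rintro rfl
    rw [map_zero] at hl
    exact exp_ne_zero hl.symm
  have h1 : w0 (lam * e ^ m) = 1 := by
    rw [map_mul, map_zpow₀, hl, he, ← exp_zsmul, ← exp_add]
    have h2 : m + m • (-1 : ℤ) = 0 := by
      rw [smul_eq_mul]
      ring
    rw [h2, exp_zero]
  have h2 : wE (j (lam * e ^ m)) ≤ 1 := hle _ h1.le
  have h3 : wE (j (lam * e ^ m)⁻¹) ≤ 1 := hle _ (by rw [map_inv₀, h1, inv_one])
  have hu0 : lam * e ^ m ≠ 0 := mul_ne_zero hl0 (zpow_ne_zero _ he0)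
  have h4 : wE (j (lam * e ^ m)) * wE (j (lam * e ^ m)⁻¹) = 1 := by
    rw [← map_mul, ← map_mul, mul_inv_cancel₀ hu0, map_one, map_one]
  have h5 : wE (j (lam * e ^ m)) = 1 := by
    refine le_antisymm h2 ?_
    rw [← h4]
    calc wE (j (lam * e ^ m)) * wE (j (lam * e ^ m)⁻¹) ≤ wE (j (lam * e ^ m)) * 1 :=
          mul_le_mul_right h3 _
      _ = _ := mul_one _
  have hje : wE (j e) ≠ 0 := by
    rw [Valuation.ne_zero_iff]
    exact (_root_.map_ne_zero j).2 he0
  rw [map_mul, map_mul, map_zpow₀, map_zpow₀] at h5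
  rw [zpow_neg]
  exact eq_inv_of_mul_eq_one_left h5

section par

variable {A K N R : Type} [CommRing A] [IsDedekindDomain A] [Field K] [Algebra A K]
  [IsFractionRing A K] [Field N] [Algebra K N] [Algebra N (Sep K)] [IsScalarTower K N (Sep K)]
  [CommRing R] [IsDedekindDomain R] [Algebra R N] [IsFractionRing R N] [Algebra A R]
  [Algebra.IsIntegral A R] [Algebra A N] [IsScalarTower A K N]
  [IsScalarTower A R N] [Module.IsTorsionFree A R]

/-- The valuation of the generator at the points over one place where `w - G` is a unit. -/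
theorem parB (H : Hyps) {F₀ : A[X]} {G₀ : A} {ζ : K} (hF₀ : F₀.Monic) (hodd : Odd F₀.natDegree)
    (he : eG F₀ G₀ ≠ 0) (hg : Good 2 ζ ((model F₀ G₀).map (algebraMap A K)))
    {a : Sep K} {θ z : N} (hθ : algebraMap N (Sep K) θ = a)
    (ha : Rt ((model F₀ G₀).map (algebraMap A K)) a)
    {c : (Sep K ≃ₐ[K] Sep K) → Jac 2 ((model F₀ G₀).map (algebraMap A K)) (Sep K)}
    (hc : IsCoc 2 _ c) (hc2 : ∀ σ, Tor hg (c σ)) (v : HeightOneSpectrum A)
    (hloc : LocTriv 2 ((model F₀ G₀).map (algebraMap A K)) (Comp A K v) (Sep (Comp A K v)) c)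
    {t : Sep K} (ht : t ≠ 0)
    (hz : t ^ 2 = algebraMap N (Sep K) z) (hk : ∀ σ : Sep K ≃ₐ[K] Sep K, σ a = a →
      σ t = chi hg a (c σ) * t) {θ₀ W₀ : R} (hθ₀ : algebraMap R N θ₀ = θ)
    (hxW : θ₀ * W₀ = algebraMap A R (eG F₀ G₀)) (hroot : aeval (algebraMap A R G₀ + W₀) F₀ = 0)
    (hv : v.valuation K (algebraMap A K (eG F₀ G₀)) = exp (-1 : ℤ)) (hreg : RegW F₀ G₀) :
    ∃ i : ℕ, ∀ 𝔓 : HeightOneSpectrum R, 𝔓.under A = v → W₀ ∉ 𝔓.asIdeal →
      IsPw 2 (𝔓.valuation N (z * θ ^ i)) := by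
  let L := Comp A K v
  haveI : Algebra.IsSeparable K (Sep K) := IsSepClosure.separable
  haveI : IsGalois K (Sep K) := inferInstance
  obtain ⟨G, hG, hUni⟩ := locU (K := K) (F := K) (Ω := Sep K) (L := L)
    (Ω' := Sep L) (M := N) H hg ha hθ hc hc2 hloc ht hz hk
  have hfL : ((model F₀ G₀).map (algebraMap A K)).map (algebraMap K L) =
      (model F₀ G₀).map (iL (K := K) v) := by
    rw [Polynomial.map_map]
    rfl
  have hG' : LP 2 ((model F₀ G₀).map (iL (K := K) v)) G := by
    rw [← hfL]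
    exact hG
  obtain ⟨lam, hlam, hLam⟩ := loc_Lam v hF₀ hodd he hG'
  let w0 : Valuation L (WithZero (Multiplicative ℤ)) :=
    (Valued.v : Valuation (v.adicCompletion K) (WithZero (Multiplicative ℤ)))
  obtain ⟨m, hm⟩ : ∃ m : ℤ, w0 lam = exp m :=
    ⟨log (w0 lam), (exp_log ((Valuation.ne_zero_iff w0).2 hlam)).symm⟩
  have hwe : w0 (iL (K := K) v (eG F₀ G₀)) = exp (-1 : ℤ) := by
    rw [← hv]
    exact HeightOneSpectrum.valuedAdicCompletion_eq_valuation' v _
  refine ⟨m.natAbs, fun 𝔓 hPv hW => ?_⟩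
  subst hPv
  haveI hlo : 𝔓.asIdeal.LiesOver (𝔓.under A).asIdeal := ⟨rfl⟩
  have hval : ∀ x : K, (𝔓.under A).valuation K x ^
      (𝔓.under A).asIdeal.ramificationIdx' 𝔓.asIdeal =
      𝔓.valuation N (algebraMap K N x) := fun x =>
    HeightOneSpectrum.valuation_liesOver (A := A) N (𝔓.under A) 𝔓 x
  have hram : (𝔓.under A).asIdeal.ramificationIdx' 𝔓.asIdeal ≠ 0 :=
    Ideal.IsDedekindDomain.ramificationIdx'_ne_zero_of_liesOver 𝔓.asIdeal (𝔓.under A).ne_bot
  obtain ⟨j, hj1, hj2, hj3⟩ := exists_compl_map (𝔓.under A) 𝔓 (algebraMap K N)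
    (fun x hx => by rw [← hval]; exact pow_le_one₀ zero_le hx)
    (fun x hx => by rw [← hval]; exact pow_lt_one₀ zero_le hx hram)
  let E := Comp R N 𝔓
  let j' : L →+* E := j
  have hjK : ∀ x : K, j' (algebraMap K L x) = algebraMap K E x := fun x => hj1 x
  obtain ⟨g0, y0, hg0, hy0, hzG⟩ := hUni E (Sep E) j' hjK
  let wE : Valuation E (WithZero (Multiplicative ℤ)) :=
    (Valued.v : Valuation (𝔓.adicCompletion N) (WithZero (Multiplicative ℤ)))
  have wz : ∀ x : N, wE (algebraMap N E x) = 𝔓.valuation N x := fun x =>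
    HeightOneSpectrum.valuedAdicCompletion_eq_valuation' 𝔓 x
  have hjA : ∀ x : A, j' (iL (K := K) (𝔓.under A) x) =
      algebraMap N E (algebraMap R N (algebraMap A R x)) := by
    intro x
    rw [← IsScalarTower.algebraMap_apply A R N, IsScalarTower.algebraMap_apply A K N]
    exact hj1 _
  have hpt : IsPt (𝔓.under A) F₀ G₀ wE j' (algebraMap N E θ)
      (algebraMap N E (algebraMap R N W₀)) := by
    refine ⟨hj2, hj3, ?_, ?_, ?_, ?_⟩
    · refine Eq.trans ?_ (hjA (eG F₀ G₀)).symm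
      rw [← hxW, map_mul, map_mul, hθ₀]
    · rw [wz, 𝔓.valuation_of_algebraMap, HeightOneSpectrum.intValuation_eq_one_iff]
      exact hW
    · have h1 : (j.comp (iL (K := K) (𝔓.under A)) : A →+* E) =
          ((algebraMap N E).comp (algebraMap R N)).comp (algebraMap A R) :=
        RingHom.ext hjA
      have h3 : (algebraMap N E (algebraMap R N (algebraMap A R G₀)) +
          algebraMap N E (algebraMap R N W₀) : E) =
          ((algebraMap N E).comp (algebraMap R N)) (algebraMap A R G₀ + W₀) := by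
        rw [map_add]
        rfl
      have h4 : eval₂ (algebraMap A R) (algebraMap A R G₀ + W₀) F₀ = 0 := hroot
      have h5 : eval₂ (((algebraMap N E).comp (algebraMap R N)).comp (algebraMap A R))
          (algebraMap N E (algebraMap R N (algebraMap A R G₀)) +
          algebraMap N E (algebraMap R N W₀)) F₀ = 0 := by
        rw [h3, ← hom_eval₂, h4, map_zero]
      rw [← h1, ← hjA] at h5
      exact h5
    · intro a' _ _ haw
      exact Pool.Agent.Q45.ND.reg_pt (𝔓.under A) 𝔓 j (fun x => by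
          rw [hj1, ← IsScalarTower.algebraMap_apply A K N, ← IsScalarTower.algebraMap_apply A R N])
          hj2 hj3 W₀ (X * taylor G₀ F₀) (fun h => hW (hreg R W₀ 𝔓.asIdeal 𝔓.isPrime h)) a' haw
  obtain ⟨δ, hδ'⟩ := hLam E wE j' _ _ hpt
  have hxe : wE (algebraMap N E θ) = wE (j' (iL (K := K) (𝔓.under A) (eG F₀ G₀))) := by
    have h1 := congrArg wE hpt.mul
    rw [map_mul, hpt.unit, mul_one] at h1
    exact h1
  have hwl : wE (j' lam) = wE (algebraMap N E θ) ^ (-m) := by
    rw [hxe]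
    exact val_lam w0 wE j' hj2 hm hwe
  have hx0 : wE (algebraMap N E θ) ≠ 0 := by
    rw [hxe, Valuation.ne_zero_iff]
    refine (_root_.map_ne_zero j').2 ?_
    intro h0
    rw [h0, map_zero] at hwe
    exact exp_ne_zero hwe.symm
  have hδ : wE ((G.map j').eval (algebraMap N E θ)) * wE (algebraMap N E θ) ^ (-m) = δ ^ 2 := by
    rw [← hwl]
    exact hδ'
  obtain ⟨s, hs⟩ := hodd
  have hdeg : ((model F₀ G₀).map (algebraMap A K)).natDegree = 2 * s + 1 := by
    rw [(model_monic F₀ G₀ (by omega)).natDegree_map, model_natDegree F₀ G₀ (by omega), hs]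
  have hmain : IsPw 2 (wE (algebraMap N E z) * wE (algebraMap N E θ) ^ (-m)) := by
    refine IsPw.of_mul (δ := wE (j' y0)) ?_ ?_
    · rw [Valuation.ne_zero_iff]
      exact (_root_.map_ne_zero j').2 hy0
    · set γ := wE ((G.map j').eval (algebraMap N E θ)) with hγ
      have h1 : wE (algebraMap N E z) * wE (j' y0) ^ 2 = wE g0 ^ 2 * γ ^ (2 * s + 1) := by
        rw [← map_pow, ← map_mul]
        rcases hzG with h | h
        · rw [h, map_mul, map_pow, map_pow, hdeg]
        · rw [h, Valuation.map_neg, map_mul, map_pow, map_pow, hdeg]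
      refine ⟨wE g0 * γ ^ s * δ, ?_⟩
      have h2 : wE (algebraMap N E z) * wE (algebraMap N E θ) ^ (-m) * wE (j' y0) ^ 2 =
          wE (algebraMap N E z) * wE (j' y0) ^ 2 * wE (algebraMap N E θ) ^ (-m) :=
        mul_right_comm _ _ _
      rw [h2, h1, pow_succ γ (2 * s), mul_assoc, mul_assoc (γ ^ (2 * s)), hδ, mul_comm 2 s, pow_mul,
        mul_pow, mul_pow, mul_assoc]
  rw [map_mul, map_pow, ← wz, ← wz, ← zpow_natCast]
  refine par_zpow hx0 ?_ hmain
  rcases Int.natAbs_eq m with h | h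
  · rw [h]
    simp only [Int.natAbs_natCast]
    exact ⟨(m.natAbs : ℤ), by ring⟩
  · refine ⟨0, ?_⟩
    omega

end par

end Pool.Agent.Q45.NE
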