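import Pool.Agent.Q45.NE.CritTB
import Pool.Agent.Q45.NE.Main

/-!
# Regularity where `w - G` is a unit; the cofactor
-/

set_option autoImplicit false
set_option linter.all false

open Polynomial IsDedekindDomain WithZero
open scoped Classical

namespace Pool.Agent.Q45.NE

open Pool.Agent.Q45.TG (ds coeff_ds ds_map fF fF_monic fF_natDegree irr_base sep_fF IsBr even_cls upF)
open Pool.Agent.Y160.SE (IsPw)
open Pool.Agent.Y160.SQ

section reg

variable {k : Type} [Field k] {F : k[X][X]} {G : k[X]}

theorem regW_base (hsm : ∃ a₁ a₂ a₃ : k[X][X], a₁ * F + a₂ * derivative F + a₃ * ds F = 1) :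
    RegW F G := by
  intro B _ _ W I hI hmem
  haveI := hI
  set J : Ideal k[X][X] := I.comap (aeval (R := k[X]) W).toRingHom with hJ
  haveI hJp : J.IsPrime := Ideal.IsPrime.comap _
  have hd0 : ∀ w ∈ J ^ 2, derivative w ∈ J ∧ ds w ∈ J ∧ w ∈ J := by
    intro w hw
    refine ⟨?_, ?_, Ideal.pow_le_self two_ne_zero hw⟩
    · rw [pow_two] at hw
      refine Submodule.mul_induction_on hw ?_ ?_
      · intro m hm n hn
        rw [derivative_mul]
        exact J.add_mem (J.mul_mem_left _ hn) (J.mul_mem_right _ hm)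
      · intro x y h1 h2
        rw [derivative_add]
        exact J.add_mem h1 h2
    · rw [pow_two] at hw
      refine Submodule.mul_induction_on hw ?_ ?_
      · intro m hm n hn
        rw [ds_mul]
        exact J.add_mem (J.mul_mem_left _ hn) (J.mul_mem_right _ hm)
      · intro x y h1 h2
        rw [ds_add]
        exact J.add_mem h1 h2
  obtain ⟨h1, h2, h3⟩ := hd0 _ hmem
  by_contra hW
  have hX : (X : k[X][X]) ∉ J := by
    intro h
    apply hW
    rw [hJ, Ideal.mem_comap] at h
    have h4 : (aeval (R := k[X]) W).toRingHom X = W := aeval_X W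
    rw [h4] at h
    exact h
  have hT : taylor G F ∈ J := (hJp.mem_or_mem h3).resolve_left hX
  have hT1 : derivative (taylor G F) ∈ J := by
    rw [derivative_mul, derivative_X, one_mul] at h1
    have h4 : X * derivative (taylor G F) ∈ J := by
      have h5 := J.sub_mem h1 hT
      rw [add_sub_cancel_left] at h5
      exact h5
    exact (hJp.mem_or_mem h4).resolve_left hX
  have hT2 : ds (taylor G F) ∈ J := by
    rw [ds_mul, ds_X, zero_mul, zero_add] at h2
    exact (hJp.mem_or_mem h2).resolve_left hX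
  have e1 : derivative (taylor G F) = taylor G (derivative F) := by
    rw [taylor_apply, derivative_comp, derivative_add, derivative_X, derivative_C, add_zero, one_mul,
      taylor_apply]
  rw [e1] at hT1
  have hT3 : taylor G (ds F) ∈ J := by
    rw [ds_taylor] at hT2
    have h5 := J.sub_mem hT2 (J.mul_mem_left (C (derivative G)) hT1)
    rw [add_sub_cancel_right] at h5
    exact h5
  obtain ⟨a₁, a₂, a₃, h⟩ := hsm
  apply hJp.ne_top
  rw [Ideal.eq_top_iff_one]
  have h6 := congrArg (taylor G) h
  rw [map_add, map_add, taylor_mul, taylor_mul, taylor_mul, taylor_one] at h6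
  have h7 : (C 1 : k[X][X]) = 1 := C_1
  rw [h7] at h6
  rw [← h6]
  exact J.add_mem (J.add_mem (J.mul_mem_left _ hT) (J.mul_mem_left _ hT1)) (J.mul_mem_left _ hT3)

/-- Regularity over an isomorphic ring. -/
theorem RegW.equiv {A A' : Type} [CommRing A] [CommRing A'] (e : A ≃+* A') {F : A[X]} {G : A}
    (h : RegW F G) : RegW (F.map (e : A →+* A')) (e G) := by
  intro B _ _ W I hI hmem
  letI : Algebra A B := ((algebraMap A' B).comp (e : A →+* A')).toAlgebra
  refine h B W I hI ?_
  have h1 := Ideal.mem_map_of_mem (mapRingHom (e.symm : A' →+* A)) hmem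
  rw [Ideal.map_pow] at h1
  have h2 : mapRingHom (e.symm : A' →+* A) (X * taylor (e G) (F.map (e : A →+* A'))) =
      X * taylor G F := by
    rw [coe_mapRingHom, Polynomial.map_mul, map_X, taylor_apply, Polynomial.map_comp,
      Polynomial.map_map, Polynomial.map_add, map_X, map_C, taylor_apply]
    have h3 : (e.symm : A' →+* A).comp (e : A →+* A') = RingHom.id A :=
      RingHom.ext fun a => e.symm_apply_apply a
    have h4 : (e.symm : A' →+* A) (e G) = G := e.symm_apply_apply G
    rw [h3, Polynomial.map_id, h4]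
  rw [h2] at h1
  refine Ideal.pow_right_mono ?_ 2 h1
  rw [Ideal.map_le_iff_le_comap]
  intro g hg
  rw [Ideal.mem_comap, Ideal.mem_comap]
  have h4 : (aeval (R := A) W).toRingHom (mapRingHom (e.symm : A' →+* A) g) =
      (aeval (R := A') W).toRingHom g := by
    show eval₂ (algebraMap A B) W (g.map (e.symm : A' →+* A)) = eval₂ (algebraMap A' B) W g
    rw [eval₂_map]
    congr 1
    refine RingHom.ext fun a => ?_
    show algebraMap A' B (e (e.symm a)) = _
    rw [e.apply_symm_apply]
  rw [h4]
  exact hg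

end reg

section cof

variable {k : Type} [Field k] {F : k[X][X]} {G : k[X]} {c : AdjoinRoot F}

/-- The cofactor modulo `w - G`. -/
theorem cof_congr [IsDomain (AdjoinRoot F)]
    (hne : AdjoinRoot.of F G - AdjoinRoot.root F ≠ 0)
    (hc : c * (AdjoinRoot.of F G - AdjoinRoot.root F) = AdjoinRoot.of F (eG F G)) :
    ∃ s : AdjoinRoot F, c = AdjoinRoot.of F ((derivative F).eval G) +
      s * (AdjoinRoot.root F - AdjoinRoot.of F G) := by
  obtain ⟨r, hr⟩ := binomExpansion (F.map (AdjoinRoot.of F)) (AdjoinRoot.of F G)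
    (AdjoinRoot.root F - AdjoinRoot.of F G)
  have h1 : (F.map (AdjoinRoot.of F)).eval (AdjoinRoot.of F G) = AdjoinRoot.of F (eG F G) := by
    rw [eval_map, eval₂_at_apply]
    rfl
  have h2 : (derivative (F.map (AdjoinRoot.of F))).eval (AdjoinRoot.of F G) =
      AdjoinRoot.of F ((derivative F).eval G) := by
    rw [derivative_map, eval_map, eval₂_at_apply]
  have h3 : (F.map (AdjoinRoot.of F)).eval (AdjoinRoot.root F) = 0 := by
    rw [eval_map, AdjoinRoot.eval₂_root]
  rw [add_sub_cancel, h1, h2, h3, ← hc] at hr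
  refine ⟨r, ?_⟩
  apply mul_right_cancel₀ hne
  linear_combination (-1 : AdjoinRoot F) * hr

theorem cof_coprime [IsDomain (AdjoinRoot F)]
    (hne : AdjoinRoot.of F G - AdjoinRoot.root F ≠ 0)
    (hc : c * (AdjoinRoot.of F G - AdjoinRoot.root F) = AdjoinRoot.of F (eG F G))
    (hcop : IsCoprime (eG F G) ((derivative F).eval G)) :
    IsCoprime (-c) (AdjoinRoot.root F - AdjoinRoot.of F G) := by
  obtain ⟨s, hs⟩ := cof_congr hne hc
  obtain ⟨a, b, hab⟩ := hcop
  have h1 := congrArg (AdjoinRoot.of F) hab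
  rw [map_add, map_mul, map_mul, map_one, ← hc] at h1
  refine ⟨-AdjoinRoot.of F b, -AdjoinRoot.of F a * c - AdjoinRoot.of F b * s, ?_⟩
  rw [← h1]
  linear_combination (AdjoinRoot.of F b) * hs

/-- The cofactor is not a square up to sign. -/
theorem cof_not_sq (hsep : (eG F G).Separable)
    (hunr : IsCoprime (AdjoinRoot.of F (eG F G)) (AdjoinRoot.mk F (derivative F)))
    (hc : c * (AdjoinRoot.of F G - AdjoinRoot.root F) = AdjoinRoot.of F (eG F G))
    {s : AdjoinRoot F} {ε : k} (hs : c = AdjoinRoot.of F (C ε) * s ^ 2) : IsUnit s := by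
  obtain ⟨σ, rfl⟩ := AdjoinRoot.mk_surjective s
  have h1 : AdjoinRoot.mk F (C (C ε) * σ ^ 2 * (C G - X)) = AdjoinRoot.mk F (C (eG F G)) := by
    rw [map_mul, map_mul, map_pow, map_sub, AdjoinRoot.mk_C, AdjoinRoot.mk_C, AdjoinRoot.mk_X,
      AdjoinRoot.mk_C, ← hc, hs]
  rw [AdjoinRoot.mk_eq_mk] at h1
  obtain ⟨g, hg⟩ := h1
  have h2 : C (C ε) * σ ^ 2 * (C G - X) = C (eG F G) + F * g := by
    rw [← hg]
    ring
  -- the derivatives
  have h3 := congrArg derivative h2
  have h4 := congrArg ds h2
  have h5 : derivative (C (C ε) * σ ^ 2 * (C G - X)) =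
      σ * (C (C ε) * (2 * derivative σ * (C G - X) - σ)) := by
    rw [derivative_mul, derivative_mul, derivative_sub, derivative_X, derivative_C, derivative_C,
      derivative_sq]
    simp only [C_ofNat]
    ring
  have h6 : derivative (C (eG F G) + F * g) = derivative F * g + F * derivative g := by
    rw [derivative_add, derivative_C, zero_add, derivative_mul]
  have h7 : ds (C (C ε) * σ ^ 2 * (C G - X)) = σ * (C (C ε) * (2 * ds σ * (C G - X) +
      σ * C (derivative G))) := by
    have e1 : (C G - X : k[X][X]) = C G + (-1) * X := by ring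
    have e2 : ds (-1 : k[X][X]) = 0 := by
      have e3 : (-1 : k[X][X]) = C (-1) := by rw [C_neg, C_1]
      rw [e3, ds_C, derivative_neg, derivative_one, neg_zero, C_0]
    have e4 : ds (C G - X : k[X][X]) = C (derivative G) := by
      rw [e1, ds_add, ds_C, ds_mul, ds_X, e2, zero_mul, mul_zero, add_zero, add_zero]
    rw [ds_mul, ds_mul, ds_C, derivative_C, C_0, zero_mul, zero_add, ds_pow, e4]
    norm_num
    ring
  have h8 : ds (C (eG F G) + F * g) = C (derivative (eG F G)) + (ds F * g + F * ds g) := by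
    rw [ds_add, ds_C, ds_mul]
  rw [h5, h6] at h3
  rw [h7, h8] at h4
  -- in the ring
  have h9 : AdjoinRoot.mk F σ * AdjoinRoot.mk F (C (C ε) * (2 * derivative σ * (C G - X) - σ)) =
      AdjoinRoot.mk F (derivative F) * AdjoinRoot.mk F g := by
    rw [← map_mul, h3, map_add, map_mul, map_mul, AdjoinRoot.mk_self, zero_mul, add_zero]
  have h10 : AdjoinRoot.mk F σ * AdjoinRoot.mk F (C (C ε) * (2 * ds σ * (C G - X) +
      σ * C (derivative G))) = AdjoinRoot.of F (derivative (eG F G)) +
        AdjoinRoot.mk F (ds F) * AdjoinRoot.mk F g := by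
    rw [← map_mul, h4, map_add, map_add, map_mul, map_mul, AdjoinRoot.mk_self, zero_mul, add_zero,
      AdjoinRoot.mk_C]
  obtain ⟨x, y, hxy⟩ := hunr
  obtain ⟨a, b, hab⟩ := hsep
  have h11 := congrArg (AdjoinRoot.of F) hab
  rw [map_add, map_mul, map_mul, map_one] at h11
  set S := AdjoinRoot.mk F σ with hS
  set A₁ := AdjoinRoot.mk F (C (C ε) * (2 * derivative σ * (C G - X) - σ)) with hA₁
  set A₂ := AdjoinRoot.mk F (C (C ε) * (2 * ds σ * (C G - X) + σ * C (derivative G))) with hA₂
  set g₁ := AdjoinRoot.mk F g with hg₁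
  set D₁ := AdjoinRoot.mk F (derivative F) with hD₁
  set D₂ := AdjoinRoot.mk F (ds F) with hD₂
  set e₁ := AdjoinRoot.of F (eG F G) with he₁
  set e₂ := AdjoinRoot.of F (derivative (eG F G)) with he₂
  -- `e` is divisible by `s`
  have h12 : e₁ = S * (AdjoinRoot.of F (C ε) * S * (AdjoinRoot.of F G - AdjoinRoot.root F)) := by
    rw [← hc, hs]
    ring
  set T := AdjoinRoot.of F (C ε) * S * (AdjoinRoot.of F G - AdjoinRoot.root F) with hT
  -- `g` is divisible by `s`
  have h13 : g₁ = S * (x * T * g₁ + y * A₁) := by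
    calc g₁ = (x * e₁ + y * D₁) * g₁ := by rw [hxy, one_mul]
      _ = S * (x * T * g₁ + y * A₁) := by
        rw [h12]
        linear_combination (-y) * h9
  have h14 : e₂ = S * (A₂ - D₂ * (x * T * g₁ + y * A₁)) := by
    linear_combination (-1 : AdjoinRoot F) * h10 - D₂ * h13
  refine IsUnit.of_mul_eq_one (AdjoinRoot.of F a * T + AdjoinRoot.of F b *
    (A₂ - D₂ * (x * T * g₁ + y * A₁))) ?_
  have h15 : AdjoinRoot.of F a * e₁ + AdjoinRoot.of F b * e₂ = 1 := h11
  rw [← h15, h14]
  linear_combination (- AdjoinRoot.of F a) * h12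

end cof

end Pool.Agent.Q45.NE
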