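import Pool.Agent.Q45.NE.Gal

/-!
# Infinite solvable extensions
-/

set_option autoImplicit false
set_option linter.all false

open Polynomial
open scoped Classical

namespace Pool.Agent.Q45.NE

/-- The polynomial does not split over a solvable extension, unless its degree is a prime power. -/
theorem solv_of (h : SolvExtS) (k : Type) [Field k] (p : k[X]) (hp : p.Monic) (hirr : Irreducible p)
    (hsep : p.Separable) (hdom : IsDomain (AdjoinRoot (quo p))) (hn : 2 ≤ p.natDegree)
    (hpp : ¬ IsPrimePow p.natDegree) (E : Type) [Field E] [Algebra k E] [IsGalois k E]
    (hsol : ∀ L : IntermediateField k E, FiniteDimensional k L → IsGalois k L →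
      IsSolvable (L ≃ₐ[k] L)) : ¬ (p.map (algebraMap k E)).Splits := by
  intro hs
  let L : IntermediateField k E := IntermediateField.adjoin k (p.rootSet E)
  haveI hsf : IsSplittingField k L p := IntermediateField.adjoin_rootSet_isSplittingField hs
  haveI : FiniteDimensional k L := IsSplittingField.finiteDimensional L p
  haveI : IsGalois k L := IsGalois.of_separable_splitting_field (p := p) hsep
  exact h k p hp hirr hsep hdom hn hpp L (hsol L inferInstance inferInstance) (IsSplittingField.splits L p)

end Pool.Agent.Q45.NE
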