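import Mathlib

/-!
# Statements on doubly transitive Galois groups
-/

set_option autoImplicit false
set_option linter.all false

open Polynomial
open scoped Classical

namespace Pool.Agent.Q45.NE

/-- The quotient of `p` by `X - θ`, where `θ` is the root of `p` in `R[X] / (p)`. -/
noncomputable def quo {R : Type} [CommRing R] (p : R[X]) : (AdjoinRoot p)[X] :=
  (p.map (AdjoinRoot.of p)) /ₘ (X - C (AdjoinRoot.root p))

/-- A finite solvable group which acts faithfully and doubly transitively on a finite set has prime
power degree. -/
def SolvS : Prop :=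
  ∀ (G α : Type) [Group G] [Finite G] [Fintype α] [MulAction G α] [FaithfulSMul G α], IsSolvable G →
    (∀ a b c d : α, a ≠ b → c ≠ d → ∃ g : G, g • a = c ∧ g • b = d) → 2 ≤ Fintype.card α →
    IsPrimePow (Fintype.card α)

/-- The polynomial `p` is doubly transitive: over a Galois extension it is irreducible or splits. -/
def GalS : Prop :=
  ∀ (k : Type) [Field k] (p : k[X]), p.Monic → Irreducible p → p.Separable →
    IsDomain (AdjoinRoot (quo p)) → ∀ (E : Type) [Field E] [Algebra k E] [IsGalois k E],
      ¬ (p.map (algebraMap k E)).Splits → Irreducible (p.map (algebraMap k E))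

/-- It does not split over an abelian extension. -/
def AbS : Prop :=
  ∀ (k : Type) [Field k] (p : k[X]), p.Monic → Irreducible p → p.Separable →
    IsDomain (AdjoinRoot (quo p)) → 3 ≤ p.natDegree →
    ∀ (E : Type) [Field E] [Algebra k E] [IsGalois k E], (∀ σ τ : E ≃ₐ[k] E, σ * τ = τ * σ) →
      ¬ (p.map (algebraMap k E)).Splits

/-- It does not split over a finite solvable extension, unless its degree is a prime power. -/
def SolvExtS : Prop :=
  ∀ (k : Type) [Field k] (p : k[X]), p.Monic → Irreducible p → p.Separable →
    IsDomain (AdjoinRoot (quo p)) → 2 ≤ p.natDegree → ¬ IsPrimePow p.natDegree →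
    ∀ (E : Type) [Field E] [Algebra k E] [IsGalois k E] [FiniteDimensional k E],
      IsSolvable (E ≃ₐ[k] E) → ¬ (p.map (algebraMap k E)).Splits

end Pool.Agent.Q45.NE
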