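import Pool.Agent.Q45.NE.Gal

/-!
# Irreducibility over the extensions with a given field of constants
-/

set_option autoImplicit false
set_option linter.all false

open Polynomial
open scoped Classical

namespace Pool.Agent.Q45.NE

/-- A monic polynomial over `k` which is irreducible over the algebraic closure of `k` in `k'` is
irreducible over `k'`. -/
theorem irr_up {k k' : Type} [Field k] [Field k'] [Algebra k k'] {p : k[X]} (hp : p.Monic)
    (h : Irreducible (p.map (algebraMap k (algebraicClosure k k')))) :
    Irreducible (p.map (algebraMap k k')) := by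
  set k₁ := algebraicClosure k k' with hk₁
  have hinj : Function.Injective (algebraMap k₁ k') := (algebraMap k₁ k').injective
  have hlift : ∀ g : k'[X], g.Monic → g ∣ p.map (algebraMap k k') →
      ∃ g' : k₁[X], g'.map (algebraMap k₁ k') = g ∧ g'.natDegree = g.natDegree ∧ g'.Monic := by
    intro g hg hd
    have h1 := integralClosure.mem_lifts_of_monic_of_dvd_map k' hp hg hd
    have h2 : g ∈ lifts (algebraMap k₁ k') := by
      rw [lifts_iff_coeff_lifts] at h1 ⊢
      intro n
      obtain ⟨⟨x, hx⟩, hx'⟩ := h1 n
      exact ⟨⟨x, hx⟩, hx'⟩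
    exact lifts_and_natDegree_eq_and_monic h2 hg
  have hm : (p.map (algebraMap k k')).Monic := hp.map _
  have hm1 : (p.map (algebraMap k k₁)).Monic := hp.map _
  have hd : (p.map (algebraMap k k')).natDegree = (p.map (algebraMap k k₁)).natDegree := by
    rw [hp.natDegree_map, hp.natDegree_map]
  rw [hm.irreducible_iff_natDegree']
  rw [hm1.irreducible_iff_natDegree'] at h
  obtain ⟨h0, h⟩ := h
  refine ⟨?_, ?_⟩
  · intro h1
    apply h0
    exact eq_one_of_monic_natDegree_zero hm1 (by rw [← hd, h1, natDegree_one])
  · intro f g hf hg hfg hmem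
    obtain ⟨f', hf1, hf2, hf3⟩ := hlift f hf ⟨g, hfg.symm⟩
    obtain ⟨g', hg1, hg2, hg3⟩ := hlift g hg ⟨f, by rw [mul_comm]; exact hfg.symm⟩
    refine h f' g' hf3 hg3 ?_ ?_
    · apply Polynomial.map_injective _ hinj
      rw [Polynomial.map_mul, hf1, hg1, hfg, Polynomial.map_map, ← IsScalarTower.algebraMap_eq]
    · rw [hg2, ← hd]
      exact hmem

end Pool.Agent.Q45.NE
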